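import Pool.Agent.H94.PG.H78.PD.SivB
import Pool.Agent.H94.PG.M01
import Pool.Agent.H94.PG.M10
import Pool.Agent.H94.PG.M29

/-!
# PD, Siv: the sieve (black box)

From `sv_pairX` (`H43/PX/SvX.lean`) with `N = m`, a small absolute `ε`, `e1 = e10`, `A = 2`, or directly from `sieve_bb` (`H76/TP/SvBB.lean`) and its tools: `S ≥ 0`, `S ≥ rg y ≥ 0`, `Adm Q g S`, `Q ≤ m^(1/1000)`,
`|g| ≤ 3^ω ≤ d(.)²`, so `∑ |g| ≤ m^(1/1000) m^(1/2000)` (`div_le'`).  `V = ∑_{d ≤ Q} g(d)/d`: `∑_{n ≤ x} S(n) = V x + O(m^(1/500))`; comparing with the means of `S` in `sv_pairX` (`Bs` with `α = 0`, `lam_mean`) or with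
`SvI`: `|V - kS| ≤ 1/(log m)^2 + ...`, and `kS M1 ≤ #rough + ε M1/log m`.  `V ≥ c/log m` as `S ≥ 1` on the primes of `(z, M1]`; with `ε` small against `c`: `(49/50) V M1 ≤ #rough`.  `V ≤ C/log m`: `#rough` in
`(1, M1]` is `≤ C M1/log m` (upper bound sieve, or: `#rough ≤` ... from `vv_le`), or any other way.

In the proof (light imports: `SivA`, `SivB`, `SivC` are copies of the modules of `H76/TP` used): `S = SS w y r ρ` with Selberg's weights (as in `H76/TP/SvBB.lean`), `kS = VV (PW w)/GD w y D`, `|V - kS| ≤ 2^(-r)` (`gs_sing` with `q = 1`), `VV (PW y) ≤ kS ≤ 2 VV (PW y)`, Mertens.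
-/

set_option autoImplicit false

namespace Pool.Agent.H78.PD

section Siv

open Finset
open Pool.Agent.H78.PD.SL

private theorem Siv_mem (w y p : ℕ) (hp : p ∈ PY w y) : w < p ∧ p ≤ y ∧ p.Prime := by
  unfold PY at hp
  rw [mem_filter, mem_Ioc] at hp
  exact ⟨hp.1.1, hp.1.2, hp.2⟩

theorem Siv_VV_nonneg (T : Finset ℕ) (h : ∀ p ∈ T, 1 ≤ p) : 0 ≤ VV T := by
  unfold VV
  refine prod_nonneg fun p hp => ?_
  have h1 : (1 : ℝ) ≤ p := by exact_mod_cast h p hp
  have h2 : 1 / (p : ℝ) ≤ 1 := by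
    rw [div_le_one (by linarith)]
    exact h1
  linarith only [h2]

theorem Siv_PW (w : ℕ) : ∀ p ∈ PW w, 1 ≤ p := by
  intro p hp
  unfold PW at hp
  rw [mem_filter, mem_Icc] at hp
  exact hp.1.1

private theorem Siv_PY (w y : ℕ) : ∀ p ∈ PY w y, 1 ≤ p := by
  intro p hp
  have := Siv_mem w y p hp
  omega

private theorem Siv_mul (w y : ℕ) (h : w ≤ y) : VV (PW w) * VV (PY w y) = VV (PW y) := by
  have h1 : PW y = PW w ∪ PY w y := by
    ext p
    unfold PW PY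
    simp only [mem_union, mem_filter, mem_Icc, mem_Ioc]
    constructor
    · rintro ⟨⟨a, b⟩, c⟩
      rcases Nat.lt_or_ge w p with h2 | h2
      · exact Or.inr ⟨⟨h2, b⟩, c⟩
      · exact Or.inl ⟨⟨a, h2⟩, c⟩
    · rintro (⟨⟨a, b⟩, c⟩ | ⟨⟨a, b⟩, c⟩)
      · exact ⟨⟨a, by omega⟩, c⟩
      · exact ⟨⟨by omega, b⟩, c⟩
  have h2 : Disjoint (PW w) (PY w y) := by
    rw [Finset.disjoint_left]
    intro p hp hp2
    have h3 := Siv_mem w y p hp2
    unfold PW at hp
    rw [mem_filter, mem_Icc] at hp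
    omega
  rw [h1]
  unfold VV
  rw [prod_union h2]

theorem Siv_GD (w y D : ℕ) (hD : 1 ≤ D) : 1 ≤ GD w y D := by
  unfold GD
  have h1 : ∏ p ∈ (∅ : Finset ℕ), (1 / ((p : ℝ) - 1)) = 1 := prod_empty
  rw [← h1]
  refine single_le_sum (f := fun A : Finset ℕ => ∏ p ∈ A, (1 / ((p : ℝ) - 1))) (fun A hA => ?_) ?_
  · rw [mem_filter, mem_powerset] at hA
    refine prod_nonneg fun p hp => ?_
    have h2 : (1 : ℝ) ≤ p := by exact_mod_cast Siv_PY w y p (hA.1 hp)
    have h3 : (0 : ℝ) ≤ (p : ℝ) - 1 := by linarith only [h2]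
    positivity
  · rw [mem_filter, mem_powerset]
    refine ⟨empty_subset _, ?_⟩
    rw [prod_empty]
    exact hD

/-- Selberg's weights -/
theorem Siv_sel (w y D : ℕ) (hw : 1 ≤ w) (hD : 1 ≤ D) :
    ∃ ρ : Finset ℕ → ℝ, Rho w y D ρ ∧ SF w y ρ = 1 / GD w y D := by
  obtain ⟨ρ, h1, h2, h3, h4⟩ := Pool.Agent.H87T.sel_weights (PY w y) (Siv_PY w y) (fun p => 1 / (p : ℝ))
    (fun p hp => by
      have h5 := Siv_mem w y p hp
      have h6 : (1 : ℝ) < p := by exact_mod_cast (by omega : 1 < p)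
      refine ⟨by positivity, ?_⟩
      rw [div_lt_one (by linarith only [h6])]
      exact h6) D hD
  refine ⟨ρ, ⟨h1, h2, h3⟩, ?_⟩
  have h7 : ∑ A ∈ (PY w y).powerset.filter (fun A => ∏ p ∈ A, p ≤ D), ∏ p ∈ A,
      ((1 / (p : ℝ)) / (1 - 1 / (p : ℝ))) = GD w y D := by
    unfold GD
    refine sum_congr rfl fun A hA => ?_
    rw [mem_filter, mem_powerset] at hA
    refine prod_congr rfl fun p hp => ?_
    have h5 := Siv_mem w y p (hA.1 hp)
    have h6 : (1 : ℝ) < p := by exact_mod_cast (by omega : 1 < p)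
    have h8 : (p : ℝ) ≠ 0 := by linarith only [h6]
    have h9 : (p : ℝ) - 1 ≠ 0 := by linarith only [h6]
    field_simp
  rw [h7] at h4
  have h10 : 0 < GD w y D := lt_of_lt_of_le one_pos (Siv_GD w y D hD)
  rw [eq_div_iff h10.ne']
  exact h4

theorem Siv_adm (w y r D : ℕ) (ρ : Finset ℕ → ℝ) (hw : 1 ≤ w) (hwy : w ≤ y) (hρ : Rho w y D ρ) :
    Adm (w ^ (2 * r) * D ^ 2) (gS w y r ρ) (SS w y r ρ) := by
  refine ⟨fun n hn => ?_, fun n => gs_abs w y r D ρ hρ n, fun m hm => ss_exp w y r D ρ hw hwy hρ m hm⟩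
  unfold gS
  rw [if_neg]
  rintro ⟨h, -⟩
  exact hn h

/-- `1/GD ≤ VV (PY) (1 + 2t)` -/
theorem Siv_inv (C : ℝ) (hC : 0 < C) (hg : ∀ w y D : ℕ, 2 ≤ w → w ≤ y → 1 ≤ D →
    1 - C * Real.exp (-(Real.log D / Real.log y)) ≤ VV (PY w y) * GD w y D) (w y D : ℕ) (hw : 2 ≤ w)
    (hwy : w ≤ y) (hD : 1 ≤ D) (t : ℝ) (ht : C * Real.exp (-(Real.log D / Real.log y)) ≤ t) (ht2 : t ≤ 1 / 2) :
    VV (PW w) * (1 / GD w y D) ≤ VV (PW y) * (1 + 2 * t) := by
  have h1 := hg w y D hw hwy hD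
  have h2 : 0 < GD w y D := lt_of_lt_of_le one_pos (Siv_GD w y D hD)
  have ht0 : 0 ≤ t := le_trans (by positivity) ht
  rw [← Siv_mul w y hwy, mul_assoc]
  refine mul_le_mul_of_nonneg_left ?_ (Siv_VV_nonneg _ (Siv_PW w))
  rw [div_le_iff₀ h2]
  have h3 : 1 - t ≤ VV (PY w y) * GD w y D := by linarith only [ht, h1]
  have h4 : (1 - t) * (1 + 2 * t) ≤ VV (PY w y) * GD w y D * (1 + 2 * t) :=
    mul_le_mul_of_nonneg_right h3 (by linarith only [ht0])
  have h5 : 1 ≤ (1 - t) * (1 + 2 * t) := by nlinarith only [ht2, ht0]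
  calc (1 : ℝ) ≤ _ := h5.trans h4
    _ = VV (PY w y) * (1 + 2 * t) * GD w y D := by ring

/-- `(1/e1) exp(-e4/(50 e1))` is small -/
theorem Siv_small (e4 K δ : ℝ) (he4 : 0 < e4) (hK : 0 < K) (hδ : 0 < δ) :
    ∃ e10 : ℝ, 0 < e10 ∧ ∀ e1 : ℝ, 0 < e1 → e1 ≤ e10 → K / e1 * Real.exp (-(e4 / (50 * e1))) ≤ δ := by
  refine ⟨δ * e4 ^ 2 / (5000 * K), by positivity, fun e1 h0 h1 => ?_⟩
  have h2 : (e4 / (50 * e1)) ^ 2 / 2 ≤ Real.exp (e4 / (50 * e1)) := by
    have := Real.quadratic_le_exp_of_nonneg (show 0 ≤ e4 / (50 * e1) by positivity)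
    have h3 : 0 ≤ e4 / (50 * e1) := by positivity
    linarith only [this, h3]
  rw [Real.exp_neg, ← div_eq_mul_inv, div_div, div_le_iff₀ (by positivity)]
  rw [le_div_iff₀ (by positivity)] at h1
  calc K = K := rfl
    _ ≤ δ * (e1 * ((e4 / (50 * e1)) ^ 2 / 2)) := by
        have h4 : δ * (e1 * ((e4 / (50 * e1)) ^ 2 / 2)) = δ * e4 ^ 2 / (5000 * e1) := by
          field_simp
          ring
        rw [h4, le_div_iff₀ (by positivity)]
        linarith only [h1]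
    _ ≤ δ * (e1 * Real.exp (e4 / (50 * e1))) := by
        refine mul_le_mul_of_nonneg_left ?_ hδ.le
        exact mul_le_mul_of_nonneg_left h2 h0.le

/-- the mean value -/
theorem Siv_mean (C C1 C2 : ℝ) (hC : 0 < C) (hC1 : 0 < C1) (hC2 : 0 < C2)
    (hg : ∀ w y D : ℕ, 2 ≤ w → w ≤ y → 1 ≤ D →
      1 - C * Real.exp (-(Real.log D / Real.log y)) ≤ VV (PY w y) * GD w y D)
    (hv : ∀ n : ℕ, 2 ≤ n → VV (PW n) ≤ C1 / Real.log n)
    (hs : ∀ w y D : ℕ, 2 ≤ w → w ≤ y → y ≤ D →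
      ∑ p ∈ PY w y, VV (PW (p - 1)) / p * Real.exp (-(Real.log D / Real.log p)) ≤
        C2 / Real.log y * Real.exp (-(Real.log D / Real.log y)))
    (w y r D x l : ℕ) (hw : 2 ≤ w) (hwy : w ≤ y) (hyD : y ≤ D) (hr : 6 * (1 + Real.log w) ≤ r + 1)
    (hE : C * Real.exp (-(Real.log D / Real.log y)) ≤ 1 / 2) :
    VV (PW w) * (1 / GD w y D) * l ≤ ∑ m ∈ Ioc x (x + l), rg y m
      + l * (2 * C * (C1 + C2) / Real.log y * Real.exp (-(Real.log D / Real.log y)))
      + 2 * l * (2 + Real.log y) / 2 ^ r + 10 * y * ((w : ℝ) ^ (2 * r) * (D : ℝ) ^ 2) ^ 2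
      + ((w : ℝ) + 1) ^ (2 * r + 1) := by
  classical
  have hD : 1 ≤ D := by omega
  have hsel : ∀ p : ℕ, ∃ ρ : Finset ℕ → ℝ, Rho w (p - 1) D ρ ∧ SF w (p - 1) ρ = 1 / GD w (p - 1) D :=
    fun p => Siv_sel w (p - 1) D (by omega) hD
  choose ρ hρ1 hρ2 using hsel
  have hGD : ∀ y' : ℕ, 0 < GD w y' D := fun y' => lt_of_lt_of_le one_pos (Siv_GD w y' D hD)
  have hb := buc w y r D x l ρ hw hwy hD hr (fun p _ => ⟨hρ1 p, by
    rw [hρ2 p]; exact (div_pos one_pos (hGD _)).le, by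
    rw [hρ2 p, div_le_one (hGD _)]; exact Siv_GD w (p - 1) D hD⟩)
  have hlogD : 0 ≤ Real.log D := Real.log_natCast_nonneg D
  have hlogy : 0 < Real.log y := Real.log_pos (by exact_mod_cast (by omega : 1 < y))
  -- the sum over the primes
  have h1 : ∑ p ∈ PY w y, VV (PW w) * SF w (p - 1) (ρ p) / p ≤
      ∑ p ∈ PY w y, VV (PW (p - 1)) / p +
        2 * C * (C2 / Real.log y * Real.exp (-(Real.log D / Real.log y))) := by
    have h2 : ∀ p ∈ PY w y, VV (PW w) * SF w (p - 1) (ρ p) / p ≤ VV (PW (p - 1)) / p +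
        2 * C * (VV (PW (p - 1)) / p * Real.exp (-(Real.log D / Real.log p))) := by
      intro p hp
      obtain ⟨p1, p2, p3⟩ := Siv_mem w y p hp
      have hp0 : (0 : ℝ) < p := by exact_mod_cast (by omega : 0 < p)
      have q1 : 0 < Real.log ((p - 1 : ℕ) : ℝ) := Real.log_pos (by exact_mod_cast (by omega : 1 < p - 1))
      have q2 : Real.log ((p - 1 : ℕ) : ℝ) ≤ Real.log p :=
        Real.log_le_log (by exact_mod_cast (by omega : 0 < p - 1)) (by exact_mod_cast (by omega))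
      have q3 : Real.log p ≤ Real.log y := Real.log_le_log hp0 (by exact_mod_cast p2)
      have q4 : 0 < Real.log (p : ℝ) := by linarith only [q1, q2]
      have q5 : Real.exp (-(Real.log D / Real.log ((p - 1 : ℕ) : ℝ))) ≤ Real.exp (-(Real.log D / Real.log p)) := by
        apply Real.exp_le_exp.2
        have := div_le_div_of_nonneg_left hlogD q1 q2
        linarith only [this]
      have q6 : Real.exp (-(Real.log D / Real.log p)) ≤ Real.exp (-(Real.log D / Real.log y)) := by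
        apply Real.exp_le_exp.2
        have := div_le_div_of_nonneg_left hlogD q4 q3
        linarith only [this]
      have q7 := Siv_inv C hC hg w (p - 1) D hw (by omega) hD (C * Real.exp (-(Real.log D / Real.log p)))
        (mul_le_mul_of_nonneg_left q5 hC.le) ((mul_le_mul_of_nonneg_left q6 hC.le).trans hE)
      rw [hρ2 p]
      have q8 := div_le_div_of_nonneg_right q7 hp0.le
      refine q8.trans (le_of_eq ?_)
      ring
    refine (sum_le_sum h2).trans ?_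
    rw [sum_add_distrib, ← mul_sum]
    have h3 := mul_le_mul_of_nonneg_left (hs w y D hw hwy hyD) (show 0 ≤ 2 * C by positivity)
    linarith only [h3]
  have h4 := vbuch w y hwy
  have h5 : VV (PW w) * (1 / GD w y D) ≤ VV (PW y) +
      2 * C * (C1 / Real.log y * Real.exp (-(Real.log D / Real.log y))) := by
    have q7 := Siv_inv C hC hg w y D hw hwy hD _ le_rfl hE
    have q8 := mul_le_mul_of_nonneg_right (hv y (by omega))
      (show 0 ≤ 2 * C * Real.exp (-(Real.log D / Real.log y)) by positivity)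
    calc _ ≤ _ := q7
      _ = VV (PW y) + VV (PW y) * (2 * C * Real.exp (-(Real.log D / Real.log y))) := by ring
      _ ≤ VV (PW y) + C1 / Real.log y * (2 * C * Real.exp (-(Real.log D / Real.log y))) := by linarith only [q8]
      _ = _ := by ring
  have hl : (0 : ℝ) ≤ l := Nat.cast_nonneg l
  have h6 : VV (PW w) * (1 / GD w y D) * l ≤ l * (VV (PW w) - ∑ p ∈ PY w y, VV (PW w) * SF w (p - 1) (ρ p) / p)
      + l * (2 * C * (C1 + C2) / Real.log y * Real.exp (-(Real.log D / Real.log y))) := by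
    have h7 : VV (PW w) * (1 / GD w y D) ≤ (VV (PW w) - ∑ p ∈ PY w y, VV (PW w) * SF w (p - 1) (ρ p) / p)
        + 2 * C * (C1 + C2) / Real.log y * Real.exp (-(Real.log D / Real.log y)) := by
      have h8 : 2 * C * (C1 + C2) / Real.log y * Real.exp (-(Real.log D / Real.log y)) =
          2 * C * (C1 / Real.log y * Real.exp (-(Real.log D / Real.log y))) +
          2 * C * (C2 / Real.log y * Real.exp (-(Real.log D / Real.log y))) := by ring
      rw [h8]
      linarith only [h1, h4, h5]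
    have h9 := mul_le_mul_of_nonneg_left h7 hl
    calc VV (PW w) * (1 / GD w y D) * l = l * (VV (PW w) * (1 / GD w y D)) := by ring
      _ ≤ _ := h9
      _ = _ := by ring
  linarith only [hb, h6]

theorem Siv_low (w y D : ℕ) (hw : 1 ≤ w) (hwy : w ≤ y) (hD : 1 ≤ D) :
    VV (PW y) ≤ VV (PW w) * (1 / GD w y D) := by
  have hG : GD w y D ≤ ∏ p ∈ PY w y, (1 + 1 / ((p : ℝ) - 1)) := by
    unfold GD
    rw [Finset.prod_one_add]
    refine sum_le_sum_of_subset_of_nonneg (filter_subset _ _) fun A hA _ => ?_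
    rw [mem_powerset] at hA
    refine prod_nonneg fun p hp => ?_
    have h2 : (1 : ℝ) ≤ p := by exact_mod_cast Siv_PY w y p (hA hp)
    have h3 : (0 : ℝ) ≤ (p : ℝ) - 1 := by linarith only [h2]
    positivity
  have hP : VV (PY w y) * ∏ p ∈ PY w y, (1 + 1 / ((p : ℝ) - 1)) = 1 := by
    unfold VV
    rw [← prod_mul_distrib]
    refine prod_eq_one fun p hp => ?_
    have h5 := Siv_mem w y p hp
    have h6 : (1 : ℝ) < p := by exact_mod_cast (by omega : 1 < p)
    have h8 : (p : ℝ) ≠ 0 := by linarith only [h6]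
    have h9 : (p : ℝ) - 1 ≠ 0 := by
      intro h
      linarith only [h6, h]
    field_simp
    ring
  have hV := Siv_VV_nonneg (PY w y) (Siv_PY w y)
  have hW := Siv_VV_nonneg (PW w) (Siv_PW w)
  have hG1 : 0 < GD w y D := lt_of_lt_of_le one_pos (Siv_GD w y D hD)
  have h1 : VV (PY w y) * GD w y D ≤ 1 := by
    rw [← hP]
    exact mul_le_mul_of_nonneg_left hG hV
  rw [← Siv_mul w y hwy]
  refine mul_le_mul_of_nonneg_left ?_ hW
  rw [le_div_iff₀ hG1]
  exact h1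

private theorem Siv_three (n : ℕ) (hn : 1 ≤ n) : (3 : ℝ) ^ n.primeFactors.card ≤ (n : ℝ) ^ 2 := by
  have h1 : 2 ^ n.primeFactors.card ≤ n := by
    calc 2 ^ n.primeFactors.card ≤ ∏ p ∈ n.primeFactors, p :=
          Finset.pow_card_le_prod _ _ _ fun p hp => (Nat.prime_of_mem_primeFactors hp).two_le
      _ ≤ n := Nat.le_of_dvd hn (Nat.prod_primeFactors_dvd n)
  have h2 : (2 : ℝ) ^ n.primeFactors.card ≤ n := by exact_mod_cast h1
  calc (3 : ℝ) ^ n.primeFactors.card ≤ (2 ^ 2) ^ n.primeFactors.card :=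
        pow_le_pow_left₀ (by norm_num) (by norm_num) _
    _ = ((2 : ℝ) ^ n.primeFactors.card) ^ 2 := by rw [← pow_mul, ← pow_mul, mul_comm]
    _ ≤ (n : ℝ) ^ 2 := pow_le_pow_left₀ (by positivity) h2 2

theorem Siv_abs (Q : ℕ) (g : ℕ → ℝ) (hg : ∀ n, |g n| ≤ 3 ^ n.primeFactors.card) :
    ∑ d ∈ Icc 1 Q, |g d| ≤ (Q : ℝ) ^ 3 := by
  have h1 : ∀ d ∈ Icc 1 Q, |g d| ≤ (Q : ℝ) ^ 2 := by
    intro d hd
    rw [mem_Icc] at hd
    refine (hg d).trans ((Siv_three d hd.1).trans ?_)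
    have h2 : (d : ℝ) ≤ Q := by exact_mod_cast hd.2
    exact pow_le_pow_left₀ (Nat.cast_nonneg d) h2 2
  refine (sum_le_sum h1).trans (le_of_eq ?_)
  rw [sum_const, Nat.card_Icc, nsmul_eq_mul]
  simp only [Nat.add_sub_cancel]
  ring

end Siv

open Finset
open Pool.Agent.H34PG (lam lam_val lam_mul)
open Pool.Agent.H11.LQ Pool.Agent.H78.PG

end Pool.Agent.H78.PD
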