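import Mathlib

/-!
# PD, SivA: the upper bound sieve (copy of `H76/TP/SvA.lean`, `SvB.lean` without their imports)
-/

set_option autoImplicit false

namespace Pool.Agent.H78.PD.SL

open Finset

/-- the lower end of the sieving range -/
noncomputable def yN (e1 : ℝ) (N : ℕ) : ℕ := ⌊(N : ℝ) ^ e1⌋₊

open Classical in
/-- the indicator of the `y`-rough numbers -/
noncomputable def rg (y k : ℕ) : ℝ := if ∀ p : ℕ, p.Prime → p ∣ k → y < p then 1 else 0

/-- primes `≤ w` -/
def PW (w : ℕ) : Finset ℕ := (Icc 1 w).filter Nat.Prime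

/-- primes in `(w, y]` -/
def PY (w y : ℕ) : Finset ℕ := (Ioc w y).filter Nat.Prime

/-- Bonferroni sum of level `2r` over the primes `≤ w` -/
noncomputable def bon (w r m : ℕ) : ℝ :=
  ∑ T ∈ ((PW w).filter (fun p => p ∣ m)).powerset.filter (fun T => T.card ≤ 2 * r), (-1 : ℝ) ^ T.card

/-- Selberg's square over the primes of `(w, y]` -/
noncomputable def sel (w y : ℕ) (ρ : Finset ℕ → ℝ) (m : ℕ) : ℝ :=
  (∑ A ∈ ((PY w y).filter (fun p => p ∣ m)).powerset, ρ A) ^ 2

/-- the upper bound sieve -/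
noncomputable def SS (w y r : ℕ) (ρ : Finset ℕ → ℝ) (m : ℕ) : ℝ := bon w r m * sel w y ρ m

/-- admissible coefficients of type I: `g` supported on squarefree numbers, `|g n| ≤ 3^ω(n)`, `S m = ∑_{n ≤ Q, n ∣ m} g n` -/
def Adm (Q : ℕ) (g S : ℕ → ℝ) : Prop :=
  (∀ n, ¬ Squarefree n → g n = 0) ∧ (∀ n, |g n| ≤ 3 ^ n.primeFactors.card) ∧
    ∀ m, 1 ≤ m → S m = ∑ n ∈ (Icc 1 Q).filter (fun n => n ∣ m), g n

/-- `∏_{p ∈ T} (1 - 1/p)` -/
noncomputable def VV (T : Finset ℕ) : ℝ := ∏ p ∈ T, (1 - 1 / (p : ℝ))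

/-- the coefficients of the sieve -/
noncomputable def gS (w y r : ℕ) (ρ : Finset ℕ → ℝ) (n : ℕ) : ℝ :=
  if Squarefree n ∧ (∀ p ∈ n.primeFactors, p ≤ y) ∧ (n.primeFactors.filter (fun p => p ≤ w)).card ≤ 2 * r then
    (-1 : ℝ) ^ (n.primeFactors.filter (fun p => p ≤ w)).card *
      ∑ A ∈ (n.primeFactors.filter (fun p => w < p)).powerset,
        ∑ B ∈ (n.primeFactors.filter (fun p => w < p)).powerset,
          if A ∪ B = n.primeFactors.filter (fun p => w < p) then ρ A * ρ B else 0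
  else 0

/-- admissible weights: `ρ ∅ = 1`, `|ρ A| ≤ 1`, `ρ A = 0` for `∏_{p ∈ A} p > D` (`A ⊆ PY w y`) -/
def Rho (w y D : ℕ) (ρ : Finset ℕ → ℝ) : Prop :=
  ρ ∅ = 1 ∧ (∀ A ⊆ PY w y, |ρ A| ≤ 1) ∧ ∀ A ⊆ PY w y, D < ∏ p ∈ A, p → ρ A = 0

private theorem SvA_alt (s : Finset ℕ) (k : ℕ) (hs : s.Nonempty) :
    0 ≤ ∑ T ∈ s.powerset.filter (fun T => T.card ≤ 2 * k), (-1 : ℝ) ^ T.card := by
  obtain ⟨a, ha⟩ := hs
  rw [Finset.sum_filter]
  obtain ⟨s', hs'⟩ : ∃ s', s' = s.erase a := ⟨_, rfl⟩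
  have has' : a ∉ s' := by
    rw [hs']
    exact Finset.notMem_erase a s
  have hsi : s = insert a s' := by
    rw [hs', Finset.insert_erase ha]
  rw [hsi, Finset.sum_powerset_insert has', ← Finset.sum_add_distrib]
  apply Finset.sum_nonneg
  intro T hT
  have haT : a ∉ T := fun h => has' (Finset.mem_powerset.mp hT h)
  rw [Finset.card_insert_of_notMem haT]
  by_cases h1 : T.card + 1 ≤ 2 * k
  · rw [if_pos h1, if_pos (by omega), pow_succ]
    linarith only
  · rw [if_neg h1]
    by_cases h2 : T.card ≤ 2 * k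
    · have h3 : T.card = 2 * k := by omega
      rw [if_pos h2, h3, pow_mul]
      norm_num
    · rw [if_neg h2]
      norm_num

private theorem SvA_empty (k : ℕ) :
    ∑ T ∈ (∅ : Finset ℕ).powerset.filter (fun T => T.card ≤ 2 * k), (-1 : ℝ) ^ T.card = 1 := by
  rw [Finset.sum_filter, Finset.powerset_empty, Finset.sum_singleton, Finset.card_empty]
  simp

theorem bon_nonneg (w r m : ℕ) : 0 ≤ bon w r m := by
  unfold bon
  rcases ((PW w).filter (fun p => p ∣ m)).eq_empty_or_nonempty with h | h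
  · rw [h, SvA_empty]
    norm_num
  · exact SvA_alt _ r h

theorem bon_one (w r m : ℕ) (h : ∀ p : ℕ, p.Prime → p ∣ m → w < p) : bon w r m = 1 := by
  unfold bon
  have h1 : (PW w).filter (fun p => p ∣ m) = ∅ := by
    rw [Finset.filter_eq_empty_iff]
    intro p hp hpm
    unfold PW at hp
    rw [Finset.mem_filter, mem_Icc] at hp
    have := h p hp.2 hpm
    omega
  rw [h1, SvA_empty]

theorem ss_nonneg (w y r : ℕ) (ρ : Finset ℕ → ℝ) (m : ℕ) : 0 ≤ SS w y r ρ m := by
  unfold SS sel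
  exact mul_nonneg (bon_nonneg w r m) (sq_nonneg _)

theorem ss_ge (w y r D : ℕ) (ρ : Finset ℕ → ℝ) (hwy : w ≤ y) (hρ : Rho w y D ρ) (m : ℕ) (hm : 1 ≤ m) :
    rg y m ≤ SS w y r ρ m := by
  unfold rg
  split_ifs with h
  · have h1 : bon w r m = 1 := bon_one w r m (fun p hp hpm => lt_of_le_of_lt hwy (h p hp hpm))
    have h2 : (PY w y).filter (fun p => p ∣ m) = ∅ := by
      rw [Finset.filter_eq_empty_iff]
      intro p hp hpm
      unfold PY at hp
      rw [Finset.mem_filter, mem_Ioc] at hp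
      have := h p hp.2 hpm
      omega
    unfold SS sel
    rw [h1, h2, Finset.powerset_empty, Finset.sum_singleton, hρ.1]
    norm_num
  · exact ss_nonneg w y r ρ m

private theorem SvA_sub {w y n : ℕ} (h : ∀ p ∈ n.primeFactors, p ≤ y) {A : Finset ℕ}
    (hA : A ⊆ n.primeFactors.filter (fun p => w < p)) : A ⊆ PY w y := by
  intro p hp
  have h1 := hA hp
  rw [Finset.mem_filter] at h1
  unfold PY
  rw [Finset.mem_filter, mem_Ioc]
  exact ⟨⟨h1.2, h p h1.1⟩, Nat.prime_of_mem_primeFactors h1.1⟩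

private theorem SvA_cnt (A U : Finset ℕ) :
    (U.powerset.filter (fun B => A ∪ B = U)).card ≤ 2 ^ A.card := by
  rw [← Finset.card_powerset]
  apply Finset.card_le_card_of_injOn (fun B => B ∩ A)
  · intro B _
    exact Finset.mem_coe.mpr (Finset.mem_powerset.mpr Finset.inter_subset_right)
  · intro B hB C hC hBC
    simp only at hBC
    rw [Finset.mem_coe, Finset.mem_filter] at hB hC
    ext x
    by_cases hx : x ∈ A
    · have h1 := Finset.ext_iff.mp hBC x
      rw [Finset.mem_inter, Finset.mem_inter] at h1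
      tauto
    · have h1 := Finset.ext_iff.mp hB.2 x
      have h2 := Finset.ext_iff.mp hC.2 x
      rw [Finset.mem_union] at h1 h2
      tauto

theorem gs_abs (w y r D : ℕ) (ρ : Finset ℕ → ℝ) (hρ : Rho w y D ρ) (n : ℕ) :
    |gS w y r ρ n| ≤ 3 ^ n.primeFactors.card := by
  unfold gS
  split_ifs with h
  · obtain ⟨-, hy, -⟩ := h
    obtain ⟨U, hU⟩ : ∃ U, U = n.primeFactors.filter (fun p => w < p) := ⟨_, rfl⟩
    rw [← hU, abs_mul, abs_pow, abs_neg, abs_one, one_pow, one_mul]
    have h1 : ∀ A ∈ U.powerset, |∑ B ∈ U.powerset, if A ∪ B = U then ρ A * ρ B else 0| ≤ (2 : ℝ) ^ A.card := by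
      intro A hA
      rw [Finset.mem_powerset] at hA
      refine (Finset.abs_sum_le_sum_abs _ _).trans ?_
      have h2 : ∀ B ∈ U.powerset, |if A ∪ B = U then ρ A * ρ B else 0| ≤ if A ∪ B = U then (1 : ℝ) else 0 := by
        intro B hB
        rw [Finset.mem_powerset] at hB
        split_ifs with hAB
        · rw [abs_mul]
          exact mul_le_one₀ (hρ.2.1 A (SvA_sub hy (hU ▸ hA))) (abs_nonneg _) (hρ.2.1 B (SvA_sub hy (hU ▸ hB)))
        · rw [abs_zero]
      refine (Finset.sum_le_sum h2).trans ?_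
      rw [Finset.sum_boole]
      exact_mod_cast SvA_cnt A U
    refine (Finset.abs_sum_le_sum_abs _ _).trans ((Finset.sum_le_sum h1).trans ?_)
    have h3 := Finset.sum_pow_mul_eq_add_pow (2 : ℝ) 1 U
    have h4 : ∑ A ∈ U.powerset, (2 : ℝ) ^ A.card = 3 ^ U.card := by
      norm_num at h3
      exact h3
    rw [h4]
    apply pow_le_pow_right₀ (by norm_num)
    rw [hU]
    exact Finset.card_le_card (Finset.filter_subset _ _)
  · rw [abs_zero]
    positivity

private theorem SvA_prod (w : ℕ) {n : ℕ} (hsq : Squarefree n) :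
    (∏ p ∈ n.primeFactors.filter (fun p => p ≤ w), p) * ∏ p ∈ n.primeFactors.filter (fun p => w < p), p = n := by
  have h1 := Finset.prod_filter_mul_prod_filter_not n.primeFactors (fun p => p ≤ w) (fun p => p)
  simp only [not_le] at h1
  rw [Nat.prod_primeFactors_of_squarefree hsq] at h1
  exact h1

theorem gs_zero (w y r D : ℕ) (ρ : Finset ℕ → ℝ) (hw : 1 ≤ w) (hρ : Rho w y D ρ) (n : ℕ)
    (hn : w ^ (2 * r) * D ^ 2 < n) : gS w y r ρ n = 0 := by
  unfold gS
  split_ifs with h
  · obtain ⟨hsq, hy, hcard⟩ := h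
    obtain ⟨U, hU⟩ : ∃ U, U = n.primeFactors.filter (fun p => w < p) := ⟨_, rfl⟩
    rw [← hU]
    have hprod : (∏ p ∈ n.primeFactors.filter (fun p => p ≤ w), p) * ∏ p ∈ U, p = n := by
      rw [hU]
      exact SvA_prod w hsq
    have hT : ∏ p ∈ n.primeFactors.filter (fun p => p ≤ w), p ≤ w ^ (2 * r) := by
      refine (Finset.prod_le_pow_card _ (fun p : ℕ => p) w ?_).trans (Nat.pow_le_pow_right hw hcard)
      intro p hp
      exact (Finset.mem_filter.mp hp).2
    have hUD : D ^ 2 < ∏ p ∈ U, p := by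
      by_contra hcon
      push Not at hcon
      have := Nat.mul_le_mul hT hcon
      rw [hprod] at this
      omega
    have hzero : ∀ A ∈ U.powerset, (∑ B ∈ U.powerset, if A ∪ B = U then ρ A * ρ B else 0) = 0 := by
      intro A hA
      apply Finset.sum_eq_zero
      intro B hB
      rw [Finset.mem_powerset] at hA hB
      split_ifs with hAB
      · have hA' := SvA_sub hy (hU ▸ hA)
        have hB' := SvA_sub hy (hU ▸ hB)
        by_cases hAD : D < ∏ p ∈ A, p
        · rw [hρ.2.2 A hA' hAD, zero_mul]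
        · by_cases hBD : D < ∏ p ∈ B, p
          · rw [hρ.2.2 B hB' hBD, mul_zero]
          · exfalso
            push Not at hAD hBD
            have h1 : ∏ p ∈ U, p ≤ (∏ p ∈ A, p) * ∏ p ∈ B, p := by
              rw [← hAB, ← Finset.prod_union_inter]
              apply Nat.le_mul_of_pos_right
              apply Finset.prod_pos
              intro p hp
              have := hA' (Finset.mem_inter.mp hp).1
              unfold PY at this
              exact (Finset.mem_filter.mp this).2.pos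
            have h2 := Nat.mul_le_mul hAD hBD
            have h3 : D * D = D ^ 2 := by ring
            omega
      · rfl
    rw [Finset.sum_eq_zero hzero, mul_zero]
  · rfl

/-- expansion of the square -/
private theorem SvA_sq (ρ : Finset ℕ → ℝ) (V : Finset ℕ) : (∑ A ∈ V.powerset, ρ A) ^ 2 =
    ∑ U ∈ V.powerset, ∑ A ∈ U.powerset, ∑ B ∈ U.powerset, if A ∪ B = U then ρ A * ρ B else 0 := by
  have h1 : ∀ U ∈ V.powerset, (∑ A ∈ U.powerset, ∑ B ∈ U.powerset, if A ∪ B = U then ρ A * ρ B else 0) =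
      ∑ A ∈ V.powerset, ∑ B ∈ V.powerset, if A ∪ B = U then ρ A * ρ B else 0 := by
    intro U hU
    rw [Finset.mem_powerset] at hU
    have h2 : ∀ A ∈ U.powerset, (∑ B ∈ U.powerset, if A ∪ B = U then ρ A * ρ B else 0) =
        ∑ B ∈ V.powerset, if A ∪ B = U then ρ A * ρ B else 0 := by
      intro A _
      apply Finset.sum_subset (Finset.powerset_mono.mpr hU)
      intro B _ hB
      rw [if_neg]
      intro h
      apply hB
      rw [Finset.mem_powerset, ← h]
      exact Finset.subset_union_right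
    rw [Finset.sum_congr rfl h2]
    apply Finset.sum_subset (Finset.powerset_mono.mpr hU)
    intro A _ hA
    apply Finset.sum_eq_zero
    intro B _
    rw [if_neg]
    intro h
    apply hA
    rw [Finset.mem_powerset, ← h]
    exact Finset.subset_union_left
  rw [Finset.sum_congr rfl h1, Finset.sum_comm, pow_two, Finset.sum_mul_sum]
  apply Finset.sum_congr rfl
  intro A hA
  rw [Finset.sum_comm]
  apply Finset.sum_congr rfl
  intro B hB
  rw [Finset.mem_powerset] at hA hB
  rw [Finset.sum_ite_eq, if_pos (Finset.mem_powerset.mpr (Finset.union_subset hA hB))]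

private theorem SvA_sqf {W : Finset ℕ} (hW : ∀ p ∈ W, p.Prime) : Squarefree (∏ p ∈ W, p) := by
  apply Finset.squarefree_prod_of_pairwise_isCoprime
  · intro p hp q hq hpq
    rw [Function.onFun, ← Nat.coprime_iff_isRelPrime]
    exact (Nat.coprime_primes (hW p hp) (hW q hq)).mpr hpq
  · intro p hp
    exact (hW p hp).prime.squarefree

private theorem SvA_pair {w y r m : ℕ} (hwy : w ≤ y) {T U : Finset ℕ}
    (hx : (T, U) ∈ (((PW w).filter (fun p => p ∣ m)).powerset.filter (fun T => T.card ≤ 2 * r)) ×ˢ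
      ((PY w y).filter (fun p => p ∣ m)).powerset) :
    T ⊆ (PW w).filter (fun p => p ∣ m) ∧ T.card ≤ 2 * r ∧ U ⊆ (PY w y).filter (fun p => p ∣ m) ∧
      (∀ p ∈ T ∪ U, p.Prime ∧ p ≤ y ∧ p ∣ m) ∧ Disjoint T U ∧ (∏ p ∈ T ∪ U, p).primeFactors = T ∪ U ∧
      (T ∪ U).filter (fun p => p ≤ w) = T ∧ (T ∪ U).filter (fun p => w < p) = U := by
  rw [Finset.mem_product, Finset.mem_filter, Finset.mem_powerset, Finset.mem_powerset] at hx
  obtain ⟨⟨hT, hTc⟩, hU⟩ := hx
  simp only at hT hTc hU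
  have hT2 : ∀ p ∈ T, p.Prime ∧ p ≤ w ∧ p ∣ m := by
    intro p hp
    have h1 := hT hp
    unfold PW at h1
    rw [Finset.mem_filter, Finset.mem_filter, mem_Icc] at h1
    exact ⟨h1.1.2, h1.1.1.2, h1.2⟩
  have hU2 : ∀ p ∈ U, p.Prime ∧ w < p ∧ p ≤ y ∧ p ∣ m := by
    intro p hp
    have h1 := hU hp
    unfold PY at h1
    rw [Finset.mem_filter, Finset.mem_filter, mem_Ioc] at h1
    exact ⟨h1.1.2, h1.1.1.1, h1.1.1.2, h1.2⟩
  have hp : ∀ p ∈ T ∪ U, p.Prime ∧ p ≤ y ∧ p ∣ m := by
    intro p hp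
    rcases Finset.mem_union.mp hp with h | h
    · obtain ⟨h1, h2, h3⟩ := hT2 p h
      exact ⟨h1, h2.trans hwy, h3⟩
    · obtain ⟨h1, h2, h3, h4⟩ := hU2 p h
      exact ⟨h1, h3, h4⟩
  refine ⟨hT, hTc, hU, hp, ?_, Nat.primeFactors_prod (fun p h => (hp p h).1), ?_, ?_⟩
  · rw [Finset.disjoint_left]
    intro p h1 h2
    have h3 := (hT2 p h1).2.1
    have h4 := (hU2 p h2).2.1
    omega
  · ext p
    rw [Finset.mem_filter, Finset.mem_union]
    constructor
    · rintro ⟨h1 | h1, h2⟩
      · exact h1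
      · have := (hU2 p h1).2.1
        omega
    · intro h1
      exact ⟨Or.inl h1, (hT2 p h1).2.1⟩
  · ext p
    rw [Finset.mem_filter, Finset.mem_union]
    constructor
    · rintro ⟨h1 | h1, h2⟩
      · have := (hT2 p h1).2.1
        omega
      · exact h1
    · intro h1
      exact ⟨Or.inr h1, (hU2 p h1).2.1⟩

/-- the sum over all squarefree divisors -/
private theorem SvA_div (w y r : ℕ) (ρ : Finset ℕ → ℝ) (hwy : w ≤ y) (m : ℕ) (hm : 1 ≤ m) :
    SS w y r ρ m = ∑ n ∈ m.divisors, gS w y r ρ n := by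
  unfold SS bon sel
  rw [SvA_sq, Finset.sum_mul_sum, ← Finset.sum_product']
  have hR : ∑ n ∈ m.divisors, gS w y r ρ n = ∑ n ∈ m.divisors.filter (fun n => Squarefree n ∧
      (∀ p ∈ n.primeFactors, p ≤ y) ∧ (n.primeFactors.filter (fun p => p ≤ w)).card ≤ 2 * r),
      (-1 : ℝ) ^ (n.primeFactors.filter (fun p => p ≤ w)).card *
      ∑ A ∈ (n.primeFactors.filter (fun p => w < p)).powerset,
        ∑ B ∈ (n.primeFactors.filter (fun p => w < p)).powerset,
          if A ∪ B = n.primeFactors.filter (fun p => w < p) then ρ A * ρ B else 0 := by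
    rw [Finset.sum_filter]
    rfl
  rw [hR]
  apply Finset.sum_nbij' (fun x : Finset ℕ × Finset ℕ => ∏ p ∈ x.1 ∪ x.2, p)
    (fun n : ℕ => (n.primeFactors.filter (fun p => p ≤ w), n.primeFactors.filter (fun p => w < p)))
  · rintro ⟨T, U⟩ hx
    obtain ⟨hT, hTc, hU, hp, hdisj, hpf, hfT, hfU⟩ := SvA_pair hwy hx
    simp only
    rw [Finset.mem_filter, Nat.mem_divisors, hpf, hfT]
    refine ⟨⟨?_, by omega⟩, SvA_sqf (fun p h => (hp p h).1), fun p h => (hp p h).2.1, hTc⟩
    exact Finset.prod_primes_dvd m (fun p h => (hp p h).1.prime) (fun p h => (hp p h).2.2)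
  · intro n hn
    rw [Finset.mem_filter, Nat.mem_divisors] at hn
    obtain ⟨⟨hnm, -⟩, hsq, hy, hc⟩ := hn
    rw [Finset.mem_product, Finset.mem_filter, Finset.mem_powerset, Finset.mem_powerset]
    refine ⟨⟨?_, hc⟩, ?_⟩
    · intro p hp
      simp only [Finset.mem_filter] at hp
      unfold PW
      rw [Finset.mem_filter, Finset.mem_filter, mem_Icc]
      have h1 := Nat.prime_of_mem_primeFactors hp.1
      exact ⟨⟨⟨h1.one_lt.le, hp.2⟩, h1⟩, (Nat.dvd_of_mem_primeFactors hp.1).trans hnm⟩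
    · intro p hp
      simp only [Finset.mem_filter] at hp
      unfold PY
      rw [Finset.mem_filter, Finset.mem_filter, mem_Ioc]
      have h1 := Nat.prime_of_mem_primeFactors hp.1
      exact ⟨⟨⟨hp.2, hy p hp.1⟩, h1⟩, (Nat.dvd_of_mem_primeFactors hp.1).trans hnm⟩
  · rintro ⟨T, U⟩ hx
    obtain ⟨hT, hTc, hU, hp, hdisj, hpf, hfT, hfU⟩ := SvA_pair hwy hx
    simp only
    rw [hpf, hfT, hfU]
  · intro n hn
    rw [Finset.mem_filter] at hn
    obtain ⟨-, hsq, hy, hc⟩ := hn
    simp only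
    rw [Finset.prod_union, SvA_prod w hsq]
    rw [Finset.disjoint_left]
    intro p hp hp2
    have h1 := (Finset.mem_filter.mp hp).2
    have h2 := (Finset.mem_filter.mp hp2).2
    omega
  · rintro ⟨T, U⟩ hx
    obtain ⟨hT, hTc, hU, hp, hdisj, hpf, hfT, hfU⟩ := SvA_pair hwy hx
    simp only
    rw [hpf, hfT, hfU]

theorem ss_exp (w y r D : ℕ) (ρ : Finset ℕ → ℝ) (hw : 1 ≤ w) (hwy : w ≤ y) (hρ : Rho w y D ρ) (m : ℕ)
    (hm : 1 ≤ m) : SS w y r ρ m =
      ∑ n ∈ (Icc 1 (w ^ (2 * r) * D ^ 2)).filter (fun n => n ∣ m), gS w y r ρ n := by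
  rw [SvA_div w y r ρ hwy m hm]
  symm
  apply Finset.sum_subset
  · intro n hn
    rw [Finset.mem_filter] at hn
    exact Nat.mem_divisors.mpr ⟨hn.2, by omega⟩
  · intro n hn hn2
    apply gs_zero w y r D ρ hw hρ
    by_contra hcon
    push Not at hcon
    apply hn2
    rw [Finset.mem_filter, mem_Icc]
    exact ⟨⟨Nat.pos_of_mem_divisors hn, hcon⟩, Nat.dvd_of_mem_divisors hn⟩

/-- the Selberg form -/
noncomputable def SF (w y : ℕ) (ρ : Finset ℕ → ℝ) : ℝ :=
  ∑ A ∈ (PY w y).powerset, ∑ B ∈ (PY w y).powerset, ρ A * ρ B * ∏ p ∈ A ∪ B, (1 / (p : ℝ))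

private noncomputable def svb_c (ρ : Finset ℕ → ℝ) (U : Finset ℕ) : ℝ :=
  ∑ A ∈ U.powerset, ∑ B ∈ U.powerset, if A ∪ B = U then ρ A * ρ B else 0

private noncomputable def svb_s (T : Finset ℕ) : ℝ := ∏ p ∈ T, (1 / (p : ℝ))

private theorem svb_s_nonneg (T : Finset ℕ) : 0 ≤ svb_s T :=
  Finset.prod_nonneg fun p _ => by positivity

private theorem svb_prime_PW {w p : ℕ} (h : p ∈ PW w) : p.Prime := (mem_filter.1 h).2

private theorem svb_prime_PY {w y p : ℕ} (h : p ∈ PY w y) : p.Prime := (mem_filter.1 h).2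

private theorem svb_sf {S : Finset ℕ} (hS : ∀ p ∈ S, p.Prime) : Squarefree (∏ p ∈ S, p) := by
  refine Finset.squarefree_prod_of_pairwise_isCoprime (fun a ha b hb hab => ?_)
    fun a ha => (hS a ha).squarefree
  simp only [Function.onFun, ← Nat.coprime_iff_isRelPrime]
  exact (Nat.coprime_primes (hS a ha) (hS b hb)).mpr hab

private theorem svb_c_sum (w y : ℕ) (ρ : Finset ℕ → ℝ) :
    ∑ U ∈ (PY w y).powerset, svb_c ρ U * svb_s U = SF w y ρ := by
  unfold SF svb_c
  have h1 : ∀ U ∈ (PY w y).powerset,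
      (∑ A ∈ U.powerset, ∑ B ∈ U.powerset, if A ∪ B = U then ρ A * ρ B else 0) * svb_s U =
      ∑ A ∈ (PY w y).powerset, ∑ B ∈ (PY w y).powerset,
        if A ∪ B = U then ρ A * ρ B * svb_s U else 0 := by
    intro U hU
    rw [mem_powerset] at hU
    have hsub : U.powerset ⊆ (PY w y).powerset := powerset_mono.2 hU
    rw [Finset.sum_mul, Finset.sum_subset hsub]
    · apply Finset.sum_congr rfl
      intro A _
      rw [Finset.sum_mul, Finset.sum_subset hsub]
      · apply Finset.sum_congr rfl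
        intro B _
        rw [ite_mul, zero_mul]
      · intro B _ hB
        rw [if_neg, zero_mul]
        intro h
        apply hB
        rw [mem_powerset, ← h]
        exact subset_union_right
    · intro A _ hA
      rw [Finset.sum_eq_zero, zero_mul]
      intro B _
      rw [if_neg]
      intro h
      apply hA
      rw [mem_powerset, ← h]
      exact subset_union_left
  rw [Finset.sum_congr rfl h1, Finset.sum_comm]
  apply Finset.sum_congr rfl
  intro A hA
  rw [Finset.sum_comm]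
  apply Finset.sum_congr rfl
  intro B hB
  rw [Finset.sum_ite_eq, if_pos]
  · rfl
  · rw [mem_powerset] at hA hB ⊢
    exact union_subset hA hB

private theorem svb_filter_le {w y : ℕ} {T U : Finset ℕ} (hT : T ⊆ PW w) (hU : U ⊆ PY w y) :
    (T ∪ U).filter (fun p => p ≤ w) = T := by
  ext p
  rw [mem_filter, mem_union]
  constructor
  · rintro ⟨h1 | h1, h2⟩
    · exact h1
    · have := (mem_Ioc.1 (mem_filter.1 (hU h1)).1).1
      omega
  · intro h
    exact ⟨Or.inl h, (mem_Icc.1 (mem_filter.1 (hT h)).1).2⟩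

private theorem svb_filter_gt {w y : ℕ} {T U : Finset ℕ} (hT : T ⊆ PW w) (hU : U ⊆ PY w y) :
    (T ∪ U).filter (fun p => w < p) = U := by
  ext p
  rw [mem_filter, mem_union]
  constructor
  · rintro ⟨h1 | h1, h2⟩
    · have := (mem_Icc.1 (mem_filter.1 (hT h1)).1).2
      omega
    · exact h1
  · intro h
    exact ⟨Or.inr h, (mem_Ioc.1 (mem_filter.1 (hU h)).1).1⟩

private theorem svb_disj {w y : ℕ} {T U : Finset ℕ} (hT : T ⊆ PW w) (hU : U ⊆ PY w y) :
    Disjoint T U := by
  rw [Finset.disjoint_left]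
  intro p h1 h2
  have := (mem_Icc.1 (mem_filter.1 (hT h1)).1).2
  have := (mem_Ioc.1 (mem_filter.1 (hU h2)).1).1
  omega

/-- the value of `gS` at a squarefree number -/
private theorem svb_gS (w y r : ℕ) (hwy : w ≤ y) (ρ : Finset ℕ → ℝ) (T U : Finset ℕ)
    (hT : T ⊆ PW w) (hU : U ⊆ PY w y) (hc : T.card ≤ 2 * r) :
    gS w y r ρ (∏ p ∈ T ∪ U, p) = (-1 : ℝ) ^ T.card * svb_c ρ U := by
  have hp : ∀ p ∈ T ∪ U, p.Prime := by
    intro p h
    rcases mem_union.1 h with h | h
    · exact svb_prime_PW (hT h)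
    · exact svb_prime_PY (hU h)
  have hpf : (∏ p ∈ T ∪ U, p).primeFactors = T ∪ U := Nat.primeFactors_prod hp
  unfold gS
  rw [hpf, svb_filter_le hT hU, svb_filter_gt hT hU, if_pos]
  · rfl
  · refine ⟨svb_sf hp, ?_, hc⟩
    intro p h
    rcases mem_union.1 h with h | h
    · exact (mem_Icc.1 (mem_filter.1 (hT h)).1).2.trans hwy
    · exact (mem_Ioc.1 (mem_filter.1 (hU h)).1).2

private theorem svb_inv (S : Finset ℕ) : (1 : ℝ) / ((∏ p ∈ S, p : ℕ) : ℝ) = svb_s S := by
  unfold svb_s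
  rw [Nat.cast_prod, Finset.prod_div_distrib, Finset.prod_const_one]

/-- the sum over `n` as a product -/
private theorem svb_split (w y r D q : ℕ) (ρ : Finset ℕ → ℝ) (hw : 1 ≤ w) (hwy : w ≤ y)
    (hρ : Rho w y D ρ) (hq : 1 ≤ q) (hqw : q ≤ w) (hsq : Squarefree q) :
    ∑ n ∈ (Icc 1 (w ^ (2 * r) * D ^ 2)).filter (fun n => q ∣ n), gS w y r ρ n / n =
      (∑ T ∈ (PW w).powerset.filter (fun T => q.primeFactors ⊆ T ∧ T.card ≤ 2 * r),
        (-1 : ℝ) ^ T.card * svb_s T) * SF w y ρ := by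
  rw [← svb_c_sum, Finset.sum_mul_sum, ← Finset.sum_product']
  have hgn : ∀ n, gS w y r ρ n ≠ 0 → Squarefree n ∧ (∀ p ∈ n.primeFactors, p ≤ y) ∧
      (n.primeFactors.filter (fun p => p ≤ w)).card ≤ 2 * r := by
    intro n h
    by_contra h2
    apply h
    unfold gS
    rw [if_neg h2]
  have hfac : ∀ n : ℕ, (∀ p ∈ n.primeFactors, p ≤ y) →
      n.primeFactors.filter (fun p => p ≤ w) ⊆ PW w ∧
      n.primeFactors.filter (fun p => w < p) ⊆ PY w y := by
    intro n h
    constructor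
    · intro p hp
      rw [mem_filter] at hp
      have := Nat.prime_of_mem_primeFactors hp.1
      exact mem_filter.2 ⟨mem_Icc.2 ⟨this.one_lt.le, hp.2⟩, this⟩
    · intro p hp
      rw [mem_filter] at hp
      have := Nat.prime_of_mem_primeFactors hp.1
      exact mem_filter.2 ⟨mem_Ioc.2 ⟨hp.2, h p hp.1⟩, this⟩
  have hun : ∀ n : ℕ, n.primeFactors.filter (fun p => p ≤ w) ∪
      n.primeFactors.filter (fun p => w < p) = n.primeFactors := by
    intro n
    ext p
    simp only [mem_union, mem_filter]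
    constructor
    · rintro (h | h)
      · exact h.1
      · exact h.1
    · intro h
      rcases le_or_gt p w with h2 | h2
      · exact Or.inl ⟨h, h2⟩
      · exact Or.inr ⟨h, h2⟩
  have hval : ∀ T U : Finset ℕ, T ⊆ PW w → U ⊆ PY w y → T.card ≤ 2 * r →
      gS w y r ρ (∏ p ∈ T ∪ U, p) / ((∏ p ∈ T ∪ U, p : ℕ) : ℝ) =
        (-1 : ℝ) ^ T.card * svb_s T * (svb_c ρ U * svb_s U) := by
    intro T U hT hU hc
    rw [svb_gS w y r hwy ρ T U hT hU hc, div_eq_mul_one_div, svb_inv, svb_s,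
      Finset.prod_union (svb_disj hT hU)]
    change (-1 : ℝ) ^ T.card * svb_c ρ U * (svb_s T * svb_s U) = _
    ring
  apply Finset.sum_bij_ne_zero (fun n _ _ => (n.primeFactors.filter (fun p => p ≤ w),
    n.primeFactors.filter (fun p => w < p)))
  · intro n hn hne
    have h1 : gS w y r ρ n ≠ 0 := by
      intro h
      apply hne
      rw [h, zero_div]
    obtain ⟨h2, h3, h4⟩ := hgn n h1
    obtain ⟨h5, h6⟩ := hfac n h3
    rw [mem_product, mem_filter, mem_powerset, mem_powerset]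
    refine ⟨⟨h5, ?_, h4⟩, h6⟩
    intro p hp
    rw [mem_filter]
    refine ⟨Nat.primeFactors_mono (mem_filter.1 hn).2 h2.ne_zero hp, ?_⟩
    exact (Nat.le_of_mem_primeFactors hp).trans hqw
  · intro n hn hne m hm hme h
    have h1 : gS w y r ρ n ≠ 0 := by
      intro h
      apply hne
      rw [h, zero_div]
    have h1' : gS w y r ρ m ≠ 0 := by
      intro h
      apply hme
      rw [h, zero_div]
    have h2 := (hgn n h1).1
    have h2' := (hgn m h1').1
    rw [Prod.mk.injEq] at h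
    rw [← Nat.prod_primeFactors_of_squarefree h2, ← Nat.prod_primeFactors_of_squarefree h2',
      ← hun n, ← hun m, h.1, h.2]
  · rintro ⟨T, U⟩ hb hne
    rw [mem_product, mem_filter, mem_powerset, mem_powerset] at hb
    obtain ⟨⟨hT, hqT, hc⟩, hU⟩ := hb
    have hp : ∀ p ∈ T ∪ U, p.Prime := by
      intro p h
      rcases mem_union.1 h with h | h
      · exact svb_prime_PW (hT h)
      · exact svb_prime_PY (hU h)
    have hpf : (∏ p ∈ T ∪ U, p).primeFactors = T ∪ U := Nat.primeFactors_prod hp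
    have hv := hval T U hT hU hc
    have hne2 : gS w y r ρ (∏ p ∈ T ∪ U, p) / ((∏ p ∈ T ∪ U, p : ℕ) : ℝ) ≠ 0 := by
      rw [hv]
      exact hne
    have hne3 : gS w y r ρ (∏ p ∈ T ∪ U, p) ≠ 0 := by
      intro h
      apply hne2
      rw [h, zero_div]
    refine ⟨∏ p ∈ T ∪ U, p, ?_, hne2, ?_⟩
    · rw [mem_filter, mem_Icc]
      refine ⟨⟨?_, ?_⟩, ?_⟩
      · exact Nat.one_le_iff_ne_zero.2 (svb_sf hp).ne_zero
      · by_contra h
        exact hne3 (gs_zero w y r D ρ hw hρ _ (not_le.1 h))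
      · rw [← Nat.prod_primeFactors_of_squarefree hsq]
        exact Finset.prod_dvd_prod_of_subset _ _ _ (hqT.trans subset_union_left)
    · rw [hpf, svb_filter_le hT hU, svb_filter_gt hT hU]
  · intro n hn hne
    have h1 : gS w y r ρ n ≠ 0 := by
      intro h
      apply hne
      rw [h, zero_div]
    obtain ⟨h2, h3, h4⟩ := hgn n h1
    obtain ⟨h5, h6⟩ := hfac n h3
    have h7 := hval _ _ h5 h6 h4
    rw [hun n, Nat.prod_primeFactors_of_squarefree h2] at h7
    exact h7

/-- the sum of the reciprocals of the primes -/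
private theorem svb_X (w : ℕ) : ∑ p ∈ PW w, 1 / (p : ℝ) ≤ 1 + Real.log w := by
  have h1 := harmonic_le_one_add_log w
  rw [harmonic_eq_sum_Icc] at h1
  push_cast at h1
  refine le_trans ?_ h1
  unfold PW
  have h2 : ∀ k ∈ Icc 1 w, k ∉ (Icc 1 w).filter Nat.Prime → 0 ≤ ((k : ℝ))⁻¹ := by
    intro k _ _
    positivity
  simp only [one_div]
  exact Finset.sum_le_sum_of_subset_of_nonneg (Finset.filter_subset _ _) h2

/-- the tail -/
private theorem svb_tail (w r k : ℕ) (S : Finset ℕ) (hS : S ⊆ PW w)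
    (hr : 6 * (1 + Real.log w) ≤ r + 1) (hk : k ≤ r) :
    |∑ T ∈ S.powerset.filter (fun T => ¬ T.card + k ≤ 2 * r), (-1 : ℝ) ^ T.card * svb_s T| ≤
      1 / 2 ^ r := by
  have h1 : |∑ T ∈ S.powerset.filter (fun T => ¬ T.card + k ≤ 2 * r), (-1 : ℝ) ^ T.card * svb_s T| ≤
      ∑ T ∈ S.powerset.filter (fun T => ¬ T.card + k ≤ 2 * r), svb_s T * 6 ^ T.card / 6 ^ (r + 1) := by
    refine (Finset.abs_sum_le_sum_abs _ _).trans (Finset.sum_le_sum ?_)
    intro T hT
    rw [mem_filter] at hT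
    rw [abs_mul, abs_pow, abs_neg, abs_one, one_pow, one_mul, abs_of_nonneg (svb_s_nonneg T),
      le_div_iff₀ (by positivity)]
    apply mul_le_mul_of_nonneg_left _ (svb_s_nonneg T)
    apply pow_le_pow_right₀ (by norm_num)
    omega
  have h2 : ∑ T ∈ S.powerset.filter (fun T => ¬ T.card + k ≤ 2 * r),
      svb_s T * 6 ^ T.card / 6 ^ (r + 1) ≤ ∑ T ∈ S.powerset, svb_s T * 6 ^ T.card / 6 ^ (r + 1) := by
    apply Finset.sum_le_sum_of_subset_of_nonneg (Finset.filter_subset _ _)
    intro T _ _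
    have := svb_s_nonneg T
    positivity
  have h3 : ∑ T ∈ S.powerset, svb_s T * 6 ^ T.card / 6 ^ (r + 1) =
      (∏ p ∈ S, (1 + 6 * (1 / (p : ℝ)))) / 6 ^ (r + 1) := by
    rw [Finset.prod_one_add, ← Finset.sum_div]
    congr 1
    apply Finset.sum_congr rfl
    intro T _
    rw [Finset.prod_mul_distrib, Finset.prod_const, mul_comm]
    rfl
  have h4 : ∏ p ∈ S, (1 + 6 * (1 / (p : ℝ))) ≤ Real.exp (r + 1) := by
    refine (Real.prod_one_add_le_exp_sum S (f := fun p : ℕ => 6 * (1 / (p : ℝ)))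
      (fun p => by positivity)).trans ?_
    apply Real.exp_le_exp.2
    rw [← Finset.mul_sum]
    refine le_trans ?_ hr
    apply mul_le_mul_of_nonneg_left _ (by norm_num)
    refine le_trans ?_ (svb_X w)
    apply Finset.sum_le_sum_of_subset_of_nonneg hS
    intro p _ _
    positivity
  have h5 : Real.exp (r + 1) / 6 ^ (r + 1) ≤ 1 / 2 ^ r := by
    have h6 : Real.exp ((r : ℝ) + 1) ≤ 3 ^ (r + 1) := by
      have h7 : Real.exp ((r : ℝ) + 1) = Real.exp 1 ^ (r + 1) := by
        rw [← Real.exp_nat_mul]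
        congr 1
        push_cast
        ring
      rw [h7]
      apply pow_le_pow_left₀ (Real.exp_pos 1).le
      have := Real.exp_one_lt_d9
      linarith only [this]
    rw [div_le_div_iff₀ (by positivity) (by positivity), one_mul]
    calc Real.exp ((r : ℝ) + 1) * 2 ^ r ≤ 3 ^ (r + 1) * 2 ^ r := by
          apply mul_le_mul_of_nonneg_right h6 (by positivity)
      _ ≤ 3 ^ (r + 1) * 2 ^ (r + 1) := by
          apply mul_le_mul_of_nonneg_left _ (by positivity)
          exact pow_le_pow_right₀ (by norm_num) (Nat.le_succ r)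
      _ = 6 ^ (r + 1) := by
          rw [← mul_pow]
          norm_num
  calc _ ≤ _ := h1
    _ ≤ _ := h2
    _ = _ := h3
    _ ≤ Real.exp (r + 1) / 6 ^ (r + 1) := div_le_div_of_nonneg_right h4 (by positivity)
    _ ≤ _ := h5

private theorem svb_neg (T : Finset ℕ) :
    ∏ p ∈ T, (-(1 / (p : ℝ))) = (-1 : ℝ) ^ T.card * svb_s T := by
  unfold svb_s
  rw [← Finset.prod_const, ← Finset.prod_mul_distrib]
  apply Finset.prod_congr rfl
  intro p _
  ring

/-- the complete sum -/
private theorem svb_full (S : Finset ℕ) :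
    ∑ T ∈ S.powerset, (-1 : ℝ) ^ T.card * svb_s T = VV S := by
  unfold VV
  have h : ∀ p ∈ S, (1 : ℝ) - 1 / p = 1 + (-(1 / (p : ℝ))) := fun p _ => sub_eq_add_neg _ _
  rw [Finset.prod_congr rfl h, Finset.prod_one_add]
  apply Finset.sum_congr rfl
  intro T _
  rw [svb_neg]

private theorem svb_first (w r q : ℕ) (hsub : q.primeFactors ⊆ PW w) :
    ∑ T ∈ (PW w).powerset.filter (fun T => q.primeFactors ⊆ T ∧ T.card ≤ 2 * r),
        (-1 : ℝ) ^ T.card * svb_s T =
      (-1 : ℝ) ^ q.primeFactors.card * svb_s q.primeFactors *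
        ∑ T ∈ (PW w \ q.primeFactors).powerset.filter
          (fun T => T.card + q.primeFactors.card ≤ 2 * r), (-1 : ℝ) ^ T.card * svb_s T := by
  rw [Finset.mul_sum]
  refine Finset.sum_nbij' (fun T => T \ q.primeFactors) (fun T => T ∪ q.primeFactors) ?_ ?_ ?_ ?_ ?_
  · intro T hT
    rw [mem_filter, mem_powerset] at hT ⊢
    refine ⟨sdiff_subset_sdiff hT.1 (le_refl _), ?_⟩
    have := card_sdiff_add_card_eq_card hT.2.1
    omega
  · intro T hT
    rw [mem_filter, mem_powerset] at hT ⊢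
    refine ⟨union_subset (hT.1.trans sdiff_subset) hsub, subset_union_right, ?_⟩
    exact (card_union_le _ _).trans hT.2
  · intro T hT
    rw [mem_filter, mem_powerset] at hT
    exact sdiff_union_of_subset hT.2.1
  · intro T hT
    rw [mem_filter, mem_powerset] at hT
    rw [union_sdiff_right]
    apply sdiff_eq_self_of_disjoint
    exact disjoint_of_subset_left hT.1 sdiff_disjoint
  · intro T hT
    rw [mem_filter, mem_powerset] at hT
    have h1 := card_sdiff_add_card_eq_card hT.2.1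
    have h2 : svb_s T = svb_s (T \ q.primeFactors) * svb_s q.primeFactors := by
      unfold svb_s
      exact (Finset.prod_sdiff hT.2.1).symm
    rw [h2, ← h1, pow_add]
    ring

private theorem svb_phi (w q : ℕ) (hq : 1 ≤ q) (hsq : Squarefree q) (hsub : q.primeFactors ⊆ PW w) :
    (-1 : ℝ) ^ q.primeFactors.card * svb_s q.primeFactors * VV (PW w \ q.primeFactors) =
      VV (PW w) * (ArithmeticFunction.moebius q : ℝ) / (q.totient : ℝ) := by
  have h1 : (ArithmeticFunction.moebius q : ℝ) = (-1 : ℝ) ^ q.primeFactors.card := by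
    rw [ArithmeticFunction.moebius_apply_of_squarefree hsq,
      ← (ArithmeticFunction.cardDistinctFactors_eq_cardFactors_iff_squarefree hsq.ne_zero).2 hsq,
      ArithmeticFunction.cardDistinctFactors_apply]
    push_cast
    congr 1
  have h2 : (q.totient : ℝ) = q * VV q.primeFactors := by
    have h3 := Nat.totient_eq_mul_prod_factors q
    have h4 : ((q.totient : ℚ) : ℝ) = ((q * ∏ p ∈ q.primeFactors, (1 - (p : ℚ)⁻¹) : ℚ) : ℝ) := by
      rw [h3]
    push_cast at h4
    rw [h4]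
    unfold VV
    congr 1
    apply Finset.prod_congr rfl
    intro p _
    rw [one_div]
  have h5 : VV (PW w) = VV (PW w \ q.primeFactors) * VV q.primeFactors := by
    unfold VV
    exact (Finset.prod_sdiff hsub).symm
  have h6 : svb_s q.primeFactors = 1 / (q : ℝ) := by
    rw [← svb_inv, Nat.prod_primeFactors_of_squarefree hsq]
  have h7 : 0 < VV q.primeFactors := by
    unfold VV
    apply Finset.prod_pos
    intro p hp
    have := (Nat.prime_of_mem_primeFactors hp).one_lt
    rw [sub_pos, div_lt_one (by positivity)]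
    exact_mod_cast this
  have h8 : (0 : ℝ) < q := by exact_mod_cast hq
  rw [h1, h2, h5, h6]
  field_simp

/-- `2^(-r)` is negligible; hypothesis `SF ≤ 1` holds for Selberg's weights -/
theorem gs_sing (w y r D q : ℕ) (ρ : Finset ℕ → ℝ) (hw : 2 ≤ w) (hwy : w ≤ y) (hρ : Rho w y D ρ)
    (hr : 6 * (1 + Real.log w) ≤ r + 1) (h0 : 0 ≤ SF w y ρ) (h1 : SF w y ρ ≤ 1) (hq : 1 ≤ q) (hqw : q ≤ w) :
    |∑ n ∈ (Icc 1 (w ^ (2 * r) * D ^ 2)).filter (fun n => q ∣ n), gS w y r ρ n / n
      - VV (PW w) * SF w y ρ * (ArithmeticFunction.moebius q : ℝ) / (q.totient : ℝ)| ≤ 1 / 2 ^ r := by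
  by_cases hsq : Squarefree q
  · have hsub : q.primeFactors ⊆ PW w := by
      intro p hp
      have := Nat.prime_of_mem_primeFactors hp
      exact mem_filter.2 ⟨mem_Icc.2 ⟨this.one_lt.le, (Nat.le_of_mem_primeFactors hp).trans hqw⟩,
        this⟩
    have hk : q.primeFactors.card ≤ r := by
      have h1 : 2 ^ q.primeFactors.card ≤ q := by
        calc 2 ^ q.primeFactors.card ≤ ∏ p ∈ q.primeFactors, p :=
              Finset.pow_card_le_prod _ _ _ fun p hp => (Nat.prime_of_mem_primeFactors hp).two_le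
          _ = q := Nat.prod_primeFactors_of_squarefree hsq
      have h2 : (q.primeFactors.card : ℝ) * Real.log 2 ≤ Real.log w := by
        rw [← Real.log_pow]
        apply Real.log_le_log (by positivity)
        exact_mod_cast h1.trans hqw
      have h3 := Real.log_two_gt_d9
      have h4 : (0 : ℝ) ≤ q.primeFactors.card := Nat.cast_nonneg _
      have h5 : (q.primeFactors.card : ℝ) ≤ r := by nlinarith only [hr, h2, h3]
      exact_mod_cast h5
    have htail := svb_tail w r q.primeFactors.card (PW w \ q.primeFactors) sdiff_subset hr hk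
    have hsplit := Finset.sum_filter_add_sum_filter_not (PW w \ q.primeFactors).powerset
      (fun T => T.card + q.primeFactors.card ≤ 2 * r) (fun T => (-1 : ℝ) ^ T.card * svb_s T)
    rw [svb_full] at hsplit
    rw [svb_split w y r D q ρ (by omega) hwy hρ hq hqw hsq, svb_first w r q hsub]
    have hphi := svb_phi w q hq hsq hsub
    set A := ∑ T ∈ (PW w \ q.primeFactors).powerset.filter
      (fun T => T.card + q.primeFactors.card ≤ 2 * r), (-1 : ℝ) ^ T.card * svb_s T with hA
    set E := ∑ T ∈ (PW w \ q.primeFactors).powerset.filter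
      (fun T => ¬ T.card + q.primeFactors.card ≤ 2 * r), (-1 : ℝ) ^ T.card * svb_s T with hE
    have hk1 : (-1 : ℝ) ^ q.primeFactors.card * svb_s q.primeFactors * A * SF w y ρ -
        VV (PW w) * SF w y ρ * (ArithmeticFunction.moebius q : ℝ) / (q.totient : ℝ) =
        -((-1 : ℝ) ^ q.primeFactors.card * svb_s q.primeFactors * SF w y ρ * E) := by
      have h2 : VV (PW w) * SF w y ρ * (ArithmeticFunction.moebius q : ℝ) / (q.totient : ℝ) =
          SF w y ρ * (VV (PW w) * (ArithmeticFunction.moebius q : ℝ) / (q.totient : ℝ)) := by ring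
      rw [h2, ← hphi, ← hsplit]
      ring
    rw [hk1, abs_neg, abs_mul, abs_mul, abs_mul, abs_pow, abs_neg, abs_one, one_pow, one_mul,
      abs_of_nonneg (svb_s_nonneg _), abs_of_nonneg h0]
    have h3 : svb_s q.primeFactors ≤ 1 := by
      rw [← svb_inv, Nat.prod_primeFactors_of_squarefree hsq]
      have : (1 : ℝ) ≤ q := by exact_mod_cast hq
      rw [div_le_one (by linarith only [this])]
      exact this
    have h4 : svb_s q.primeFactors * SF w y ρ ≤ 1 := mul_le_one₀ h3 h0 h1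
    calc svb_s q.primeFactors * SF w y ρ * |E| ≤ 1 * |E| :=
          mul_le_mul_of_nonneg_right h4 (abs_nonneg _)
      _ = |E| := one_mul _
      _ ≤ _ := htail
  · have h2 : ∀ n ∈ (Icc 1 (w ^ (2 * r) * D ^ 2)).filter (fun n => q ∣ n),
        gS w y r ρ n / n = 0 := by
      intro n hn
      have h3 : ¬ Squarefree n := fun h => hsq (h.squarefree_of_dvd (mem_filter.1 hn).2)
      unfold gS
      rw [if_neg (fun h => h3 h.1), zero_div]
    rw [Finset.sum_eq_zero h2, ArithmeticFunction.moebius_eq_zero_of_not_squarefree hsq]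
    simp

end Pool.Agent.H78.PD.SL
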