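import Pool.Agent.H94.PG.H78.PD.Rgh
import Pool.Agent.H94.PG.M17
import Pool.Agent.H94.PG.M27
import Pool.Agent.H94.PG.M28

/-!
# PD, T4: one character

`rgh`, `t3` (`c1 = 11 c/20`).  `v χ = ∑_{n ∈ RR} |vv n χ - vv n0 χ|²`; `∑_U ww χ v χ ≤ C wout M1/L ≤ C' wout S1`.  `e = (C' wout)^(1/2)`; `{χ ∈ U : v χ > e S1}` has weight `≤ e`.
Two different `χ1, χ2` with `v ≤ e S1`: `ψ = χ1 χ2⁻¹ ≠ 1`, `ψ(n) = vv n χ1 conj(vv n χ2)` for `n` prime to `m`, `∑_{RR} |vv n χi - vv n0 χi| ≤ (#RR e S1)^(1/2) ≤ √e S1` (`#RR ≤ S1` as `S ≥ 1`), so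
`|∑_{RR} ψ(n) - #RR vv n0 χ1 conj(vv n0 χ2)| ≤ 2√e S1`, `|∑_{n ≤ M1} S(n) ψ(n)| ≥ |∑_{RR} ψ| - (S1 - #RR) ≥ 2 #RR - S1 - 2√e S1 ≥ (1/10 - 2√e) S1 > 0`, and
`∑_{n ≤ M1} S ψ = ∑_{d ≤ Q} g(d) ψ(d) ∑_{n ≤ M1/d} ψ(n)`, so `|..| ≤ m^(1/500) KK m` (`pv`, `PG/TPV.lean`) `≤ m^(1/500 + 1/2 + 1/10000) < c M1/(40 L)`: contradiction.
So at most one such `χ`; the rest has weight `≤ wout + e < 1/2`, so there is exactly one, `χ`, `ww χ > 1/2`; `ww χ⁻¹ = ww χ` (`ww_inv`), so `χ⁻¹ = χ` (else total weight `> 1`), `χ² = 1`; `ww_par`.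
-/

set_option autoImplicit false

namespace Pool.Agent.H78.PD

open Finset
open Pool.Agent.H34PG (lam lam_val lam_mul lam_prime)
open Pool.Agent.H11.LQ Pool.Agent.H78.PG

theorem t4 : ∃ ε0 C : ℝ, 0 < ε0 ∧ 0 < C ∧ ∃ m0 : ℕ, ∀ (m : ℕ) [NeZero m], m0 ≤ m →
    ∀ η : ℤ, (η = 1 ∨ η = -1) → ∀ U : Finset (DirichletCharacter ℂ m),
    (U.card : ℝ) ≤ (m : ℝ) ^ (1 / 2000 : ℝ) → wout m η U ≤ ε0 →
    ∃ χ ∈ U, χ ^ 2 = 1 ∧ χ (-1) = (η : ℂ) ∧ 1 / 2 ≤ ww m η χ ∧
      wout m η {χ} ≤ C * Real.sqrt (wout m η U) := by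
  classical
  obtain ⟨κ, c, C, hκ, hκ1, hc, hC, mr, hr⟩ := rgh
  obtain ⟨C3, hC3, m3, h3⟩ := t3 κ (11 / 20 * c) C hκ hκ1 (by positivity) hC
  obtain ⟨mg, hg⟩ := t4_grow c hc
  set C' : ℝ := C3 / c with hC'
  have hC'0 : 0 < C' := by positivity
  refine ⟨min (1 / 4) (1 / (1600 ^ 2 * C')), 1 + Real.sqrt C', by positivity, by positivity,
    max (max mr m3) (max mg 3), fun m _ hm η hη U hU hw => ?_⟩
  simp only [max_le_iff] at hm
  obtain ⟨⟨hmr, hm3⟩, hmg, hm3'⟩ := hm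
  obtain ⟨hRC, S, g, Q, S1, hQ, hSg, hgs, hS1, hS1l, hS1u, hSp, hRR⟩ := hr m hmr
  have hm3R : (3 : ℝ) ≤ m := by exact_mod_cast hm3'
  have hlog : 0 < Real.log m := Real.log_pos (by linarith only [hκ, hκ1, hm3R])
  have hRC' : RC κ C m := hRC
  have hcard : 11 / 20 * c * M1 m / Real.log m ≤ ((RR κ m).card : ℝ) := by
    have : 11 / 20 * c * M1 m / Real.log m = 11 / 20 * (c * M1 m / Real.log m) := by ring
    rw [this]
    linarith only [hS1l, hRR]
  obtain ⟨n0, hn01, hn0, hT⟩ := h3 m hm3 hRC' hcard η hη U hU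
  have hw0 := wout_nonneg m η U
  set w := wout m η U with hwdef
  have hw1 : w ≤ 1 / 4 := hw.trans (min_le_left _ _)
  have hw2 : w ≤ 1 / (1600 ^ 2 * C') := hw.trans (min_le_right _ _)
  -- `S1` is positive
  have hM1 : 0 < c * M1 m / (20 * Real.log m) := by
    refine lt_of_le_of_lt ?_ (hg m hmg)
    refine mul_nonneg (by positivity) ?_
    unfold KK
    have : 0 ≤ 1 + Real.log m := by linarith only [hκ, hκ1, hlog]
    positivity
  have hM1' : c * M1 m / (20 * Real.log m) = c * M1 m / Real.log m / 20 := by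
    field_simp
  have hS10 : 0 < S1 := by
    rw [hM1'] at hM1
    linarith only [hS1l, hM1]
  -- the numbers `v χ`
  set v : DirichletCharacter ℂ m → ℝ :=
    fun χ => ∑ n ∈ RR κ m, ‖vv m χ n - vv m χ n0‖ ^ 2 with hv
  have hv0 : ∀ χ, 0 ≤ v χ := fun χ => sum_nonneg fun _ _ => sq_nonneg _
  have hsum : ∑ χ ∈ U, ww m η χ * v χ ≤ C' * w * S1 := by
    have e1 : ∑ χ ∈ U, ww m η χ * v χ
        = ∑ n ∈ RR κ m, Nrm m η U (fun χ => vv m χ n - vv m χ n0) := by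
      unfold Nrm
      rw [sum_comm]
      refine sum_congr rfl fun χ _ => ?_
      rw [hv, mul_sum]
    rw [e1]
    refine hT.trans ?_
    have e2 : C3 * w * M1 m / Real.log m = C' * w * (c * M1 m / Real.log m) := by
      rw [hC']
      field_simp
    rw [e2]
    exact mul_le_mul_of_nonneg_left hS1l (by positivity)
  set e : ℝ := Real.sqrt (C' * w) with he
  have he0 : 0 ≤ e := Real.sqrt_nonneg _
  have hee : e * e = C' * w := Real.mul_self_sqrt (by positivity)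
  have he1 : e ≤ 1 / 1600 := by
    have h5 : C' * w ≤ (1 / 1600) ^ 2 := by
      calc C' * w ≤ C' * (1 / (1600 ^ 2 * C')) := mul_le_mul_of_nonneg_left hw2 hC'0.le
        _ = (1 / 1600) ^ 2 := by
          field_simp
    rw [he]
    exact Real.sqrt_le_left (by norm_num) |>.mpr h5
  -- the weight of the characters with large `v`
  have hbad : ∑ χ ∈ U.filter (fun χ => e * S1 < v χ), ww m η χ ≤ e := by
    have h5 : (∑ χ ∈ U.filter (fun χ => e * S1 < v χ), ww m η χ) * (e * S1) ≤ e * (e * S1) := by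
      calc _ = ∑ χ ∈ U.filter (fun χ => e * S1 < v χ), ww m η χ * (e * S1) := by rw [sum_mul]
        _ ≤ ∑ χ ∈ U.filter (fun χ => e * S1 < v χ), ww m η χ * v χ :=
          sum_le_sum fun χ hχ =>
            mul_le_mul_of_nonneg_left (mem_filter.mp hχ).2.le (ww_nonneg _ _ _)
        _ ≤ ∑ χ ∈ U, ww m η χ * v χ :=
          sum_le_sum_of_subset_of_nonneg (filter_subset _ _)
            fun χ _ _ => mul_nonneg (ww_nonneg _ _ _) (hv0 χ)
        _ ≤ C' * w * S1 := hsum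
        _ = e * (e * S1) := by rw [← hee]; ring
    rcases eq_or_lt_of_le he0 with h6 | h6
    · -- `e = 0`
      have h7 : ∑ χ ∈ U, ww m η χ * v χ ≤ 0 := by
        refine hsum.trans (le_of_eq ?_)
        rw [← hee, ← h6]
        ring
      have h8 : ∀ χ ∈ U, ww m η χ * v χ = 0 := by
        have h9 : ∑ χ ∈ U, ww m η χ * v χ = 0 :=
          le_antisymm h7 (sum_nonneg fun χ _ => mul_nonneg (ww_nonneg _ _ _) (hv0 χ))
        exact (sum_eq_zero_iff_of_nonneg fun χ _ => mul_nonneg (ww_nonneg _ _ _) (hv0 χ)).mp h9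
      rw [← h6]
      refine le_of_eq (sum_eq_zero fun χ hχ => ?_)
      rw [mem_filter, zero_mul] at hχ
      rcases mul_eq_zero.mp (h8 χ hχ.1) with h | h
      · exact h
      · exact absurd h hχ.2.ne'
    · exact le_of_mul_le_mul_right h5 (mul_pos h6 hS10)
  -- two characters with small `v` are equal
  have huniq : ∀ χ1 χ2 : DirichletCharacter ℂ m, v χ1 ≤ e * S1 → v χ2 ≤ e * S1 → χ1 = χ2 := by
    intro χ1 χ2 h1 h2
    by_contra hne
    have hψ : χ1 * χ2⁻¹ ≠ 1 := fun h => hne (mul_inv_eq_one.mp h)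
    have hlow := t4_low m χ1 χ2 (RR κ m) (Icc 1 (M1 m)) (filter_subset _ _)
      (fun n hn => (mem_RR.mp hn).2.2.2.1) S S1 e he0
      (fun n hn => (hSp n (mem_Icc.mp hn).1).1)
      (fun n hn => (hSp n (mem_RR.mp hn).1).2 (mem_RR.mp hn).2.2.2.2.1) hS1 n0 hn0 h1 h2
    have hup := t4_up m (χ1 * χ2⁻¹) hψ (M1 m) Q S g hSg
    have hKK : 0 ≤ KK m := by
      unfold KK
      have : 0 ≤ 1 + Real.log m := by linarith only [hκ, hκ1, hlog]
      positivity
    have hup2 : (∑ d ∈ Icc 1 Q, |g d|) * KK m < c * M1 m / Real.log m / 20 := by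
      rw [← hM1']
      exact lt_of_le_of_lt (mul_le_mul_of_nonneg_right hgs hKK) (hg m hmg)
    have hse : Real.sqrt e ≤ 1 / 40 := by
      refine (Real.sqrt_le_left (by norm_num)).mpr ?_
      refine he1.trans (by norm_num)
    have h6 : Real.sqrt e * S1 ≤ 1 / 40 * S1 := mul_le_mul_of_nonneg_right hse hS10.le
    linarith only [hS1l, hRR, hlow, hup, hup2, h6]
  -- the good characters
  set G := U.filter (fun χ => ¬ e * S1 < v χ) with hG
  have hsplit : ∑ χ ∈ U.filter (fun χ => e * S1 < v χ), ww m η χ + ∑ χ ∈ G, ww m η χ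
      = ∑ χ ∈ U, ww m η χ := sum_filter_add_sum_filter_not _ _ _
  have hm2 : 2 ≤ m := by omega
  have hUw := wout_eq m hm2 η hη U
  have hGw : 1 - w - e ≤ ∑ χ ∈ G, ww m η χ := by
    rw [← hwdef] at hUw
    linarith
  have hGne : G.Nonempty := by
    rw [nonempty_iff_ne_empty]
    intro h
    rw [h, sum_empty] at hGw
    linarith only [hκ, hκ1, hw1, he1, hGw]
  obtain ⟨χ, hχG⟩ := hGne
  have hχU : χ ∈ U := (mem_filter.mp hχG).1
  have hχv : v χ ≤ e * S1 := not_lt.mp (mem_filter.mp hχG).2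
  have hGs : G = {χ} := by
    ext χ'
    rw [mem_singleton]
    constructor
    · intro h
      exact huniq χ' χ (not_lt.mp (mem_filter.mp h).2) hχv
    · rintro rfl
      exact hχG
  rw [hGs, sum_singleton] at hGw
  have hhalf : 1 / 2 < ww m η χ := by linarith
  have hinv : χ⁻¹ = χ := by
    by_contra hne
    have h5 : ∑ χ' ∈ ({χ⁻¹, χ} : Finset (DirichletCharacter ℂ m)), ww m η χ'
        ≤ ∑ χ' : DirichletCharacter ℂ m, ww m η χ' :=
      sum_le_sum_of_subset_of_nonneg (subset_univ _) fun _ _ _ => ww_nonneg _ _ _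
    rw [sum_pair hne, ww_inv, ww_sum m hm2 η hη] at h5
    linarith
  refine ⟨χ, hχU, ?_, ww_par m hm3' hη χ (by linarith), hhalf.le, ?_⟩
  · rw [sq]
    nth_rewrite 1 [← hinv]
    exact inv_mul_cancel χ
  · rw [wout_eq m hm2 η hη, sum_singleton]
    have h5 : w ≤ Real.sqrt w := by
      refine Real.le_sqrt_of_sq_le ?_
      nlinarith only [hκ1, hκ, hw0, hw1]
    have h6 : e = Real.sqrt C' * Real.sqrt w := by
      rw [he, Real.sqrt_mul hC'0.le]
    have h7 : (1 + Real.sqrt C') * Real.sqrt w = Real.sqrt w + e := by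
      rw [h6]
      ring
    rw [h7]
    linarith

end Pool.Agent.H78.PD
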