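import Pool.Agent.H94.PG.H78.PD.Pri

/-!
# PD, T5c: the other two sums

Sums over `q ∈ QQ`, `s ∈ SS`, `h ∈ HH q` (`√q < h ≤ A√q`, i.e. `h²/A² ≤ q < h²`), `p ∈ PP s h` (`s h < p ≤ A s h`), weight `1/(q s h p)`; `L = log m`; by `pri_up` (`C` depends on `A, δ`):
given `h`: `∑_q 1/q ≤ C/L` (`X = h²/(2A²)`, `R = 2A²`); given `q`: `∑_h 1/h ≤ C/L`; given `s, h`: `∑_p 1/p ≤ C/L`; given `p, h`: `∑_s 1/s ≤ C/L` (`p/(Ah) ≤ s < p/h`, and `p/h > m^(δ/4)` if there is such an `s ∈ SS`).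
* `d(p h)`: sum over `q`, then `s`; `(p, h) ↦ p h` is injective (`h < p`), `p h ≤ A^3 s q`;
* `d(s q)`: sum over `p`, then `h`; `(s, q) ↦ s q` is injective (`s < q`).
All these numbers are `zN (δ/4) m`-rough (all primes `> m^(δ/4)`), prime to `m`, `≤ A³ m^(δ/2 + 49/100) ≤ m^(399/800)`.
-/

set_option autoImplicit false

namespace Pool.Agent.H78.PD

open Finset
open Pool.Agent.H34PG (lam lam_val lam_mul lam_prime)
open Pool.Agent.H11.LQ Pool.Agent.H78.PG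

private theorem t5c_swap {α β : Type*} (S : Finset α) (T : α → Finset β) (U : Finset β)
    (V : β → Finset α) (f : α → β → ℝ) (hf : ∀ a b, 0 ≤ f a b)
    (h : ∀ a ∈ S, ∀ b ∈ T a, b ∈ U ∧ a ∈ V b) :
    ∑ a ∈ S, ∑ b ∈ T a, f a b ≤ ∑ b ∈ U, ∑ a ∈ V b, f a b := by
  classical
  calc ∑ a ∈ S, ∑ b ∈ T a, f a b ≤ ∑ a ∈ S, ∑ b ∈ U, (if a ∈ V b then f a b else 0) := by
        refine sum_le_sum fun a ha => ?_
        rw [← sum_filter]
        refine sum_le_sum_of_subset_of_nonneg (fun b hb => ?_) (fun b _ _ => hf a b)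
        exact mem_filter.2 (h a ha b hb)
    _ = ∑ b ∈ U, ∑ a ∈ S, (if a ∈ V b then f a b else 0) := sum_comm
    _ ≤ ∑ b ∈ U, ∑ a ∈ V b, f a b := by
        refine sum_le_sum fun b _ => ?_
        rw [← sum_filter]
        exact sum_le_sum_of_subset_of_nonneg (fun a ha => (mem_filter.1 ha).2)
          (fun a _ _ => hf a b)

/-- the primes `h` -/
private noncomputable def t5c_HB (δ A : ℝ) (m : ℕ) : Finset ℕ :=
  PI m ((m : ℝ) ^ (δ / 2)) (A * (m : ℝ) ^ (49 / 200 : ℝ))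

/-- the primes `p` -/
private noncomputable def t5c_PB (δ A : ℝ) (m : ℕ) : Finset ℕ :=
  PI m ((m : ℝ) ^ (δ / 4)) (A * ((m : ℝ) ^ (δ / 2) * (A * (m : ℝ) ^ (49 / 200 : ℝ))))

private theorem t5c_mem_HB {δ A : ℝ} {m h : ℕ} (hA : 2 ≤ A) :
    h ∈ t5c_HB δ A m ↔ h.Prime ∧ ¬ h ∣ m ∧ (m : ℝ) ^ (δ / 2) < (h : ℝ) ∧
      (h : ℝ) ≤ A * (m : ℝ) ^ (49 / 200 : ℝ) := by
  unfold t5c_HB
  exact mem_PI (by positivity)

private theorem t5c_mem_PB {δ A : ℝ} {m h : ℕ} (hA : 2 ≤ A) :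
    h ∈ t5c_PB δ A m ↔ h.Prime ∧ ¬ h ∣ m ∧ (m : ℝ) ^ (δ / 4) < (h : ℝ) ∧
      (h : ℝ) ≤ A * ((m : ℝ) ^ (δ / 2) * (A * (m : ℝ) ^ (49 / 200 : ℝ))) := by
  unfold t5c_PB
  exact mem_PI (by positivity)

private theorem t5c_mem_SS {δ : ℝ} {m s : ℕ} :
    s ∈ SS δ m ↔ s.Prime ∧ ¬ s ∣ m ∧ (m : ℝ) ^ (δ / 4) < (s : ℝ) ∧
      (s : ℝ) ≤ (m : ℝ) ^ (δ / 2) := by
  unfold SS
  exact mem_PI (by positivity)

private theorem t5c_mem_QQ {δ : ℝ} {m q : ℕ} :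
    q ∈ QQ δ m ↔ q.Prime ∧ ¬ q ∣ m ∧ (m : ℝ) ^ δ < (q : ℝ) ∧
      (q : ℝ) ≤ (m : ℝ) ^ (49 / 100 : ℝ) := by
  unfold QQ
  exact mem_PI (by positivity)

private theorem t5c_mem_HH {A : ℝ} {m q h : ℕ} (hA : 2 ≤ A) :
    h ∈ HH m A q ↔ h.Prime ∧ ¬ h ∣ m ∧ Real.sqrt q < (h : ℝ) ∧
      (h : ℝ) ≤ A * Real.sqrt q := by
  unfold HH
  exact mem_PI (by positivity)

private theorem t5c_mem_PP {A : ℝ} {m s h p : ℕ} (hA : 2 ≤ A) :
    p ∈ PP m A s h ↔ p.Prime ∧ ¬ p ∣ m ∧ (s : ℝ) * h < (p : ℝ) ∧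
      (p : ℝ) ≤ A * ((s : ℝ) * h) := by
  unfold PP
  exact mem_PI (by positivity)

private theorem t5c_q (δ A : ℝ) (hδ : 0 < δ) (hA : 2 ≤ A) :
    ∃ C : ℝ, 0 < C ∧ ∃ m0 : ℕ, ∀ m : ℕ, m0 ≤ m → ∀ g : ℕ → ℝ, (∀ n, 0 ≤ g n) →
    ∑ q ∈ QQ δ m, ∑ h ∈ HH m A q, g h / q ≤ C / Real.log m * ∑ h ∈ t5c_HB δ A m, g h := by
  obtain ⟨C, hC, m1, h1⟩ := pri_up (δ / 2) (by positivity)
  obtain ⟨m2, h2⟩ := grow (2 * A ^ 2) 0 (δ / 2) (by positivity)
  have hA1 : 1 ≤ 2 * A ^ 2 := by nlinarith only [hA]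
  have hA0 : 0 < 2 * A ^ 2 := by linarith
  have hlog : 0 ≤ Real.log (2 * A ^ 2) := Real.log_nonneg hA1
  refine ⟨C * (1 + Real.log (2 * A ^ 2)), by positivity, max m1 (max m2 1), fun m hm g hg => ?_⟩
  simp only [max_le_iff] at hm
  obtain ⟨hm1, hm2, hm3⟩ := hm
  have hmR : (1 : ℝ) ≤ m := by exact_mod_cast hm3
  have hm0 : (0 : ℝ) < m := by linarith only [hmR]
  have e2 := h2 m hm2
  rw [pow_zero, mul_one] at e2
  have sq : ((m : ℝ) ^ (δ / 2)) ^ 2 = (m : ℝ) ^ δ := by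
    rw [← Real.rpow_natCast, ← Real.rpow_mul hm0.le]
    congr 1
    push_cast
    ring
  have sqt : Real.sqrt ((m : ℝ) ^ δ) = (m : ℝ) ^ (δ / 2) := by
    rw [← sq, Real.sqrt_sq (by positivity)]
  have sqt2 : Real.sqrt ((m : ℝ) ^ (49 / 100 : ℝ)) = (m : ℝ) ^ (49 / 200 : ℝ) := by
    have : ((m : ℝ) ^ (49 / 200 : ℝ)) ^ 2 = (m : ℝ) ^ (49 / 100 : ℝ) := by
      rw [← Real.rpow_natCast, ← Real.rpow_mul hm0.le]
      congr 1
      norm_num
    rw [← this, Real.sqrt_sq (by positivity)]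
  refine (t5c_swap (QQ δ m) (fun q => HH m A q) (t5c_HB δ A m)
    (fun h => PI m ((h : ℝ) ^ 2 / (2 * A ^ 2)) (2 * A ^ 2 * ((h : ℝ) ^ 2 / (2 * A ^ 2))))
    (fun q h => g h / q) (fun q h => by have := hg h; positivity) ?_).trans ?_
  · intro q hq h hh
    rw [t5c_mem_QQ] at hq
    rw [t5c_mem_HH hA] at hh
    obtain ⟨q1, q2, q3, q4⟩ := hq
    obtain ⟨k1, k2, k3, k4⟩ := hh
    have l1 : (m : ℝ) ^ (δ / 2) ≤ Real.sqrt q := by
      rw [← sqt]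
      exact Real.sqrt_le_sqrt q3.le
    have l2 : Real.sqrt q ≤ (m : ℝ) ^ (49 / 200 : ℝ) := by
      rw [← sqt2]
      exact Real.sqrt_le_sqrt q4
    have hq0 : (0 : ℝ) < q := by exact_mod_cast q1.pos
    have hs0 : 0 < Real.sqrt q := Real.sqrt_pos.2 hq0
    have hsq : Real.sqrt q ^ 2 = q := Real.sq_sqrt hq0.le
    refine ⟨(t5c_mem_HB hA).2 ⟨k1, k2, l1.trans_lt k3, k4.trans (by gcongr)⟩, ?_⟩
    rw [mem_PI (by positivity)]
    refine ⟨q1, q2, ?_, ?_⟩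
    · rw [div_lt_iff₀ hA0]
      have : (h : ℝ) ^ 2 ≤ (A * Real.sqrt q) ^ 2 := by gcongr
      rw [mul_pow, hsq] at this
      have h3 : 0 < A ^ 2 * q := by positivity
      linarith only [this, h3]
    · rw [mul_div_cancel₀ _ hA0.ne']
      have : Real.sqrt q ^ 2 ≤ (h : ℝ) ^ 2 := by gcongr
      linarith only [hsq, this]
  · rw [mul_sum]
    refine sum_le_sum fun h hh => ?_
    rw [t5c_mem_HB hA] at hh
    obtain ⟨k1, k2, k3, k4⟩ := hh
    have hX : (m : ℝ) ^ (δ / 2) ≤ (h : ℝ) ^ 2 / (2 * A ^ 2) := by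
      rw [le_div_iff₀ hA0]
      have u1 : ((m : ℝ) ^ (δ / 2)) ^ 2 ≤ (h : ℝ) ^ 2 := by gcongr
      have u0 : 0 < (m : ℝ) ^ (δ / 2) := by positivity
      nlinarith only [k3, e2]
    have e := h1 m hm1 _ (2 * A ^ 2) hX hA1
    have hgh := hg h
    calc ∑ q ∈ PI m ((h : ℝ) ^ 2 / (2 * A ^ 2)) (2 * A ^ 2 * ((h : ℝ) ^ 2 / (2 * A ^ 2))), g h / q
        = g h * ∑ q ∈ PI m ((h : ℝ) ^ 2 / (2 * A ^ 2))
            (2 * A ^ 2 * ((h : ℝ) ^ 2 / (2 * A ^ 2))), 1 / (q : ℝ) := by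
          rw [mul_sum]
          exact sum_congr rfl fun q _ => by ring
      _ ≤ g h * (C * (1 + Real.log (2 * A ^ 2)) / Real.log m) := by gcongr
      _ = _ := by ring

private theorem t5c_z {κ : ℝ} {m n : ℕ} (h : (m : ℝ) ^ κ < (n : ℝ)) : zN κ m < n := by
  unfold zN
  exact (Nat.floor_lt (by positivity)).2 h

/-- products of two primes `a < b` -/
private theorem t5c_inj (κ : ℝ) (m : ℕ) (d : ℕ → ℝ) (hd : ∀ n, 0 ≤ d n) (P : Finset (ℕ × ℕ))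
    (hP : ∀ x ∈ P, x.1.Prime ∧ x.2.Prime ∧ ¬ x.1 ∣ m ∧ ¬ x.2 ∣ m ∧ x.1 < x.2 ∧
      (m : ℝ) ^ κ < (x.1 : ℝ) ∧ (x.1 : ℝ) * x.2 ≤ (m : ℝ) ^ (399 / 800 : ℝ)) :
    ∑ x ∈ P, d (x.1 * x.2) / ((x.1 : ℝ) * x.2) ≤ ∑ n ∈ BR κ m, d n / (n : ℝ) := by
  classical
  have inj : Set.InjOn (fun x : ℕ × ℕ => x.1 * x.2) (P : Finset (ℕ × ℕ)) := by
    rintro ⟨a, b⟩ hx ⟨a', b'⟩ hx' e
    obtain ⟨p1, p2, _, _, p5, _, _⟩ := hP _ (mem_coe.1 hx)
    obtain ⟨q1, q2, _, _, q5, _, _⟩ := hP _ (mem_coe.1 hx')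
    simp only at e p1 p2 p5 q1 q2 q5
    have h1 : a ∣ a' * b' := e ▸ dvd_mul_right a b
    have haa : a = a' := by
      rcases (p1.dvd_mul).1 h1 with h3 | h3
      · exact (Nat.prime_dvd_prime_iff_eq p1 q1).1 h3
      · have h4 : a = b' := (Nat.prime_dvd_prime_iff_eq p1 q2).1 h3
        subst h4
        have h5 : b = a' := by
          rw [mul_comm a' a] at e
          exact Nat.eq_of_mul_eq_mul_left p1.pos e
        omega
    subst haa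
    have : b = b' := Nat.eq_of_mul_eq_mul_left p1.pos e
    rw [this]
  calc ∑ x ∈ P, d (x.1 * x.2) / ((x.1 : ℝ) * x.2)
      = ∑ n ∈ P.image (fun x : ℕ × ℕ => x.1 * x.2), d n / (n : ℝ) := by
        rw [sum_image inj]
        exact sum_congr rfl fun x _ => by push_cast; rfl
    _ ≤ _ := by
        refine sum_le_sum_of_subset_of_nonneg ?_ (fun n _ _ => by
          have := hd n; positivity)
        intro n hn
        obtain ⟨⟨a, b⟩, hx, rfl⟩ := mem_image.1 hn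
        obtain ⟨p1, p2, p3, p4, p5, p6, p7⟩ := hP _ hx
        simp only at p1 p2 p3 p4 p5 p6 p7 ⊢
        rw [mem_BR]
        refine ⟨Nat.mul_pos p1.pos p2.pos, ?_, ?_, ?_⟩
        · push_cast
          exact p7
        · exact Nat.Coprime.mul_left ((Nat.Prime.coprime_iff_not_dvd p1).2 p3)
            ((Nat.Prime.coprime_iff_not_dvd p2).2 p4)
        · intro r hr hrd
          rcases (hr.dvd_mul).1 hrd with h3 | h3
          · rw [(Nat.prime_dvd_prime_iff_eq hr p1).1 h3]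
            exact t5c_z p6
          · rw [(Nat.prime_dvd_prime_iff_eq hr p2).1 h3]
            refine t5c_z (p6.trans ?_)
            exact_mod_cast p5

private theorem t5c_size (δ A : ℝ) (hδ : 0 < δ) (hδ1 : δ ≤ 1 / 100) (hA : 2 ≤ A) :
    ∃ m0 : ℕ, ∀ m : ℕ, m0 ≤ m →
      (A * (m : ℝ) ^ (49 / 200 : ℝ)) * (A * ((m : ℝ) ^ (δ / 2) * (A * (m : ℝ) ^ (49 / 200 : ℝ))))
      ≤ (m : ℝ) ^ (399 / 800 : ℝ) := by
  obtain ⟨m2, h2⟩ := grow (A ^ 3) 0 (3 / 800) (by norm_num)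
  refine ⟨max m2 1, fun m hm => ?_⟩
  simp only [max_le_iff] at hm
  obtain ⟨hm2, hm3⟩ := hm
  have hmR : (1 : ℝ) ≤ m := by exact_mod_cast hm3
  have hm0 : (0 : ℝ) < m := by linarith only [hδ, hδ1, hmR]
  have e2 := h2 m hm2
  rw [pow_zero, mul_one] at e2
  have e3 : (m : ℝ) ^ (δ / 2) ≤ (m : ℝ) ^ (1 / 200 : ℝ) :=
    Real.rpow_le_rpow_of_exponent_le hmR (by linarith only [hδ1])
  have e4 : (m : ℝ) ^ (399 / 800 : ℝ)
      = (m : ℝ) ^ (3 / 800 : ℝ) * ((m : ℝ) ^ (49 / 200 : ℝ) * ((m : ℝ) ^ (1 / 200 : ℝ)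
        * (m : ℝ) ^ (49 / 200 : ℝ))) := by
    rw [← Real.rpow_add hm0, ← Real.rpow_add hm0, ← Real.rpow_add hm0]
    norm_num
  rw [e4]
  calc (A * (m : ℝ) ^ (49 / 200 : ℝ)) *
        (A * ((m : ℝ) ^ (δ / 2) * (A * (m : ℝ) ^ (49 / 200 : ℝ))))
      = A ^ 3 * ((m : ℝ) ^ (49 / 200 : ℝ) * ((m : ℝ) ^ (δ / 2) * (m : ℝ) ^ (49 / 200 : ℝ))) := by
        ring
    _ ≤ _ := by gcongr

/-- the sum with `d (p h)` -/
private theorem t5c_a (δ A : ℝ) (hδ : 0 < δ) (hδ1 : δ ≤ 1 / 100) (hA : 2 ≤ A) :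
    ∃ C : ℝ, 0 < C ∧ ∃ m0 : ℕ, ∀ m : ℕ, m0 ≤ m → ∀ d : ℕ → ℝ, (∀ n, 0 ≤ d n) →
    ∑ h ∈ t5c_HB δ A m, ∑ s ∈ SS δ m, ∑ p ∈ PP m A s h, d (p * h) / ((s : ℝ) * h * p)
      ≤ C / Real.log m * ∑ n ∈ BR (δ / 4) m, d n / n := by
  obtain ⟨C, hC, m1, h1⟩ := pri_up (δ / 8) (by positivity)
  obtain ⟨m2, h2⟩ := t5c_size δ A hδ hδ1 hA
  obtain ⟨m4, h4⟩ := grow (2 * A) 0 (δ / 8) (by positivity)
  have hA1 : 1 ≤ 2 * A := by linarith only [hδ, hδ1, hA]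
  have hA0 : 0 < 2 * A := by linarith only [hδ, hδ1, hA]
  have hlog : 0 ≤ Real.log (2 * A) := Real.log_nonneg hA1
  refine ⟨C * (1 + Real.log (2 * A)), by positivity, max m1 (max m2 (max m4 1)),
    fun m hm d hd => ?_⟩
  simp only [max_le_iff] at hm
  obtain ⟨hm1, hm2, hm4, hm3⟩ := hm
  have hmR : (1 : ℝ) ≤ m := by exact_mod_cast hm3
  have hm0 : (0 : ℝ) < m := by linarith only [hδ, hδ1, hmR]
  have hLm : 0 ≤ Real.log m := Real.log_nonneg hmR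
  have hmono : (m : ℝ) ^ (δ / 4) ≤ (m : ℝ) ^ (δ / 2) :=
    Real.rpow_le_rpow_of_exponent_le hmR (by linarith only [hδ])
  have e4 := h4 m hm4
  rw [pow_zero, mul_one] at e4
  have sq : (m : ℝ) ^ (δ / 8) * (m : ℝ) ^ (δ / 8) = (m : ℝ) ^ (δ / 4) := by
    rw [← Real.rpow_add hm0]
    congr 1
    ring
  have key : ∀ h ∈ t5c_HB δ A m, ∑ s ∈ SS δ m, ∑ p ∈ PP m A s h, d (p * h) / ((s : ℝ) * h * p)
      ≤ C * (1 + Real.log (2 * A)) / Real.log m *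
        ∑ p ∈ (t5c_PB δ A m).filter (fun p : ℕ => h < p), d (h * p) / ((h : ℝ) * p) := by
    intro h hh
    rw [t5c_mem_HB hA] at hh
    obtain ⟨k1, k2, k3, k4⟩ := hh
    have hh0 : (0 : ℝ) < h := by exact_mod_cast k1.pos
    refine (t5c_swap (SS δ m) (fun s => PP m A s h)
      ((t5c_PB δ A m).filter (fun p : ℕ => h < p))
      (fun p => (SS δ m).filter (fun s : ℕ => (s : ℝ) * h < p ∧ (p : ℝ) ≤ A * (s * h)))
      (fun s p => d (p * h) / ((s : ℝ) * h * p))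
      (fun s p => by have := hd (p * h); positivity) ?_).trans ?_
    · intro s hs p hp
      have hs' := hs
      rw [t5c_mem_SS] at hs
      rw [t5c_mem_PP hA] at hp
      obtain ⟨s1, s2, s3, s4⟩ := hs
      obtain ⟨p1, p2, p3, p4⟩ := hp
      have hs1 : (1 : ℝ) ≤ s := by exact_mod_cast s1.one_lt.le
      have hhp : (h : ℝ) < p := by nlinarith only [p3, hs1]
      refine ⟨?_, mem_filter.2 ⟨hs', p3, p4⟩⟩
      rw [mem_filter, t5c_mem_PB hA]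
      refine ⟨⟨p1, p2, by linarith only [k3, s3, s4, hhp], p4.trans ?_⟩, by exact_mod_cast hhp⟩
      gcongr
    · rw [mul_sum]
      refine sum_le_sum fun p hp => ?_
      rw [mem_filter, t5c_mem_PB hA] at hp
      obtain ⟨⟨p1, p2, p3, p4⟩, p5⟩ := hp
      have hp0 : (0 : ℝ) < p := by exact_mod_cast p1.pos
      have hdp := hd (h * p)
      have e5 : ∑ s ∈ (SS δ m).filter (fun s : ℕ => (s : ℝ) * h < p ∧ (p : ℝ) ≤ A * (s * h)),
            d (p * h) / ((s : ℝ) * h * p)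
          = d (h * p) / ((h : ℝ) * p) *
            ∑ s ∈ (SS δ m).filter (fun s : ℕ => (s : ℝ) * h < p ∧ (p : ℝ) ≤ A * (s * h)),
              1 / (s : ℝ) := by
        rw [mul_sum]
        refine sum_congr rfl fun s _ => ?_
        rw [div_mul_div_comm, mul_one, mul_comm p h]
        congr 1
        ring
      rw [e5, mul_comm (C * (1 + Real.log (2 * A)) / Real.log m) (d (h * p) / ((h : ℝ) * p))]
      refine mul_le_mul_of_nonneg_left ?_ (by positivity)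
      rcases ((SS δ m).filter
        (fun s : ℕ => (s : ℝ) * h < p ∧ (p : ℝ) ≤ A * (s * h))).eq_empty_or_nonempty with
        hE | ⟨s0, hs0⟩
      · rw [hE, sum_empty]
        positivity
      · rw [mem_filter, t5c_mem_SS] at hs0
        obtain ⟨⟨j1, j2, j3, j4⟩, j5, j6⟩ := hs0
        have hX : (m : ℝ) ^ (δ / 8) ≤ (p : ℝ) / (2 * A * h) := by
          rw [le_div_iff₀ (by positivity)]
          have u0 : 0 < (m : ℝ) ^ (δ / 8) := by positivity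
          have u1 : (m : ℝ) ^ (δ / 8) * (2 * A) ≤ (m : ℝ) ^ (δ / 4) := by
            rw [← sq]
            gcongr
          have u2 : (m : ℝ) ^ (δ / 4) * h ≤ s0 * h := by gcongr
          have u3 : (m : ℝ) ^ (δ / 8) * (2 * A) * h ≤ (m : ℝ) ^ (δ / 4) * h := by gcongr
          linarith only [j5, u2, u3]
        have e := h1 m hm1 _ (2 * A) hX hA1
        refine le_trans ?_ e
        refine sum_le_sum_of_subset_of_nonneg ?_ (fun n _ _ => by positivity)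
        intro s hs
        rw [mem_filter, t5c_mem_SS] at hs
        obtain ⟨⟨i1, i2, i3, i4⟩, i5, i6⟩ := hs
        have hss : (0 : ℝ) < s := by exact_mod_cast i1.pos
        rw [mem_PI (by positivity)]
        refine ⟨i1, i2, ?_, ?_⟩
        · rw [div_lt_iff₀ (by positivity)]
          have : 0 < A * (s * h) := by positivity
          nlinarith only [sq, p3, i6]
        · have : 2 * A * ((p : ℝ) / (2 * A * h)) = p / h := by
            field_simp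
          rw [this, le_div_iff₀ hh0]
          linarith only [i5]
  calc ∑ h ∈ t5c_HB δ A m, ∑ s ∈ SS δ m, ∑ p ∈ PP m A s h, d (p * h) / ((s : ℝ) * h * p)
      ≤ ∑ h ∈ t5c_HB δ A m, C * (1 + Real.log (2 * A)) / Real.log m *
        ∑ p ∈ (t5c_PB δ A m).filter (fun p : ℕ => h < p), d (h * p) / ((h : ℝ) * p) :=
        sum_le_sum key
    _ = C * (1 + Real.log (2 * A)) / Real.log m * ∑ h ∈ t5c_HB δ A m,
        ∑ p ∈ (t5c_PB δ A m).filter (fun p : ℕ => h < p), d (h * p) / ((h : ℝ) * p) := by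
        rw [mul_sum]
    _ = C * (1 + Real.log (2 * A)) / Real.log m *
        ∑ x ∈ (t5c_HB δ A m ×ˢ t5c_PB δ A m).filter (fun x : ℕ × ℕ => x.1 < x.2),
          d (x.1 * x.2) / ((x.1 : ℝ) * x.2) := by
        congr 1
        rw [sum_filter, sum_product]
        refine sum_congr rfl fun h _ => ?_
        rw [sum_filter]
    _ ≤ _ := by
        refine mul_le_mul_of_nonneg_left ?_ (by positivity)
        refine t5c_inj (δ / 4) m d hd _ ?_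
        rintro ⟨h, p⟩ hx
        rw [mem_filter, mem_product, t5c_mem_HB hA, t5c_mem_PB hA] at hx
        obtain ⟨⟨⟨k1, k2, k3, k4⟩, p1, p2, p3, p4⟩, p5⟩ := hx
        simp only at k1 k2 k3 k4 p1 p2 p3 p4 p5 ⊢
        refine ⟨k1, p1, k2, p2, p5, hmono.trans_lt k3, ?_⟩
        refine le_trans ?_ (h2 m hm2)
        gcongr

/-- the sum with `d (s q)` -/
private theorem t5c_b (δ A : ℝ) (hδ : 0 < δ) (hδ1 : δ ≤ 1 / 100) (hA : 2 ≤ A) :
    ∃ C : ℝ, 0 < C ∧ ∃ m0 : ℕ, ∀ m : ℕ, m0 ≤ m → ∀ d : ℕ → ℝ, (∀ n, 0 ≤ d n) →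
    ∑ q ∈ QQ δ m, ∑ s ∈ SS δ m, ∑ h ∈ HH m A q, ∑ p ∈ PP m A s h,
      d (s * q) / ((q : ℝ) * s * h * p)
      ≤ C / Real.log m ^ 2 * ∑ n ∈ BR (δ / 4) m, d n / n := by
  obtain ⟨C, hC, m1, h1⟩ := pri_up (δ / 4) (by positivity)
  have hlog : 0 ≤ Real.log A := Real.log_nonneg (by linarith only [hδ, hδ1, hA])
  refine ⟨(C * (1 + Real.log A)) ^ 2, by positivity, max m1 1, fun m hm d hd => ?_⟩
  simp only [max_le_iff] at hm
  obtain ⟨hm1, hm3⟩ := hm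
  have hmR : (1 : ℝ) ≤ m := by exact_mod_cast hm3
  have hm0 : (0 : ℝ) < m := by linarith only [hδ, hδ1, hmR]
  have hLm : 0 ≤ Real.log m := Real.log_nonneg hmR
  have hmono : (m : ℝ) ^ (δ / 4) ≤ (m : ℝ) ^ (δ / 2) :=
    Real.rpow_le_rpow_of_exponent_le hmR (by linarith)
  have hmono2 : (m : ℝ) ^ (δ / 2) ≤ (m : ℝ) ^ δ :=
    Real.rpow_le_rpow_of_exponent_le hmR (by linarith only [hδ])
  have sq : ((m : ℝ) ^ (δ / 2)) ^ 2 = (m : ℝ) ^ δ := by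
    rw [← Real.rpow_natCast, ← Real.rpow_mul hm0.le]
    congr 1
    push_cast
    ring
  have sqt : Real.sqrt ((m : ℝ) ^ δ) = (m : ℝ) ^ (δ / 2) := by
    rw [← sq, Real.sqrt_sq (by positivity)]
  have step : ∀ q ∈ QQ δ m, ∀ s ∈ SS δ m,
      ∑ h ∈ HH m A q, ∑ p ∈ PP m A s h, d (s * q) / ((q : ℝ) * s * h * p)
        ≤ (C * (1 + Real.log A)) ^ 2 / Real.log m ^ 2 * (d (s * q) / ((s : ℝ) * q)) := by
    intro q hq s hs
    rw [t5c_mem_QQ] at hq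
    rw [t5c_mem_SS] at hs
    obtain ⟨q1, q2, q3, q4⟩ := hq
    obtain ⟨s1, s2, s3, s4⟩ := hs
    have hq0 : (0 : ℝ) < q := by exact_mod_cast q1.pos
    have hs0 : (0 : ℝ) < s := by exact_mod_cast s1.pos
    have hdd := hd (s * q)
    have l1 : (m : ℝ) ^ (δ / 2) ≤ Real.sqrt q := by
      rw [← sqt]
      exact Real.sqrt_le_sqrt q3.le
    have eh : ∑ h ∈ HH m A q, 1 / (h : ℝ) ≤ C * (1 + Real.log A) / Real.log m := by
      unfold HH
      exact h1 m hm1 _ A (hmono.trans l1) (by linarith only [hδ, hδ1, hA])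
    have ep : ∀ h ∈ HH m A q, ∑ p ∈ PP m A s h, d (s * q) / ((q : ℝ) * s * h * p)
        ≤ d (s * q) / ((s : ℝ) * q) * (C * (1 + Real.log A) / Real.log m) * (1 / (h : ℝ)) := by
      intro h hh
      rw [t5c_mem_HH hA] at hh
      obtain ⟨k1, k2, k3, k4⟩ := hh
      have hh0 : (0 : ℝ) < h := by exact_mod_cast k1.pos
      have hh1 : (1 : ℝ) ≤ h := by exact_mod_cast k1.one_lt.le
      have hX : (m : ℝ) ^ (δ / 4) ≤ (s : ℝ) * h := by nlinarith only [s3, hh1]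
      have e := h1 m hm1 _ A hX (by linarith only [hδ, hδ1, hA])
      calc ∑ p ∈ PP m A s h, d (s * q) / ((q : ℝ) * s * h * p)
          = d (s * q) / ((s : ℝ) * q) * (1 / (h : ℝ)) * ∑ p ∈ PP m A s h, 1 / (p : ℝ) := by
            rw [mul_sum]
            refine sum_congr rfl fun p _ => ?_
            rw [div_mul_div_comm, div_mul_div_comm, mul_one, mul_one]
            congr 1
            ring
        _ ≤ d (s * q) / ((s : ℝ) * q) * (1 / (h : ℝ)) * (C * (1 + Real.log A) / Real.log m) := by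
            unfold PP
            gcongr
        _ = _ := by ring
    calc ∑ h ∈ HH m A q, ∑ p ∈ PP m A s h, d (s * q) / ((q : ℝ) * s * h * p)
        ≤ ∑ h ∈ HH m A q,
          d (s * q) / ((s : ℝ) * q) * (C * (1 + Real.log A) / Real.log m) * (1 / (h : ℝ)) :=
          sum_le_sum ep
      _ = d (s * q) / ((s : ℝ) * q) * (C * (1 + Real.log A) / Real.log m) *
          ∑ h ∈ HH m A q, 1 / (h : ℝ) := by
          rw [mul_sum]
      _ ≤ d (s * q) / ((s : ℝ) * q) * (C * (1 + Real.log A) / Real.log m) *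
          (C * (1 + Real.log A) / Real.log m) := by gcongr
      _ = _ := by ring
  calc ∑ q ∈ QQ δ m, ∑ s ∈ SS δ m, ∑ h ∈ HH m A q, ∑ p ∈ PP m A s h,
        d (s * q) / ((q : ℝ) * s * h * p)
      ≤ ∑ q ∈ QQ δ m, ∑ s ∈ SS δ m,
          (C * (1 + Real.log A)) ^ 2 / Real.log m ^ 2 * (d (s * q) / ((s : ℝ) * q)) :=
        sum_le_sum fun q hq => sum_le_sum fun s hs => step q hq s hs
    _ = (C * (1 + Real.log A)) ^ 2 / Real.log m ^ 2 *
          ∑ q ∈ QQ δ m, ∑ s ∈ SS δ m, d (s * q) / ((s : ℝ) * q) := by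
        rw [mul_sum]
        exact sum_congr rfl fun q _ => by rw [mul_sum]
    _ = (C * (1 + Real.log A)) ^ 2 / Real.log m ^ 2 *
          ∑ x ∈ SS δ m ×ˢ QQ δ m, d (x.1 * x.2) / ((x.1 : ℝ) * x.2) := by
        rw [sum_comm, sum_product]
    _ ≤ _ := by
        refine mul_le_mul_of_nonneg_left ?_ (by positivity)
        refine t5c_inj (δ / 4) m d hd _ ?_
        rintro ⟨s, q⟩ hx
        rw [mem_product, t5c_mem_SS, t5c_mem_QQ] at hx
        obtain ⟨⟨s1, s2, s3, s4⟩, q1, q2, q3, q4⟩ := hx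
        simp only at s1 s2 s3 s4 q1 q2 q3 q4 ⊢
        refine ⟨s1, q1, s2, q2, ?_, s3, ?_⟩
        · have : (s : ℝ) < q := by linarith only [hmono2, s4, q3]
          exact_mod_cast this
        · have e3 : (m : ℝ) ^ (δ / 2) ≤ (m : ℝ) ^ (1 / 200 : ℝ) :=
            Real.rpow_le_rpow_of_exponent_le hmR (by linarith only [hδ1])
          calc (s : ℝ) * q ≤ (m : ℝ) ^ (1 / 200 : ℝ) * (m : ℝ) ^ (49 / 100 : ℝ) := by
                gcongr
                exact s4.trans e3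
            _ = (m : ℝ) ^ (99 / 200 : ℝ) := by
                rw [← Real.rpow_add hm0]
                norm_num
            _ ≤ _ := Real.rpow_le_rpow_of_exponent_le hmR (by norm_num)

theorem t5_sum2 (δ A : ℝ) (hδ : 0 < δ) (hδ1 : δ ≤ 1 / 100) (hA : 2 ≤ A) :
    ∃ C : ℝ, 0 < C ∧ ∃ m0 : ℕ, ∀ m : ℕ, m0 ≤ m → ∀ d : ℕ → ℝ, (∀ n, 0 ≤ d n) →
    ∑ q ∈ QQ δ m, ∑ s ∈ SS δ m, ∑ h ∈ HH m A q, ∑ p ∈ PP m A s h,
      (d (p * h) + d (s * q)) / ((q : ℝ) * s * h * p)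
      ≤ C / Real.log m ^ 2 * ∑ n ∈ BR (δ / 4) m, d n / n := by
  obtain ⟨C1, hC1, m1, h1⟩ := t5c_q δ A hδ hA
  obtain ⟨C2, hC2, m2, h2⟩ := t5c_a δ A hδ hδ1 hA
  obtain ⟨C3, hC3, m3, h3⟩ := t5c_b δ A hδ hδ1 hA
  refine ⟨C1 * C2 + C3, by positivity, max m1 (max m2 (max m3 1)), fun m hm d hd => ?_⟩
  simp only [max_le_iff] at hm
  obtain ⟨hm1, hm2, hm3, hm4⟩ := hm
  have hmR : (1 : ℝ) ≤ m := by exact_mod_cast hm4
  have hLm : 0 ≤ Real.log m := Real.log_nonneg hmR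
  have e1 := h1 m hm1 (fun h => ∑ s ∈ SS δ m, ∑ p ∈ PP m A s h,
    d (p * h) / ((s : ℝ) * h * p))
    (fun h => sum_nonneg fun s _ => sum_nonneg fun p _ => by
      have := hd (p * h)
      positivity)
  have e2 := h2 m hm2 d hd
  have e3 := h3 m hm3 d hd
  have e4 : ∑ q ∈ QQ δ m, ∑ s ∈ SS δ m, ∑ h ∈ HH m A q, ∑ p ∈ PP m A s h,
      (d (p * h) + d (s * q)) / ((q : ℝ) * s * h * p)
      = ∑ q ∈ QQ δ m, ∑ h ∈ HH m A q, (∑ s ∈ SS δ m, ∑ p ∈ PP m A s h,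
          d (p * h) / ((s : ℝ) * h * p)) / (q : ℝ)
        + ∑ q ∈ QQ δ m, ∑ s ∈ SS δ m, ∑ h ∈ HH m A q, ∑ p ∈ PP m A s h,
          d (s * q) / ((q : ℝ) * s * h * p) := by
    rw [← sum_add_distrib]
    refine sum_congr rfl fun q _ => ?_
    have e5 : ∑ h ∈ HH m A q, (∑ s ∈ SS δ m, ∑ p ∈ PP m A s h,
          d (p * h) / ((s : ℝ) * h * p)) / (q : ℝ)
        = ∑ s ∈ SS δ m, ∑ h ∈ HH m A q, ∑ p ∈ PP m A s h,
          d (p * h) / ((q : ℝ) * s * h * p) := by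
      rw [sum_comm]
      refine sum_congr rfl fun h _ => ?_
      rw [sum_div]
      refine sum_congr rfl fun s _ => ?_
      rw [sum_div]
      refine sum_congr rfl fun p _ => ?_
      rw [div_div]
      congr 1
      ring
    rw [e5, ← sum_add_distrib]
    refine sum_congr rfl fun s _ => ?_
    rw [← sum_add_distrib]
    refine sum_congr rfl fun h _ => ?_
    rw [← sum_add_distrib]
    refine sum_congr rfl fun p _ => ?_
    rw [add_div]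
  rw [e4]
  calc ∑ q ∈ QQ δ m, ∑ h ∈ HH m A q, (∑ s ∈ SS δ m, ∑ p ∈ PP m A s h,
          d (p * h) / ((s : ℝ) * h * p)) / (q : ℝ)
        + ∑ q ∈ QQ δ m, ∑ s ∈ SS δ m, ∑ h ∈ HH m A q, ∑ p ∈ PP m A s h,
          d (s * q) / ((q : ℝ) * s * h * p)
      ≤ C1 / Real.log m * (C2 / Real.log m * ∑ n ∈ BR (δ / 4) m, d n / n)
        + C3 / Real.log m ^ 2 * ∑ n ∈ BR (δ / 4) m, d n / n := by
        refine add_le_add (e1.trans ?_) e3
        exact mul_le_mul_of_nonneg_left e2 (by positivity)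
    _ = _ := by ring

end Pool.Agent.H78.PD
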