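import Pool.Agent.H94.PG.H78.PD.Pri
import Pool.Agent.H94.PG.M24
import Pool.Agent.H94.PG.M25

/-!
# PD, T6c (helper53): the bad primes up to `m^(1-δ2)`

`f(n) = λ(n) χ(n)`, `k = cc χ`, `|k|² ≥ 1 - δ1`; `f(p) = -1` at a bad prime.  `E = {x ∈ cop m (m/2) : |f(x) - k|² ≥ 1/2}`, `#E ≤ 2 φ δ1`.  By `t6_triples` as in `t6`: the `a ∈ cop m ⌊m^(δ2/4)⌋` with `f(a) ≠ σ` (`σ = ±1` the
nearest sign to `k`, `k` is real) have `∑ 1/a ≤ small (φ/m) L`, and `∑ 1/a ≥ (φ/m)(δ2/8) L` for all.  For a bad prime `p ∈ (m^(49/100), m^(1-δ2)]`: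
* `p > m^(6/10)`: `x = a p p4`, `p4` good in `(X, AX]`, `X = m/(2Aap)`;
* `p ≤ m^(6/10)`: `x = a p p3 p4`, `p3` good in `(m^(1/10), m^(11/100)]`, `p4` good in `(X, AX]`, `X = m/(2Aapp3)`;
`f(x) = -σ`, so `x ∈ E`, each `x` boundedly often; the number of these tuples is `≥ c (m/L) ∑_p 1/p ∑_a 1/a - (losses: p4 or p3 bad: given a, p4 (p3) the p are in a block: ≤ C δ1 (m/L) ∑ 1/a)`.
So `∑_p 1/p ≤ C(δ2) δ1`.
-/

set_option autoImplicit false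

namespace Pool.Agent.H78.PD

open Finset
open Pool.Agent.H34PG (lam lam_val lam_mul lam_prime)
open Pool.Agent.H11.LQ Pool.Agent.H78.PG

private noncomputable def T6c_X (m : ℕ) (A : ℝ) (a p t : ℕ) : ℝ := (m : ℝ) / (2 * A * a * p * t)

private theorem T6c_Xe {m : ℕ} {A : ℝ} (hA : 1 ≤ A) (a p t : ℕ) :
    T6c_X m A a p t = m / (2 * A) * (1 / (a : ℝ)) * (1 / (p : ℝ)) * (1 / (t : ℝ)) := by
  unfold T6c_X
  rw [show 2 * A * (a : ℝ) * p * t = (2 * A) * a * p * t by ring]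
  simp only [one_div, div_eq_mul_inv, mul_inv]
  ring

/-- the number of the good primes in a block -/
private theorem T6c_blk {m : ℕ} {A : ℝ} (hA : 1 ≤ A) {X s : ℝ} (hX : 0 < X) (B : Finset ℕ)
    (h : s ≤ ∑ q ∈ PI m X (A * X), 1 / (q : ℝ)) :
    X * (s - ∑ q ∈ B.filter (fun q : ℕ => X < q ∧ (q : ℝ) ≤ A * X), 1 / (q : ℝ)) ≤
      ((PI m X (A * X) \ B).card : ℝ) := by
  have hAX : 0 ≤ A * X := by positivity
  have h1 : ∑ q ∈ PI m X (A * X) \ B, 1 / (q : ℝ) + ∑ q ∈ PI m X (A * X) ∩ B, 1 / (q : ℝ) =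
      ∑ q ∈ PI m X (A * X), 1 / (q : ℝ) := by
    rw [← sum_union (disjoint_sdiff_inter _ _), sdiff_union_inter]
  have h2 : ∑ q ∈ PI m X (A * X) ∩ B, 1 / (q : ℝ) ≤
      ∑ q ∈ B.filter (fun q : ℕ => X < q ∧ (q : ℝ) ≤ A * X), 1 / (q : ℝ) := by
    refine sum_le_sum_of_subset_of_nonneg ?_ fun _ _ _ => by positivity
    intro q hq
    rw [mem_inter, mem_PI hAX] at hq
    rw [mem_filter]
    exact ⟨hq.2, hq.1.2.2.1, hq.1.2.2.2⟩
  have h3 : X * ∑ q ∈ PI m X (A * X) \ B, 1 / (q : ℝ) ≤ ((PI m X (A * X) \ B).card : ℝ) := by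
    rw [mul_sum, card_eq_sum_ones, Nat.cast_sum]
    refine sum_le_sum fun q hq => ?_
    rw [mem_sdiff, mem_PI hAX] at hq
    have h4 := hq.1.2.2.1
    have hq0 : (0 : ℝ) < q := hX.trans h4
    rw [mul_one_div, Nat.cast_one, div_le_one hq0]
    exact h4.le
  refine le_trans (mul_le_mul_of_nonneg_left ?_ hX.le) h3
  linarith only [h, h1, h2]

private theorem T6c_core {m : ℕ} {A c1 C1 δ1 : ℝ} (hm : 0 < m) (hA : 1 ≤ A)
    {As Ps Ts B E : Finset ℕ} (ha : ∀ a ∈ As, 1 ≤ a) (hp : ∀ p ∈ Ps, p.Prime ∧ ¬ p ∣ m)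
    (ht : ∀ t ∈ Ts, 1 ≤ t) (hB : ∀ q ∈ B, 1 ≤ q) (hB1 : ∑ q ∈ B, 1 / (q : ℝ) ≤ δ1) (hC : 0 ≤ C1)
    (hlow : ∀ a ∈ As, ∀ p ∈ Ps, ∀ t ∈ Ts,
      c1 ≤ ∑ q ∈ PI m (T6c_X m A a p t) (A * T6c_X m A a p t), 1 / (q : ℝ))
    (hupp : ∀ a ∈ As, ∀ t ∈ Ts, ∀ q ∈ B,
      ∑ p ∈ PI m (T6c_X m A a q t) (A * T6c_X m A a q t), 1 / (p : ℝ) ≤ C1)
    (hinj : ∀ a ∈ As, ∀ p ∈ Ps, ∀ t ∈ Ts,
      ∀ q ∈ PI m (T6c_X m A a p t) (A * T6c_X m A a p t) \ B,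
      ∀ a' ∈ As, ∀ p' ∈ Ps, ∀ t' ∈ Ts,
      ∀ q' ∈ PI m (T6c_X m A a' p' t') (A * T6c_X m A a' p' t') \ B,
      a * p * t * q = a' * p' * t' * q' → a = a' ∧ p = p' ∧ t = t' ∧ q = q')
    (hE : ∀ a ∈ As, ∀ p ∈ Ps, ∀ t ∈ Ts,
      ∀ q ∈ PI m (T6c_X m A a p t) (A * T6c_X m A a p t) \ B, a * p * t * q ∈ E) :
    (m : ℝ) / (2 * A) * (∑ a ∈ As, 1 / (a : ℝ)) * (∑ t ∈ Ts, 1 / (t : ℝ)) *
      (c1 * (∑ p ∈ Ps, 1 / (p : ℝ)) - C1 * δ1) ≤ (E.card : ℝ) := by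
  classical
  have hm0 : (0 : ℝ) < m := by exact_mod_cast hm
  have hA0 : 0 < A := by linarith only [hA]
  have hXpos : ∀ a p t : ℕ, 1 ≤ a → 1 ≤ p → 1 ≤ t → 0 < T6c_X m A a p t := by
    intro a p t h1 h2 h3
    have h1' : (0 : ℝ) < a := by exact_mod_cast h1
    have h2' : (0 : ℝ) < p := by exact_mod_cast h2
    have h3' : (0 : ℝ) < t := by exact_mod_cast h3
    unfold T6c_X
    positivity
  obtain ⟨W, hW⟩ : ∃ W : ℝ, W = m / (2 * A) := ⟨_, rfl⟩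
  have hW0 : 0 ≤ W := by rw [hW]; positivity
  -- the number of the quadruples
  have h1 : ∑ x ∈ As ×ˢ (Ps ×ˢ Ts), (PI m (T6c_X m A x.1 x.2.1 x.2.2)
      (A * T6c_X m A x.1 x.2.1 x.2.2) \ B).card ≤ E.card := by
    rw [← card_sigma]
    refine card_le_card_of_injOn (fun y => y.1.1 * y.1.2.1 * y.1.2.2 * y.2) ?_ ?_
    · rintro ⟨⟨a, p, t⟩, q⟩ hx
      rw [mem_coe, mem_sigma, mem_product, mem_product] at hx
      exact hE a hx.1.1 p hx.1.2.1 t hx.1.2.2 q hx.2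
    · rintro ⟨⟨a, p, t⟩, q⟩ hx ⟨⟨a', p', t'⟩, q'⟩ hx' heq
      rw [mem_coe, mem_sigma, mem_product, mem_product] at hx hx'
      obtain ⟨e1, e2, e3, e4⟩ := hinj a hx.1.1 p hx.1.2.1 t hx.1.2.2 q hx.2 a' hx'.1.1 p' hx'.1.2.1
        t' hx'.1.2.2 q' hx'.2 heq
      subst e1 e2 e3 e4
      rfl
  have h2 : ∑ a ∈ As, ∑ p ∈ Ps, ∑ t ∈ Ts, ((PI m (T6c_X m A a p t)
      (A * T6c_X m A a p t) \ B).card : ℝ) ≤ (E.card : ℝ) := by
    have h3 : ((∑ x ∈ As ×ˢ (Ps ×ˢ Ts), (PI m (T6c_X m A x.1 x.2.1 x.2.2)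
      (A * T6c_X m A x.1 x.2.1 x.2.2) \ B).card : ℕ) : ℝ) ≤ (E.card : ℝ) := by exact_mod_cast h1
    rw [Nat.cast_sum, sum_product] at h3
    refine le_trans (le_of_eq ?_) h3
    refine sum_congr rfl fun a _ => ?_
    rw [sum_product]
  -- from below
  have h3 : ∑ a ∈ As, ∑ p ∈ Ps, ∑ t ∈ Ts, (T6c_X m A a p t * c1 -
      ∑ q ∈ B, if T6c_X m A a p t < q ∧ (q : ℝ) ≤ A * T6c_X m A a p t
        then T6c_X m A a p t * (1 / (q : ℝ)) else 0) ≤ (E.card : ℝ) := by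
    refine le_trans ?_ h2
    refine sum_le_sum fun a ha' => sum_le_sum fun p hp' => sum_le_sum fun t ht' => ?_
    have h4 := T6c_blk hA (hXpos a p t (ha a ha') (hp p hp').1.one_lt.le (ht t ht')) B
      (hlow a ha' p hp' t ht')
    refine le_trans (le_of_eq ?_) h4
    rw [mul_sub, mul_sum, sum_filter]
  have h4 : ∑ a ∈ As, ∑ p ∈ Ps, ∑ t ∈ Ts, T6c_X m A a p t * c1 =
      W * (∑ a ∈ As, 1 / (a : ℝ)) * (∑ t ∈ Ts, 1 / (t : ℝ)) * (c1 * ∑ p ∈ Ps, 1 / (p : ℝ)) := by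
    have e1 : ∀ a p t : ℕ, T6c_X m A a p t * c1 =
        W * (1 / (a : ℝ)) * (c1 * (1 / (p : ℝ))) * (1 / (t : ℝ)) := by
      intro a p t
      rw [T6c_Xe hA, hW]
      ring
    simp only [e1]
    simp only [← mul_sum, ← sum_mul]
    ring
  have h5 : ∑ a ∈ As, ∑ p ∈ Ps, ∑ t ∈ Ts, ∑ q ∈ B,
      (if T6c_X m A a p t < q ∧ (q : ℝ) ≤ A * T6c_X m A a p t
        then T6c_X m A a p t * (1 / (q : ℝ)) else 0) ≤
      W * (∑ a ∈ As, 1 / (a : ℝ)) * (∑ t ∈ Ts, 1 / (t : ℝ)) * (C1 * δ1) := by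
    have e1 : ∀ a ∈ As, ∀ t ∈ Ts, ∀ q ∈ B, ∑ p ∈ Ps,
        (if T6c_X m A a p t < q ∧ (q : ℝ) ≤ A * T6c_X m A a p t
          then T6c_X m A a p t * (1 / (q : ℝ)) else 0) ≤
        W * (1 / (a : ℝ)) * (1 / (t : ℝ)) * (1 / (q : ℝ)) * C1 := by
      intro a ha' t ht' q hq
      have ha0 : (0 : ℝ) < a := by exact_mod_cast ha a ha'
      have ht0 : (0 : ℝ) < t := by exact_mod_cast ht t ht'
      have hq0 : (0 : ℝ) < q := by exact_mod_cast hB q hq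
      refine le_trans ?_ (mul_le_mul_of_nonneg_left (hupp a ha' t ht' q hq) (by positivity))
      rw [mul_sum, ← sum_filter]
      have hsub : Ps.filter (fun p => T6c_X m A a p t < q ∧ (q : ℝ) ≤ A * T6c_X m A a p t) ⊆
          PI m (T6c_X m A a q t) (A * T6c_X m A a q t) := by
        intro p hpp
        rw [mem_filter] at hpp
        obtain ⟨hp1, hp2, hp3⟩ := hpp
        have hp0 : (0 : ℝ) < p := by exact_mod_cast (hp p hp1).1.pos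
        rw [mem_PI (by have := hXpos a q t (ha a ha') (hB q hq) (ht t ht'); positivity)]
        refine ⟨(hp p hp1).1, (hp p hp1).2, ?_, ?_⟩
        · unfold T6c_X at hp2 ⊢
          rw [div_lt_iff₀ (by positivity)] at hp2 ⊢
          linarith only [hp2]
        · unfold T6c_X at hp3 ⊢
          rw [← mul_div_assoc, le_div_iff₀ (by positivity)] at hp3 ⊢
          linarith only [hp3]
      have hpos : ∀ p ∈ PI m (T6c_X m A a q t) (A * T6c_X m A a q t), p ∉ Ps.filter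
          (fun p => T6c_X m A a p t < q ∧ (q : ℝ) ≤ A * T6c_X m A a p t) →
          0 ≤ W * (1 / (a : ℝ)) * (1 / (t : ℝ)) * (1 / (q : ℝ)) * (1 / (p : ℝ)) :=
        fun p _ _ => by positivity
      refine le_trans (le_of_eq ?_) (sum_le_sum_of_subset_of_nonneg hsub hpos)
      refine sum_congr rfl fun p _ => ?_
      rw [T6c_Xe hA, hW]
      ring
    calc ∑ a ∈ As, ∑ p ∈ Ps, ∑ t ∈ Ts, ∑ q ∈ B,
        (if T6c_X m A a p t < q ∧ (q : ℝ) ≤ A * T6c_X m A a p t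
          then T6c_X m A a p t * (1 / (q : ℝ)) else 0)
        = ∑ a ∈ As, ∑ t ∈ Ts, ∑ q ∈ B, ∑ p ∈ Ps,
        (if T6c_X m A a p t < q ∧ (q : ℝ) ≤ A * T6c_X m A a p t
          then T6c_X m A a p t * (1 / (q : ℝ)) else 0) := by
          refine sum_congr rfl fun a _ => ?_
          rw [sum_comm]
          refine sum_congr rfl fun t _ => ?_
          rw [sum_comm]
      _ ≤ ∑ a ∈ As, ∑ t ∈ Ts, ∑ q ∈ B, W * (1 / (a : ℝ)) * (1 / (t : ℝ)) * (1 / (q : ℝ)) * C1 :=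
          sum_le_sum fun a ha' => sum_le_sum fun t ht' => sum_le_sum fun q hq => e1 a ha' t ht' q hq
      _ = W * (∑ a ∈ As, 1 / (a : ℝ)) * (∑ t ∈ Ts, 1 / (t : ℝ)) * (C1 * ∑ q ∈ B, 1 / (q : ℝ)) := by
          simp only [← mul_sum, ← sum_mul]
          ring
      _ ≤ _ := by
          refine mul_le_mul_of_nonneg_left (mul_le_mul_of_nonneg_left hB1 hC) ?_
          have s1 : 0 ≤ ∑ a ∈ As, 1 / (a : ℝ) := sum_nonneg fun _ _ => by positivity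
          have s2 : 0 ≤ ∑ t ∈ Ts, 1 / (t : ℝ) := sum_nonneg fun _ _ => by positivity
          positivity
  simp only [sum_sub_distrib] at h3
  rw [h4] at h3
  rw [← hW, mul_sub]
  linarith only [h5, h3]

private theorem T6c_inj {a p t q a' p' t' q' : ℕ} (hp : p.Prime) (hp' : p'.Prime) (hq : q.Prime)
    (hq' : q'.Prime) (h1 : ¬ p ∣ a') (h2 : ¬ p ∣ t') (h3 : p ≠ q') (h4 : ¬ q ∣ a') (h5 : ¬ q ∣ t')
    (hT : a * t = a' * t' → a = a' ∧ t = t') (h : a * p * t * q = a' * p' * t' * q') :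
    a = a' ∧ p = p' ∧ t = t' ∧ q = q' := by
  have e1 : p ∣ a' * p' * t' * q' := by
    rw [← h]
    exact ⟨a * t * q, by ring⟩
  have e2 : p = p' := by
    rcases hp.dvd_mul.mp e1 with f | f
    · rcases hp.dvd_mul.mp f with f | f
      · rcases hp.dvd_mul.mp f with f | f
        · exact absurd f h1
        · exact (Nat.prime_dvd_prime_iff_eq hp hp').mp f
      · exact absurd f h2
    · exact absurd ((Nat.prime_dvd_prime_iff_eq hp hq').mp f) h3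
  subst e2
  have e3 : a * t * q = a' * t' * q' := by
    refine Nat.eq_of_mul_eq_mul_left hp.pos ?_
    linarith only [h]
  have e4 : q ∣ a' * t' * q' := by
    rw [← e3]
    exact ⟨a * t, by ring⟩
  have e5 : q = q' := by
    rcases hq.dvd_mul.mp e4 with f | f
    · rcases hq.dvd_mul.mp f with f | f
      · exact absurd f h4
      · exact absurd f h5
    · exact (Nat.prime_dvd_prime_iff_eq hq hq').mp f
  subst e5
  have e6 : a * t = a' * t' := Nat.eq_of_mul_eq_mul_right hq.pos e3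
  obtain ⟨e7, e8⟩ := hT e6
  exact ⟨e7, rfl, e8, rfl⟩

private theorem T6c_vmul (m : ℕ) (χ : DirichletCharacter ℂ m) (a b : ℕ) (ha : 1 ≤ a) (hb : 1 ≤ b) :
    vv m χ (a * b) = vv m χ a * vv m χ b := by
  unfold vv
  rw [lam_mul a b ha hb, Nat.cast_mul, map_mul]
  push_cast
  ring

private theorem T6c_unit {m : ℕ} {χ : DirichletCharacter ℂ m} (hχ : χ ^ 2 = 1) {a : ℕ}
    (ha : a.Coprime m) : χ (a : ZMod m) * χ (a : ZMod m) = 1 := by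
  have hu : IsUnit (a : ZMod m) := (ZMod.isUnit_iff_coprime a m).mpr ha
  have h1 : (χ ^ 2) (a : ZMod m) = 1 := by rw [hχ, MulChar.one_apply hu]
  rw [pow_two, MulChar.mul_apply] at h1
  exact h1

private theorem T6c_pm {m : ℕ} {χ : DirichletCharacter ℂ m} (hχ : χ ^ 2 = 1) {a : ℕ}
    (ha : a.Coprime m) : vv m χ a = 1 ∨ vv m χ a = -1 := by
  have h1 := T6c_unit hχ ha
  have h2 : vv m χ a * vv m χ a = 1 := by
    unfold vv
    rcases lam_val a with h | h <;> rw [h] <;> push_cast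
    · linear_combination h1
    · linear_combination h1
  have h3 : (vv m χ a - 1) * (vv m χ a + 1) = 0 := by linear_combination h2
  rcases mul_eq_zero.mp h3 with h | h
  · exact Or.inl (by linear_combination h)
  · exact Or.inr (by linear_combination h)

private theorem T6c_good {m : ℕ} {χ : DirichletCharacter ℂ m} {p : ℕ} (hp : p.Prime)
    (h : χ (p : ZMod m) = -1) : vv m χ p = 1 := by
  unfold vv
  rw [lam_prime hp, h]
  push_cast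
  ring

private theorem T6c_badv {m : ℕ} {χ : DirichletCharacter ℂ m} (hχ : χ ^ 2 = 1) {p : ℕ}
    (hp : p.Prime) (hpm : ¬ p ∣ m) (h : χ (p : ZMod m) ≠ -1) : vv m χ p = -1 := by
  have h1 := T6c_unit hχ ((Nat.Prime.coprime_iff_not_dvd hp).mpr hpm)
  have h2 : (χ (p : ZMod m) - 1) * (χ (p : ZMod m) + 1) = 0 := by linear_combination h1
  have h3 : χ (p : ZMod m) = 1 := by
    rcases mul_eq_zero.mp h2 with h' | h'
    · linear_combination h'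
    · exact absurd (by linear_combination h') h
  unfold vv
  rw [lam_prime hp, h3]
  push_cast
  ring

open Classical in
private theorem T6c_E {m : ℕ} [NeZero m] (hm : 2 ≤ m) (η : ℤ) {χ : DirichletCharacter ℂ m}
    (hχ : χ ^ 2 = 1) : ∃ σ : ℂ, (σ = 1 ∨ σ = -1) ∧
    (((cop m (m / 2)).filter (fun x => vv m χ x = -σ)).card : ℝ) ≤ m.totient * wout m η {χ} := by
  obtain ⟨k, hk⟩ : ∃ k : ℂ, k = cc m (FC m η) χ := ⟨_, rfl⟩
  obtain ⟨σ, hσ, hσk⟩ : ∃ σ : ℂ, (σ = 1 ∨ σ = -1) ∧ 1 ≤ ‖σ + k‖ := by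
    rcases le_total 0 k.re with h | h
    · refine ⟨1, Or.inl rfl, ?_⟩
      have h1 := Complex.abs_re_le_norm (1 + k)
      rw [Complex.add_re, Complex.one_re, abs_of_nonneg (by linarith only [h])] at h1
      linarith only [h, h1]
    · refine ⟨-1, Or.inr rfl, ?_⟩
      have h1 := Complex.abs_re_le_norm (-1 + k)
      rw [Complex.add_re, Complex.neg_re, Complex.one_re, abs_of_nonpos (by linarith)] at h1
      linarith
  refine ⟨σ, hσ, ?_⟩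
  refine le_trans ?_ (half_phi m hm η {χ})
  rw [card_eq_sum_ones, Nat.cast_sum]
  refine le_trans (sum_le_sum fun x hx => ?_)
    (sum_le_sum_of_subset_of_nonneg (filter_subset (fun x => vv m χ x = -σ) _)
      fun _ _ _ => by positivity)
  rw [mem_filter, mem_cop] at hx
  obtain ⟨⟨h1, h2, h3⟩, h4⟩ := hx
  have h5 := T6c_unit hχ h3
  have h6 : GU m η {χ} x = k * χ (x : ZMod m) := by
    unfold GU
    rw [sum_singleton, hk]
  have h7 : ‖χ (x : ZMod m)‖ = 1 := by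
    have h8 : ‖χ (x : ZMod m)‖ * ‖χ (x : ZMod m)‖ = 1 := by rw [← norm_mul, h5, norm_one]
    nlinarith only [h8, norm_nonneg (χ (x : ZMod m))]
  have h8 : ‖((lam x : ℤ) : ℂ) - GU m η {χ} x‖ = ‖σ + k‖ := by
    have e1 : χ (x : ZMod m) * (((lam x : ℤ) : ℂ) - GU m η {χ} x) = -(σ + k) := by
      rw [h6]
      unfold vv at h4
      linear_combination h4 - k * h5
    have e2 := congrArg norm e1
    rw [norm_mul, h7, one_mul, norm_neg] at e2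
    exact e2
  rw [h8, Nat.cast_one]
  nlinarith only [hσk]

/-- general form of the three counts -/
private theorem T6c_gen {m : ℕ} {A c1 C1 δ1 δ α π1 π2 θ1 θ2 ξ1 ξ2 ζ : ℝ} (hm : 2 ≤ m) (hA : 1 ≤ A)
    {χ : DirichletCharacter ℂ m} (hζ : 2 * A ≤ (m : ℝ) ^ ζ)
    (hlow : ∀ X : ℝ, (m : ℝ) ^ ξ1 ≤ X → X ≤ m → c1 ≤ ∑ q ∈ PI m X (A * X), 1 / (q : ℝ))
    (hupp : ∀ X : ℝ, (m : ℝ) ^ (1 / 5 : ℝ) ≤ X → ∑ q ∈ PI m X (A * X), 1 / (q : ℝ) ≤ C1)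
    (hC : 0 ≤ C1) (hδ1 : ∑ q ∈ Bad m χ δ (49 / 100), 1 / (q : ℝ) ≤ δ1)
    (n1 : ξ1 + ζ ≤ 1 - α - π2 - θ2) (n2 : 1 - π1 - θ1 ≤ ξ2)
    (n3 : 1 / 5 + ζ ≤ 1 - α - 49 / 100 - θ2) (n4 : δ ≤ ξ1) (n5 : ξ2 ≤ 49 / 100) (n7 : α ≤ ξ1)
    (n8 : α ≤ π1) (n9 : θ2 ≤ ξ1) (n10 : θ2 ≤ π1) (n11 : π2 ≤ ξ1 ∨ ξ2 ≤ π1)
    {As Ps Ts E : Finset ℕ} {ρ ρ' τ : ℂ}
    (ha : ∀ a ∈ As, 1 ≤ a ∧ (a : ℝ) ≤ (m : ℝ) ^ α ∧ a.Coprime m ∧ vv m χ a = ρ)
    (hp : ∀ p ∈ Ps, p.Prime ∧ ¬ p ∣ m ∧ (m : ℝ) ^ π1 < p ∧ (p : ℝ) ≤ (m : ℝ) ^ π2 ∧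
      vv m χ p = ρ')
    (ht : ∀ t ∈ Ts, 1 ≤ t ∧ (m : ℝ) ^ θ1 ≤ t ∧ (t : ℝ) ≤ (m : ℝ) ^ θ2 ∧ t.Coprime m ∧
      vv m χ t = 1)
    (hT : (∀ t ∈ Ts, t = 1) ∨ (α ≤ θ1 ∧ ∀ t ∈ Ts, t.Prime ∧ (m : ℝ) ^ θ1 < t))
    (hρ : ρ * ρ' = τ) (hE : ∀ x ∈ cop m (m / 2), vv m χ x = τ → x ∈ E) :
    (m : ℝ) / (2 * A) * (∑ a ∈ As, 1 / (a : ℝ)) * (∑ t ∈ Ts, 1 / (t : ℝ)) *
      (c1 * (∑ p ∈ Ps, 1 / (p : ℝ)) - C1 * δ1) ≤ (E.card : ℝ) := by
  classical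
  have hm1 : (1 : ℝ) ≤ m := by exact_mod_cast (by omega : 1 ≤ m)
  have hm0 : (0 : ℝ) < m := by linarith only [hm1]
  have hA0 : 0 < A := by linarith only [hA]
  have pw : ∀ a b : ℝ, a ≤ b → (m : ℝ) ^ a ≤ (m : ℝ) ^ b := fun a b h =>
    Real.rpow_le_rpow_of_exponent_le hm1 h
  have pa : ∀ a b : ℝ, (m : ℝ) ^ a * (m : ℝ) ^ b = (m : ℝ) ^ (a + b) := fun a b =>
    (Real.rpow_add hm0 a b).symm
  have pp : ∀ a : ℝ, 0 < (m : ℝ) ^ a := fun a => Real.rpow_pos_of_pos hm0 a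
  -- lower bound of X
  have hXl : ∀ (a p t : ℕ) (e1 e2 e3 e : ℝ), 1 ≤ a → 1 ≤ p → 1 ≤ t → (a : ℝ) ≤ (m : ℝ) ^ e1 →
      (p : ℝ) ≤ (m : ℝ) ^ e2 → (t : ℝ) ≤ (m : ℝ) ^ e3 → e + ζ ≤ 1 - e1 - e2 - e3 →
      (m : ℝ) ^ e ≤ T6c_X m A a p t := by
    intro a p t e1 e2 e3 e h1 h2 h3 h4 h5 h6 h7
    have h1' : (0 : ℝ) < a := by exact_mod_cast h1
    have h2' : (0 : ℝ) < p := by exact_mod_cast h2
    have h3' : (0 : ℝ) < t := by exact_mod_cast h3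
    unfold T6c_X
    rw [le_div_iff₀ (by positivity)]
    calc (m : ℝ) ^ e * (2 * A * a * p * t)
        ≤ (m : ℝ) ^ e * ((m : ℝ) ^ ζ * (m : ℝ) ^ e1 * (m : ℝ) ^ e2 * (m : ℝ) ^ e3) := by
          refine mul_le_mul_of_nonneg_left ?_ (pp e).le
          refine mul_le_mul (mul_le_mul (mul_le_mul hζ h4 h1'.le (pp _).le) h5 h2'.le ?_) h6 h3'.le ?_
          · positivity
          · positivity
      _ = (m : ℝ) ^ (e + (ζ + e1 + e2 + e3)) := by rw [pa, pa, pa, pa]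
      _ ≤ (m : ℝ) ^ (1 : ℝ) := pw _ _ (by linarith only [h7])
      _ = m := Real.rpow_one _
  -- upper bound of A X
  have hXu : ∀ a p t : ℕ, 1 ≤ a → (m : ℝ) ^ π1 ≤ p → (m : ℝ) ^ θ1 ≤ t →
      A * T6c_X m A a p t ≤ (m : ℝ) ^ ξ2 := by
    intro a p t h1 h2 h3
    have h1' : (1 : ℝ) ≤ a := by exact_mod_cast h1
    have h2' : (0 : ℝ) < p := (pp _).trans_le h2
    have h3' : (0 : ℝ) < t := (pp _).trans_le h3
    have e1 : A * T6c_X m A a p t = m / (2 * a * p * t) := by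
      unfold T6c_X
      field_simp
    rw [e1, div_le_iff₀ (by positivity)]
    have e2 : (m : ℝ) ≤ (m : ℝ) ^ ξ2 * ((m : ℝ) ^ π1 * (m : ℝ) ^ θ1) := by
      rw [pa, pa]
      calc (m : ℝ) = (m : ℝ) ^ (1 : ℝ) := (Real.rpow_one _).symm
        _ ≤ _ := pw _ _ (by linarith only [n2])
    refine e2.trans (mul_le_mul_of_nonneg_left ?_ (pp _).le)
    calc (m : ℝ) ^ π1 * (m : ℝ) ^ θ1 ≤ (p : ℝ) * t := mul_le_mul h2 h3 (pp _).le h2'.le
      _ ≤ 2 * a * (p * t) := by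
          have : 0 < (p : ℝ) * t := by positivity
          nlinarith only [this, h1']
      _ = _ := by ring
  -- the elements of the blocks
  have hQ : ∀ a ∈ As, ∀ p ∈ Ps, ∀ t ∈ Ts,
      ∀ q ∈ PI m (T6c_X m A a p t) (A * T6c_X m A a p t) \ Bad m χ δ (49 / 100),
      q.Prime ∧ ¬ q ∣ m ∧ (m : ℝ) ^ ξ1 < q ∧ (q : ℝ) ≤ (m : ℝ) ^ ξ2 ∧ vv m χ q = 1 ∧
        (q : ℝ) ≤ A * T6c_X m A a p t := by
    intro a ha' p hp' t ht' q hq
    obtain ⟨a1, a2, a3, a4⟩ := ha a ha'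
    obtain ⟨p1, p2, p3, p4, p5⟩ := hp p hp'
    obtain ⟨t1, t2, t3, t4, t5⟩ := ht t ht'
    have x1 := hXl a p t α π2 θ2 ξ1 a1 p1.one_lt.le t1 a2 p4 t3 n1
    have x2 := hXu a p t a1 p3.le t2
    have x3 : 0 < T6c_X m A a p t := (pp _).trans_le x1
    rw [mem_sdiff, mem_PI (by positivity)] at hq
    obtain ⟨⟨q1, q2, q3, q4⟩, q5⟩ := hq
    have q6 : (m : ℝ) ^ ξ1 < q := x1.trans_lt q3
    have q7 : (q : ℝ) ≤ (m : ℝ) ^ ξ2 := q4.trans x2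
    refine ⟨q1, q2, q6, q7, T6c_good q1 ?_, q4⟩
    by_contra hne
    exact q5 (mem_Bad.mpr ⟨q1, q2, (pw _ _ n4).trans_lt q6, q7.trans (pw _ _ n5), hne⟩)
  refine T6c_core (by omega) hA (fun a h => (ha a h).1) (fun p h => ⟨(hp p h).1, (hp p h).2.1⟩)
    (fun t h => (ht t h).1) (fun q hq => (mem_Bad.mp hq).1.one_lt.le) hδ1 hC ?_ ?_ ?_ ?_
  · intro a ha' p hp' t ht'
    obtain ⟨a1, a2, a3, a4⟩ := ha a ha'
    obtain ⟨p1, p2, p3, p4, p5⟩ := hp p hp'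
    obtain ⟨t1, t2, t3, t4, t5⟩ := ht t ht'
    refine hlow _ (hXl a p t α π2 θ2 ξ1 a1 p1.one_lt.le t1 a2 p4 t3 n1) ?_
    have a1' : (1 : ℝ) ≤ a := by exact_mod_cast a1
    have p1' : (1 : ℝ) ≤ p := by exact_mod_cast p1.one_lt.le
    have t1' : (1 : ℝ) ≤ t := by exact_mod_cast t1
    unfold T6c_X
    refine div_le_self hm0.le ?_
    have y1 : 1 ≤ 2 * A * a := by nlinarith only [a1', hA]
    have y2 : 1 ≤ 2 * A * a * p := one_le_mul_of_one_le_of_one_le y1 p1'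
    exact one_le_mul_of_one_le_of_one_le y2 t1'
  · intro a ha' t ht' q hq
    obtain ⟨a1, a2, a3, a4⟩ := ha a ha'
    obtain ⟨t1, t2, t3, t4, t5⟩ := ht t ht'
    obtain ⟨q1, q2, q3, q4, q5⟩ := mem_Bad.mp hq
    exact hupp _ (hXl a q t α (49 / 100) θ2 (1 / 5) a1 q1.one_lt.le t1 a2 q4 t3 n3)
  · intro a ha' p hp' t ht' q hq a' ha'' p' hp'' t' ht'' q' hq' heq
    obtain ⟨a1, a2, a3, a4⟩ := ha a' ha''
    obtain ⟨p1, p2, p3, p4, p5⟩ := hp p hp'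
    obtain ⟨p1', p2', p3', p4', p5'⟩ := hp p' hp''
    obtain ⟨t1, t2, t3, t4, t5⟩ := ht t' ht''
    obtain ⟨q1, q2, q3, q4, q5, q6⟩ := hQ a ha' p hp' t ht' q hq
    obtain ⟨q1', q2', q3', q4', q5', q6'⟩ := hQ a' ha'' p' hp'' t' ht'' q' hq'
    have lt : ∀ (u v : ℕ) (e1 e2 : ℝ), 1 ≤ u → (u : ℝ) ≤ (m : ℝ) ^ e1 → (m : ℝ) ^ e2 < v →
        e1 ≤ e2 → ¬ v ∣ u := by
      intro u v e1 e2 h1 h2 h3 h4 h5
      have h6 : (v : ℝ) ≤ u := by exact_mod_cast Nat.le_of_dvd h1 h5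
      have h7 := pw _ _ h4
      linarith only [h2, h3, h6, h7]
    refine T6c_inj p1 p1' q1 q1' (lt a' p α π1 a1 a2 p3 n8) (lt t' p θ2 π1 t1 t3 p3 n10) ?_
      (lt a' q α ξ1 a1 a2 q3 n7) (lt t' q θ2 ξ1 t1 t3 q3 n9) ?_ heq
    · rintro rfl
      rcases n11 with h | h
      · have := pw _ _ h
        linarith only [p4, q3', this]
      · have := pw _ _ h
        linarith only [p3, q4', this]
    · intro hat
      rcases hT with h | ⟨h, h'⟩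
      · rw [h t ht', h t' ht'', mul_one, mul_one] at hat
        exact ⟨hat, by rw [h t ht', h t' ht'']⟩
      · obtain ⟨u1, u2⟩ := h' t ht'
        obtain ⟨u3, u4⟩ := h' t' ht''
        have u5 : t ∣ a' * t' := ⟨a, by rw [← hat, mul_comm]⟩
        rcases u1.dvd_mul.mp u5 with u6 | u6
        · exact absurd u6 (lt a' t α θ1 a1 a2 u2 h)
        · have u7 : t = t' := (Nat.prime_dvd_prime_iff_eq u1 u3).mp u6
          subst u7
          exact ⟨Nat.eq_of_mul_eq_mul_right u1.pos hat, rfl⟩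
  · intro a ha' p hp' t ht' q hq
    obtain ⟨a1, a2, a3, a4⟩ := ha a ha'
    obtain ⟨p1, p2, p3, p4, p5⟩ := hp p hp'
    obtain ⟨t1, t2, t3, t4, t5⟩ := ht t ht'
    obtain ⟨q1, q2, q3, q4, q5, q6⟩ := hQ a ha' p hp' t ht' q hq
    refine hE _ ?_ ?_
    · rw [mem_cop]
      refine ⟨Nat.mul_pos (Nat.mul_pos (Nat.mul_pos a1 p1.pos) t1) q1.pos, ?_, ?_⟩
      · rw [Nat.le_div_iff_mul_le (by norm_num)]
        have a1' : (0 : ℝ) < a := by exact_mod_cast a1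
        have p1' : (0 : ℝ) < p := by exact_mod_cast p1.pos
        have t1' : (0 : ℝ) < t := by exact_mod_cast t1
        have e1 : A * T6c_X m A a p t = m / (2 * a * p * t) := by
          unfold T6c_X
          field_simp
        rw [e1, le_div_iff₀ (by positivity)] at q6
        have e2 : ((a * p * t * q * 2 : ℕ) : ℝ) ≤ m := by
          push_cast
          linarith only [q6]
        exact_mod_cast e2
      · exact Nat.Coprime.mul_left (Nat.Coprime.mul_left (Nat.Coprime.mul_left a3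
          ((Nat.Prime.coprime_iff_not_dvd p1).mpr p2)) t4)
          ((Nat.Prime.coprime_iff_not_dvd q1).mpr q2)
    · rw [T6c_vmul _ _ _ _ (Nat.mul_pos (Nat.mul_pos a1 p1.pos) t1) q1.pos,
        T6c_vmul _ _ _ _ (Nat.mul_pos a1 p1.pos) t1, T6c_vmul _ _ _ _ a1 p1.pos, a4, p5, t5, q5,
        mul_one, mul_one]
      exact hρ

/-- the good primes of an interval -/
private theorem T6c_PIg {m : ℕ} {χ : DirichletCharacter ℂ m} {δ θ1 θ2 s δ1 : ℝ}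
    (hm : (1 : ℝ) ≤ m) (hδ : δ ≤ θ1) (hθ : θ2 ≤ 49 / 100)
    (hB : ∑ q ∈ Bad m χ δ (49 / 100), 1 / (q : ℝ) ≤ δ1)
    (h : s ≤ ∑ p ∈ PI m ((m : ℝ) ^ θ1) ((m : ℝ) ^ θ2), 1 / (p : ℝ)) :
    (∀ t ∈ PI m ((m : ℝ) ^ θ1) ((m : ℝ) ^ θ2) \ Bad m χ δ (49 / 100),
      t.Prime ∧ ¬ t ∣ m ∧ (m : ℝ) ^ θ1 < t ∧ (t : ℝ) ≤ (m : ℝ) ^ θ2 ∧ vv m χ t = 1) ∧
    s - δ1 ≤ ∑ t ∈ PI m ((m : ℝ) ^ θ1) ((m : ℝ) ^ θ2) \ Bad m χ δ (49 / 100), 1 / (t : ℝ) := by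
  classical
  constructor
  · intro t ht
    rw [mem_sdiff, mem_PI (by positivity)] at ht
    obtain ⟨⟨t1, t2, t3, t4⟩, t5⟩ := ht
    refine ⟨t1, t2, t3, t4, T6c_good t1 ?_⟩
    by_contra hne
    exact t5 (mem_Bad.mpr ⟨t1, t2, (Real.rpow_le_rpow_of_exponent_le hm hδ).trans_lt t3,
      t4.trans (Real.rpow_le_rpow_of_exponent_le hm hθ), hne⟩)
  · have h1 : ∑ q ∈ PI m ((m : ℝ) ^ θ1) ((m : ℝ) ^ θ2) \ Bad m χ δ (49 / 100), 1 / (q : ℝ) +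
        ∑ q ∈ PI m ((m : ℝ) ^ θ1) ((m : ℝ) ^ θ2) ∩ Bad m χ δ (49 / 100), 1 / (q : ℝ) =
        ∑ q ∈ PI m ((m : ℝ) ^ θ1) ((m : ℝ) ^ θ2), 1 / (q : ℝ) := by
      rw [← sum_union (disjoint_sdiff_inter _ _), sdiff_union_inter]
    have h2 : ∑ q ∈ PI m ((m : ℝ) ^ θ1) ((m : ℝ) ^ θ2) ∩ Bad m χ δ (49 / 100), 1 / (q : ℝ) ≤
        ∑ q ∈ Bad m χ δ (49 / 100), 1 / (q : ℝ) :=
      sum_le_sum_of_subset_of_nonneg inter_subset_right fun _ _ _ => by positivity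
    linarith only [hB, h, h1, h2]

/-- the last computation -/
private theorem T6c_fin {m φ A c C' L δ1 δ2 Sa ST SP : ℝ} (hm : 0 < m) (hφ : 0 < φ) (hA : 2 ≤ A)
    (hc : 0 < c) (hC : 0 < C') (hL : 0 < L) (hδ1 : 0 < δ1) (hδ2 : 0 < δ2)
    (h1 : φ / m * L * (δ2 / 16) ≤ Sa) (h2 : 3 / 100 ≤ ST)
    (h : m / (2 * A) * Sa * ST * (c / L * SP - C' / L * δ1) ≤ φ * δ1) :
    SP ≤ (C' + 1100 * A / δ2) / c * δ1 := by
  have hA0 : 0 < A := by linarith only [hA]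
  rcases le_total (c * SP) (C' * δ1) with h3 | h3
  · rw [div_mul_eq_mul_div, le_div_iff₀ hc]
    have : 0 ≤ 1100 * A / δ2 * δ1 := by positivity
    linarith only [h3, this]
  · have h4 : 0 ≤ c * SP - C' * δ1 := by linarith only [h3]
    have h5 : c / L * SP - C' / L * δ1 = (c * SP - C' * δ1) / L := by
      field_simp
    rw [h5] at h
    have h6 : m / (2 * A) * (φ / m * L * (δ2 / 16)) * (3 / 100) * ((c * SP - C' * δ1) / L) ≤
        φ * δ1 := by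
      refine le_trans ?_ h
      refine mul_le_mul_of_nonneg_right ?_ (by positivity)
      have e1 : 0 ≤ φ / m * L * (δ2 / 16) := by positivity
      refine mul_le_mul (mul_le_mul_of_nonneg_left h1 (by positivity)) h2 (by norm_num) ?_
      have : 0 ≤ Sa := e1.trans h1
      positivity
    have h7 : m / (2 * A) * (φ / m * L * (δ2 / 16)) * (3 / 100) * ((c * SP - C' * δ1) / L) =
        φ * (3 * δ2 / (3200 * A) * (c * SP - C' * δ1)) := by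
      field_simp
      ring
    rw [h7] at h6
    have h8 : 3 * δ2 / (3200 * A) * (c * SP - C' * δ1) ≤ δ1 := le_of_mul_le_mul_left h6 hφ
    rw [div_mul_eq_mul_div, div_le_iff₀ (by positivity)] at h8
    rw [div_mul_eq_mul_div, le_div_iff₀ hc, add_mul, div_mul_eq_mul_div, ← sub_le_iff_le_add',
      le_div_iff₀ hδ2]
    nlinarith only [h8, hA0, hδ1, mul_pos hA0 hδ1]

private theorem T6c_floor {m : ℕ} {α : ℝ} (hα : 0 < α) (hm : (4 : ℝ) ≤ (m : ℝ) ^ α)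
    (hm1 : (1 : ℝ) ≤ m) : 1 ≤ ⌊(m : ℝ) ^ α⌋₊ ∧ α / 2 * Real.log m ≤ Real.log ⌊(m : ℝ) ^ α⌋₊ := by
  have hm0 : (0 : ℝ) < m := by linarith only [hm1]
  have h1 : 1 ≤ ⌊(m : ℝ) ^ α⌋₊ := by
    rw [Nat.one_le_floor_iff]
    linarith only [hm]
  refine ⟨h1, ?_⟩
  have h2 : (m : ℝ) ^ α - 1 < ⌊(m : ℝ) ^ α⌋₊ := Nat.sub_one_lt_floor _
  have h3 : (m : ℝ) ^ (α / 2) * (m : ℝ) ^ (α / 2) = (m : ℝ) ^ α := by
    rw [← Real.rpow_add hm0]
    congr 1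
    ring
  have h4 : 0 < (m : ℝ) ^ (α / 2) := Real.rpow_pos_of_pos hm0 _
  have h5 : (m : ℝ) ^ (α / 2) ≤ ⌊(m : ℝ) ^ α⌋₊ := by
    have h6 : 2 ≤ (m : ℝ) ^ (α / 2) := by nlinarith only [hm, h3, h4]
    nlinarith only [hm, h2, h3, h4, h6]
  calc α / 2 * Real.log m = Real.log ((m : ℝ) ^ (α / 2)) := (Real.log_rpow hm0 _).symm
    _ ≤ _ := Real.log_le_log h4 h5

open Classical in
private theorem T6c_main {m : ℕ} [NeZero m] {A c C' δ1 δ δ2 : ℝ} (hm : 2 ≤ m) (hA : 2 ≤ A)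
    (hc : 0 < c) (hC' : 0 < C') (hδ1 : 0 < δ1) (hδ1' : δ1 ≤ 1 / 1000) (hδ1c : C' * δ1 ≤ c / 100)
    (hδ1a : δ1 * (32 * A) ≤ 6 / 10000 * c * δ2)
    (hδ2 : 0 < δ2) (hδ3 : δ2 ≤ 1 / 100) (hδ : 0 < δ) (hδδ : δ ≤ δ2 / 8)
    {χ : DirichletCharacter ℂ m} (hχ : χ ^ 2 = 1) {η : ℤ}
    (hζ : 2 * A ≤ (m : ℝ) ^ (δ2 / 8)) (h4 : (4 : ℝ) ≤ (m : ℝ) ^ (δ2 / 4))
    (hlow1 : ∀ X : ℝ, (m : ℝ) ^ (δ2 / 2) ≤ X → X ≤ m →
      c / Real.log m ≤ ∑ q ∈ PI m X (A * X), 1 / (q : ℝ))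
    (hlow2 : ∀ X : ℝ, (m : ℝ) ^ (28 / 100 : ℝ) ≤ X → X ≤ m →
      c / Real.log m ≤ ∑ q ∈ PI m X (A * X), 1 / (q : ℝ))
    (hlow3 : ∀ X : ℝ, (m : ℝ) ^ (42 / 100 : ℝ) ≤ X → X ≤ m →
      c / Real.log m ≤ ∑ q ∈ PI m X (A * X), 1 / (q : ℝ))
    (hupp : ∀ X : ℝ, (m : ℝ) ^ (1 / 5 : ℝ) ≤ X →
      ∑ q ∈ PI m X (A * X), 1 / (q : ℝ) ≤ C' / Real.log m)
    (hm1 : 31 / 1000 ≤ ∑ p ∈ PI m ((m : ℝ) ^ (30 / 100 : ℝ)) ((m : ℝ) ^ (31 / 100 : ℝ)), 1 / (p : ℝ))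
    (hm2 : 31 / 1000 ≤ ∑ p ∈ PI m ((m : ℝ) ^ (25 / 100 : ℝ)) ((m : ℝ) ^ (26 / 100 : ℝ)), 1 / (p : ℝ))
    (hm3 : 31 / 1000 ≤ ∑ p ∈ PI m ((m : ℝ) ^ (10 / 100 : ℝ)) ((m : ℝ) ^ (11 / 100 : ℝ)), 1 / (p : ℝ))
    (hw : wout m η {χ} ≤ δ1) (hB : ∑ q ∈ Bad m χ δ (49 / 100), 1 / (q : ℝ) ≤ δ1) :
    ∑ q ∈ Bad m χ δ (1 - δ2), 1 / (q : ℝ) ≤ δ1 + 2 * ((C' + 1100 * A / δ2) / c * δ1) := by
  have hmr : (2 : ℝ) ≤ m := by exact_mod_cast hm
  have hm1' : (1 : ℝ) ≤ m := by linarith only [hδ1, hδ1', hmr]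
  have hm0 : (0 : ℝ) < m := by linarith only [hδ1, hδ1', hmr]
  have hA0 : 0 < A := by linarith only [hA, hδ1, hδ1']
  have hL : 0 < Real.log m := Real.log_pos (by linarith only [hδ1, hδ1', hmr])
  have hφn : 0 < m.totient := Nat.totient_pos.mpr (by omega)
  have hφ : (0 : ℝ) < m.totient := by exact_mod_cast hφn
  obtain ⟨L, hLd⟩ : ∃ L : ℝ, L = Real.log m := ⟨_, rfl⟩
  obtain ⟨φ, hφd⟩ : ∃ φ : ℝ, φ = m.totient := ⟨_, rfl⟩
  obtain ⟨σ, hσ, hE⟩ := T6c_E hm η hχ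
  have hE' : (((cop m (m / 2)).filter (fun x => vv m χ x = -σ)).card : ℝ) ≤ φ * δ1 := by
    rw [hφd]
    exact hE.trans (mul_le_mul_of_nonneg_left hw hφ.le)
  have hEm : ∀ x ∈ cop m (m / 2), vv m χ x = -σ →
      x ∈ (cop m (m / 2)).filter (fun x => vv m χ x = -σ) := by
    intro x h1 h2
    rw [mem_filter]
    exact ⟨h1, h2⟩
  obtain ⟨g1, s1⟩ := T6c_PIg (θ1 := 30 / 100) (θ2 := 31 / 100) hm1' (by linarith only [hδ1, hδ1', hδ3, hδδ]) (by norm_num) hB hm1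
  obtain ⟨g2, s2⟩ := T6c_PIg (θ1 := 25 / 100) (θ2 := 26 / 100) hm1' (by linarith only [hδ1, hδ1', hδ3, hδδ]) (by norm_num) hB hm2
  obtain ⟨g3, s3⟩ := T6c_PIg (θ1 := 10 / 100) (θ2 := 11 / 100) hm1' (by linarith only [hδ1, hδ1', hδ3, hδδ]) (by norm_num) hB hm3
  obtain ⟨x1, x2⟩ := T6c_floor (by positivity) h4 hm1'
  obtain ⟨x0, hx0⟩ : ∃ x0 : ℕ, x0 = ⌊(m : ℝ) ^ (δ2 / 4)⌋₊ := ⟨_, rfl⟩
  rw [← hx0] at x1 x2
  have hamem : ∀ (ρ : ℂ), ∀ a ∈ (cop m x0).filter (fun a => vv m χ a = ρ),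
      1 ≤ a ∧ (a : ℝ) ≤ (m : ℝ) ^ (δ2 / 4) ∧ a.Coprime m ∧ vv m χ a = ρ := by
    intro ρ a ha
    rw [mem_filter, mem_cop] at ha
    obtain ⟨⟨a1, a2, a3⟩, a4⟩ := ha
    refine ⟨a1, ?_, a3, a4⟩
    rw [hx0] at a2
    exact (Nat.le_floor_iff (by positivity)).mp a2
  -- use 1
  have u1 := T6c_gen (A := A) (c1 := c / Real.log m) (C1 := C' / Real.log m) (δ1 := δ1) (δ := δ)
    (α := δ2 / 4) (π1 := 30 / 100) (π2 := 31 / 100) (θ1 := 25 / 100) (θ2 := 26 / 100)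
    (ξ1 := 42 / 100) (ξ2 := 45 / 100) (ζ := δ2 / 8) (ρ := -σ) (ρ' := 1) (τ := -σ)
    (As := (cop m x0).filter (fun a => vv m χ a = -σ)) hm (by linarith only [hA, hδ1, hδ1']) hζ hlow3 hupp
    (by positivity) hB (by linarith only [hδ1, hδ1', hδ3]) (by norm_num) (by linarith only [hδ1, hδ1', hδ3]) (by linarith only [hδ1, hδ1', hδ3, hδδ]) (by norm_num)
    (by linarith only [hδ1, hδ1', hδ3]) (by linarith only [hδ1, hδ1', hδ3]) (by norm_num) (by norm_num) (Or.inl (by norm_num)) (hamem _)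
    (fun p hp => g1 p hp)
    (fun t ht => by
      obtain ⟨t1, t2, t3, t4, t5⟩ := g2 t ht
      exact ⟨t1.one_lt.le, t3.le, t4, (Nat.Prime.coprime_iff_not_dvd t1).mpr t2, t5⟩)
    (Or.inr ⟨by linarith only [hδ1, hδ1', hδ3], fun t ht => ⟨(g2 t ht).1, (g2 t ht).2.2.1⟩⟩) (by ring) hEm
  have u1' := u1.trans hE'
  -- the `a` with the value `σ`
  have hsplit : ∑ a ∈ cop m x0, 1 / (a : ℝ) =
      ∑ a ∈ (cop m x0).filter (fun a => vv m χ a = σ), 1 / (a : ℝ) +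
      ∑ a ∈ (cop m x0).filter (fun a => vv m χ a = -σ), 1 / (a : ℝ) := by
    rw [← sum_filter_add_sum_filter_not (cop m x0) (fun a => vv m χ a = σ)]
    congr 1
    refine sum_congr (filter_congr fun a ha => ?_) fun _ _ => rfl
    rw [mem_cop] at ha
    rcases T6c_pm hχ ha.2.2 with h | h <;> rcases hσ with h' | h' <;> rw [h, h'] <;> norm_num
  have hharm := cop_harm m x0 (by omega) x1
  have hSm : ∑ a ∈ (cop m x0).filter (fun a => vv m χ a = -σ), 1 / (a : ℝ) ≤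
      φ / m * L * (δ2 / 16) := by
    obtain ⟨S, hS⟩ : ∃ S : ℝ, S = ∑ a ∈ (cop m x0).filter (fun a => vv m χ a = -σ), 1 / (a : ℝ) :=
      ⟨_, rfl⟩
    rw [← hS] at u1' ⊢
    have hS0 : 0 ≤ S := by rw [hS]; exact sum_nonneg fun _ _ => by positivity
    have e1 : 2 / 100 * c / L ≤ c / Real.log m * ∑ p ∈ PI m ((m : ℝ) ^ (30 / 100 : ℝ))
        ((m : ℝ) ^ (31 / 100 : ℝ)) \ Bad m χ δ (49 / 100), 1 / (p : ℝ) - C' / Real.log m * δ1 := by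
      rw [← hLd]
      rw [← hLd] at hL
      have e2 : c / L * (3 / 100) ≤ c / L * ∑ p ∈ PI m ((m : ℝ) ^ (30 / 100 : ℝ))
        ((m : ℝ) ^ (31 / 100 : ℝ)) \ Bad m χ δ (49 / 100), 1 / (p : ℝ) :=
        mul_le_mul_of_nonneg_left (by linarith only [hδ1', s1]) (by positivity)
      have e3 : C' / L * δ1 ≤ c / L * (1 / 100) := by
        rw [div_mul_eq_mul_div, div_mul_eq_mul_div]
        exact div_le_div_of_nonneg_right (by linarith only [hδ1c]) hL.le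
      have e4 : 2 / 100 * c / L = c / L * (3 / 100) - c / L * (1 / 100) := by ring
      linarith only [e2, e3, e4]
    have e5 : (m : ℝ) / (2 * A) * S * (3 / 100) * (2 / 100 * c / L) ≤ φ * δ1 := by
      refine le_trans ?_ u1'
      rw [← hLd] at hL
      refine mul_le_mul (mul_le_mul_of_nonneg_left (by linarith only [hδ1', s2]) (by positivity)) e1
        (by positivity) ?_
      have : 0 ≤ ∑ t ∈ PI m ((m : ℝ) ^ (25 / 100 : ℝ)) ((m : ℝ) ^ (26 / 100 : ℝ)) \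
        Bad m χ δ (49 / 100), 1 / (t : ℝ) := sum_nonneg fun _ _ => by positivity
      positivity
    rw [← hLd] at hL
    rw [← hφd] at hφ
    have e6 : (m : ℝ) / (2 * A) * S * (3 / 100) * (2 / 100 * c / L) =
        (m * (6 / 10000) * c * S) / (2 * A * L) := by
      field_simp
      ring
    rw [e6, div_le_iff₀ (by positivity)] at e5
    have e7 : φ / m * L * (δ2 / 16) = (φ * L * δ2) / (16 * m) := by
      field_simp
    rw [e7, le_div_iff₀ (by positivity)]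
    have e8 : φ * δ1 * (2 * A * L) * 16 ≤ φ * L * (6 / 10000 * c * δ2) := by
      have := mul_le_mul_of_nonneg_left hδ1a (by positivity : 0 ≤ φ * L)
      linarith only [this]
    have e9 : (S * (16 * m)) * (6 / 10000 * c) ≤ (φ * L * δ2) * (6 / 10000 * c) := by linarith only [e5, e8]
    exact le_of_mul_le_mul_right e9 (by positivity)
  have hSp : φ / m * L * (δ2 / 16) ≤
      ∑ a ∈ (cop m x0).filter (fun a => vv m χ a = σ), 1 / (a : ℝ) := by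
    have e1 : φ / m * (δ2 / 4 / 2 * L) ≤ φ / m * Real.log x0 := by
      rw [hLd]
      refine mul_le_mul_of_nonneg_left x2 ?_
      rw [hφd]
      positivity
    rw [← hφd] at hharm
    have e2 : φ / m * (δ2 / 4 / 2 * L) = φ / m * L * (δ2 / 16) + φ / m * L * (δ2 / 16) := by ring
    linarith only [hsplit, hharm, hSm, e1]
  have hbad : ∀ (β1 β2 : ℝ), ∀ p ∈ Bad m χ β1 β2, p.Prime ∧ ¬ p ∣ m ∧ (m : ℝ) ^ β1 < p ∧
      (p : ℝ) ≤ (m : ℝ) ^ β2 ∧ vv m χ p = -1 := by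
    intro β1 β2 p hp
    obtain ⟨p1, p2, p3, p4, p5⟩ := mem_Bad.mp hp
    exact ⟨p1, p2, p3, p4, T6c_badv hχ p1 p2 p5⟩
  -- use 2
  have u2 := T6c_gen (A := A) (c1 := c / Real.log m) (C1 := C' / Real.log m) (δ1 := δ1) (δ := δ)
    (α := δ2 / 4) (π1 := 49 / 100) (π2 := 6 / 10) (θ1 := 10 / 100) (θ2 := 11 / 100)
    (ξ1 := 28 / 100) (ξ2 := 41 / 100) (ζ := δ2 / 8) (ρ := σ) (ρ' := -1) (τ := -σ)
    (As := (cop m x0).filter (fun a => vv m χ a = σ)) hm (by linarith only [hA, hδ1, hδ1']) hζ hlow2 hupp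
    (by positivity) hB (by linarith only [hδ1, hδ1', hδ3]) (by norm_num) (by linarith only [hδ1, hδ1', hδ3]) (by linarith only [hδ1, hδ1', hδ3, hδδ]) (by norm_num)
    (by linarith only [hδ1, hδ1', hδ3]) (by linarith only [hδ1, hδ1', hδ3]) (by norm_num) (by norm_num) (Or.inr (by norm_num)) (hamem _)
    (hbad (49 / 100) (6 / 10))
    (fun t ht => by
      obtain ⟨t1, t2, t3, t4, t5⟩ := g3 t ht
      exact ⟨t1.one_lt.le, t3.le, t4, (Nat.Prime.coprime_iff_not_dvd t1).mpr t2, t5⟩)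
    (Or.inr ⟨by linarith only [hδ1, hδ1', hδ3], fun t ht => ⟨(g3 t ht).1, (g3 t ht).2.2.1⟩⟩) (by ring) hEm
  -- use 3
  have u3 := T6c_gen (A := A) (c1 := c / Real.log m) (C1 := C' / Real.log m) (δ1 := δ1) (δ := δ)
    (α := δ2 / 4) (π1 := 6 / 10) (π2 := 1 - δ2) (θ1 := 0) (θ2 := 0)
    (ξ1 := δ2 / 2) (ξ2 := 4 / 10) (ζ := δ2 / 8) (ρ := σ) (ρ' := -1) (τ := -σ)
    (As := (cop m x0).filter (fun a => vv m χ a = σ)) (Ts := {1}) hm (by linarith only [hA, hδ1, hδ1']) hζ hlow1 hupp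
    (by positivity) hB (by linarith only [hδ, hδδ]) (by norm_num) (by linarith only [hδ1, hδ1', hδ3]) (by linarith only [hδ, hδδ]) (by norm_num)
    (by linarith only [hδ, hδδ]) (by linarith only [hδ1, hδ1', hδ3]) (by linarith only [hδ, hδδ]) (by norm_num) (Or.inr (by norm_num)) (hamem _)
    (hbad (6 / 10) (1 - δ2))
    (fun t ht => by
      rw [mem_singleton] at ht
      subst ht
      refine ⟨le_rfl, by simp, by simp, Nat.coprime_one_left m, ?_⟩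
      rcases T6c_pm hχ (Nat.coprime_one_left m) with h | h
      · exact h
      · have := T6c_vmul m χ 1 1 le_rfl le_rfl
        rw [mul_one, h] at this
        norm_num at this)
    (Or.inl fun t ht => mem_singleton.mp ht) (by ring) hEm
  have u2' := u2.trans hE'
  have u3' := u3.trans hE'
  rw [← hLd] at hL u2' u3'
  rw [← hφd] at hφ
  have v2 := T6c_fin hm0 hφ hA hc hC' hL hδ1 hδ2 hSp (by linarith only [hδ1', s3]) u2'
  have v3 := T6c_fin hm0 hφ hA hc hC' hL hδ1 hδ2 hSp (by norm_num) u3'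
  have hsub : Bad m χ δ (1 - δ2) ⊆
      Bad m χ δ (49 / 100) ∪ (Bad m χ (49 / 100) (6 / 10) ∪ Bad m χ (6 / 10) (1 - δ2)) := by
    intro p hp
    obtain ⟨p1, p2, p3, p4, p5⟩ := mem_Bad.mp hp
    rw [mem_union, mem_union, mem_Bad, mem_Bad, mem_Bad]
    rcases le_or_gt (p : ℝ) ((m : ℝ) ^ (49 / 100 : ℝ)) with h | h
    · exact Or.inl ⟨p1, p2, p3, h, p5⟩
    · rcases le_or_gt (p : ℝ) ((m : ℝ) ^ (6 / 10 : ℝ)) with h' | h'
      · exact Or.inr (Or.inl ⟨p1, p2, h, h', p5⟩)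
      · exact Or.inr (Or.inr ⟨p1, p2, h', p4, p5⟩)
  have hun : ∀ (s t : Finset ℕ), ∑ q ∈ s ∪ t, 1 / (q : ℝ) ≤
      ∑ q ∈ s, 1 / (q : ℝ) + ∑ q ∈ t, 1 / (q : ℝ) := by
    intro s t
    rw [← sum_union_inter]
    have : 0 ≤ ∑ q ∈ s ∩ t, 1 / (q : ℝ) := sum_nonneg fun _ _ => by positivity
    linarith only [this]
  have w1 := sum_le_sum_of_subset_of_nonneg (f := fun q : ℕ => 1 / (q : ℝ)) hsub
    fun _ _ _ => by positivity
  have w2 := hun (Bad m χ δ (49 / 100)) (Bad m χ (49 / 100) (6 / 10) ∪ Bad m χ (6 / 10) (1 - δ2))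
  have w3 := hun (Bad m χ (49 / 100) (6 / 10)) (Bad m χ (6 / 10) (1 - δ2))
  linarith only [hB, v2, v3, w1, w2, w3]

theorem t6_up (δ δ2 ε : ℝ) (hδ2 : 0 < δ2) (hδ3 : δ2 ≤ 1 / 100) (hδ : 0 < δ) (hδ1 : δ ≤ δ2 / 8)
    (hε : 0 < ε) : ∃ δ1 : ℝ, 0 < δ1 ∧ ∃ m0 : ℕ, ∀ (m : ℕ) [NeZero m], m0 ≤ m →
    ∀ η : ℤ, (η = 1 ∨ η = -1) → ∀ χ : DirichletCharacter ℂ m, χ ^ 2 = 1 →
    wout m η {χ} ≤ δ1 → ∑ q ∈ Bad m χ δ (49 / 100), 1 / (q : ℝ) ≤ δ1 →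
    ∑ q ∈ Bad m χ δ (1 - δ2), 1 / (q : ℝ) ≤ ε := by
  obtain ⟨A, c, hA, hc, hlow⟩ := pri_low
  obtain ⟨n1, hn1⟩ := hlow (δ2 / 2) (by positivity)
  obtain ⟨n2, hn2⟩ := hlow (28 / 100) (by norm_num)
  obtain ⟨n3, hn3⟩ := hlow (42 / 100) (by norm_num)
  obtain ⟨C, hC, n4, hn4⟩ := pri_up (1 / 5) (by norm_num)
  obtain ⟨n5, hn5⟩ := pri_mert (30 / 100) (31 / 100) (1 / 1000) (by norm_num) (by norm_num)
    (by norm_num) (by norm_num)
  obtain ⟨n6, hn6⟩ := pri_mert (25 / 100) (26 / 100) (1 / 1000) (by norm_num) (by norm_num)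
    (by norm_num) (by norm_num)
  obtain ⟨n7, hn7⟩ := pri_mert (10 / 100) (11 / 100) (1 / 1000) (by norm_num) (by norm_num)
    (by norm_num) (by norm_num)
  have hA0 : 0 < A := by linarith only [hδ3, hδ, hδ1, hA]
  have hlA : 0 ≤ Real.log A := Real.log_nonneg (by linarith only [hδ3, hδ, hδ1, hA])
  obtain ⟨C', hC'⟩ : ∃ C' : ℝ, C' = C * (1 + Real.log A) := ⟨_, rfl⟩
  have hC'0 : 0 < C' := by rw [hC']; positivity
  obtain ⟨K, hK⟩ : ∃ K : ℝ, K = (C' + 1100 * A / δ2) / c := ⟨_, rfl⟩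
  have hK0 : 0 < K := by rw [hK]; positivity
  obtain ⟨d, hd0, hd1, hd2, hd3, hd4, hd5⟩ : ∃ d : ℝ, 0 < d ∧ d ≤ 1 / 1000 ∧ d ≤ ε / 3 ∧
      K * d ≤ ε / 3 ∧ C' * d ≤ c / 100 ∧ d * (32 * A) ≤ 6 / 10000 * c * δ2 := by
    refine ⟨min (1 / 1000) (min (ε / 3) (min (ε / 3 / K) (min (c / 100 / C')
      (6 / 10000 * c * δ2 / (32 * A))))), ?_, ?_, ?_, ?_, ?_, ?_⟩
    · positivity
    · exact min_le_left _ _
    · exact (min_le_right _ _).trans (min_le_left _ _)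
    · rw [mul_comm, ← le_div_iff₀ hK0]
      exact (min_le_right _ _).trans ((min_le_right _ _).trans (min_le_left _ _))
    · rw [mul_comm, ← le_div_iff₀ hC'0]
      exact (min_le_right _ _).trans ((min_le_right _ _).trans ((min_le_right _ _).trans
        (min_le_left _ _)))
    · rw [← le_div_iff₀ (by positivity)]
      exact (min_le_right _ _).trans ((min_le_right _ _).trans ((min_le_right _ _).trans
        (min_le_right _ _)))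
  have ev : ∀ (α B : ℝ), 0 < α → ∃ n : ℕ, ∀ m : ℕ, n ≤ m → B ≤ (m : ℝ) ^ α := by
    intro α B hα
    have h1 := (tendsto_rpow_atTop hα).comp (tendsto_natCast_atTop_atTop (R := ℝ))
    have h2 := h1.eventually_ge_atTop B
    obtain ⟨n, hn⟩ := Filter.eventually_atTop.mp h2
    exact ⟨n, fun m hm => hn m hm⟩
  obtain ⟨n8, hn8⟩ := ev (δ2 / 8) (2 * A) (by positivity)
  obtain ⟨n9, hn9⟩ := ev (δ2 / 4) 4 (by positivity)
  refine ⟨d, hd0, 2 + n1 + n2 + n3 + n4 + n5 + n6 + n7 + n8 + n9, ?_⟩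
  intro m _ hm η _ χ hχ hw hB
  have key := T6c_main (m := m) (A := A) (c := c) (C' := C') (δ1 := d) (δ := δ) (δ2 := δ2)
    (by omega) hA hc hC'0 hd0 hd1 hd4 hd5 hδ2 hδ3 hδ hδ1 hχ (hn8 m (by omega))
    (hn9 m (by omega)) (hn1 m (by omega)) (hn2 m (by omega)) (hn3 m (by omega)) ?_ ?_ ?_ ?_ hw hB
  · rw [← hK] at key
    linarith only [hd2, hd3, key]
  · intro X hX
    rw [hC']
    exact hn4 m (by omega) X A hX (by linarith only [hA, hd0, hd1])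
  · have h1 := hn5 m (by omega)
    have h2 := Real.one_sub_inv_le_log_of_pos (x := (31 / 100 : ℝ) / (30 / 100)) (by norm_num)
    have h3 := (abs_le.mp h1).1
    norm_num at h2 h3 ⊢
    linarith only [hd0, hd1, h2, h3]
  · have h1 := hn6 m (by omega)
    have h2 := Real.one_sub_inv_le_log_of_pos (x := (26 / 100 : ℝ) / (25 / 100)) (by norm_num)
    have h3 := (abs_le.mp h1).1
    norm_num at h2 h3 ⊢
    linarith only [hd0, hd1, h2, h3]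
  · have h1 := hn7 m (by omega)
    have h2 := Real.one_sub_inv_le_log_of_pos (x := (11 / 100 : ℝ) / (10 / 100)) (by norm_num)
    have h3 := (abs_le.mp h1).1
    norm_num at h2 h3 ⊢
    linarith only [hd0, hd1, h2, h3]

end Pool.Agent.H78.PD
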