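import Pool.Agent.H94.PG.H78.PD.T4_1
import Pool.Agent.H94.PG.H78.PD.T5
import Pool.Agent.H94.PG.M26
import Pool.Agent.H94.PG.M31

/-!
# PD, Top: the main theorem of Part II

`χ` from `t4`, `t5`, `t6` (`ε0` small).  `χ ≠ 1`: some prime of `(m^δ, m^(49/100)]` not dividing `m` has `χ q = -1` (`pri_mert`, `t5`).  `f1(n) = λ(n) χ(n)`, `f2(n) = χ(n)`, real (`χ² = 1`), values in `{-1, 0, 1}`, completely multiplicative.
`x = ⌊m^(1/100)⌋`: `x |∑_{a ≤ x} f1(a)/a| ≤ |∑ f1(a) ⌊x/a⌋| + x = ∑_{n ≤ x} (1*f1)(n) + x`, so by `t6`, `t7`: `(φ/m) L/400 ≤ (C/log x) exp E1 + 1`, `E1 = ∑_{p ≤ x} (1 + f1(p))/p`; `(φ/m) L → ∞` (`tot_logw`, `omega_le`), so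
`exp E1 ≥ c (φ/m) L²`.  `M = m`: `hyper` (`PG/THyp.lean`): `‖DD m m χ - m L(1,χ)‖ ≤ 5 √(m KK m)`, `DD m m χ = ∑_{n ≤ m} (1*f2)(n) ≤ C (m/L) exp E2`, `E2 = ∑_{p ≤ m} (1 + χ(p))/p`.
`(1 + f1(p)) + (1 + χ(p)) = 2` at every prime (`λ(p) = -1`), so `E1 + E2 ≤ ∑_{p ≤ x} 2/p + ∑_{x < p ≤ m} 2/p ≤ 2 log log m + C` (Mertens).  So `exp E2 ≤ C m/φ`, `|L(1,χ)| ≤ (C/L)(m/φ) + 5 √(KK m/m)`, `KK m ≤ m^(3/4)`.
-/

set_option autoImplicit false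

namespace Pool.Agent.H78.PD

open Finset
open Pool.Agent.H34PG (lam lam_val lam_mul lam_prime)
open Pool.Agent.H11.LQ Pool.Agent.H78.PG

theorem top (δ δ1 : ℝ) (hδ : 0 < δ) (hδ1 : δ ≤ 1 / 100) (hδ2 : 0 < δ1) :
    ∃ ε0 C : ℝ, 0 < ε0 ∧ 0 < C ∧ ∃ m0 : ℕ, ∀ (m : ℕ) [NeZero m], m0 ≤ m →
    ∀ η : ℤ, (η = 1 ∨ η = -1) → ∀ U : Finset (DirichletCharacter ℂ m),
    (U.card : ℝ) ≤ (m : ℝ) ^ (1 / 2000 : ℝ) → wout m η U ≤ ε0 →
    ∃ χ : DirichletCharacter ℂ m, χ ^ 2 = 1 ∧ χ ≠ 1 ∧ χ (-1) = (η : ℂ) ∧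
      ‖DirichletCharacter.LFunction χ 1‖ ≤ C * (m / m.totient) / Real.log m ∧
      wout m η {χ} ≤ δ1 ∧ ∑ q ∈ Bad m χ δ (49 / 100), 1 / (q : ℝ) ≤ δ1 := by
  obtain ⟨ε4, C4, hε4, hC4, m4, H4⟩ := t4
  obtain ⟨C5, hC5, m5, H5⟩ := t5 δ hδ hδ1
  obtain ⟨δ0, hδ0, m6, H6⟩ := t6
  obtain ⟨CL, hCL, mL, HL⟩ := top_L
  obtain ⟨mP, HP⟩ := pri_mert δ (49 / 100) (1 / 4) hδ (by linarith only [hδ, hδ1]) (by norm_num) (by norm_num)
  obtain ⟨σ, hσ⟩ : ∃ σ, σ = min δ1 (min δ0 (1 / 2)) := ⟨_, rfl⟩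
  have hσ0 : 0 < σ := by rw [hσ]; positivity
  have hσ1 : σ ≤ δ1 := by rw [hσ]; exact min_le_left _ _
  have hσ2 : σ ≤ δ0 := by rw [hσ]; exact (min_le_right _ _).trans (min_le_left _ _)
  have hσ3 : σ ≤ 1 / 2 := by rw [hσ]; exact (min_le_right _ _).trans (min_le_right _ _)
  refine ⟨min ε4 (min ((σ / C4) ^ 2) (σ / C5)), CL, by positivity, hCL,
    max m4 (max m5 (max m6 (max mL (max mP 1)))), fun m _ hm η hη U hU hw => ?_⟩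
  rw [max_le_iff, max_le_iff, max_le_iff, max_le_iff, max_le_iff] at hm
  obtain ⟨hm4, hm5, hm6, hmL, hmP, hm1⟩ := hm
  rw [le_min_iff, le_min_iff] at hw
  obtain ⟨hw1, hw2, hw3⟩ := hw
  obtain ⟨χ, hχU, hχ2, hχm, hχw, hχo⟩ := H4 m hm4 η hη U hU hw1
  have hB := H5 m hm5 η hη U hU χ hχU hχ2 hχw
  have hB1 : ∑ q ∈ Bad m χ δ (49 / 100), 1 / (q : ℝ) ≤ σ := by
    refine hB.trans ?_
    rw [le_div_iff₀ hC5] at hw3
    linarith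
  have ho : wout m η {χ} ≤ σ := by
    refine hχo.trans ?_
    have h1 : Real.sqrt (wout m η U) ≤ σ / C4 := by
      rw [Real.sqrt_le_left (by positivity)]
      exact hw2
    rw [le_div_iff₀ hC4] at h1
    linarith
  have hm1R : (1 : ℝ) ≤ m := by exact_mod_cast hm1
  have hχ1 : χ ≠ 1 := by
    intro h
    have h1 := HP m hmP
    rw [abs_le] at h1
    have h2 : Bad m χ δ (49 / 100) = PI m ((m : ℝ) ^ δ) ((m : ℝ) ^ (49 / 100 : ℝ)) := by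
      unfold Bad
      rw [filter_true_of_mem]
      intro p hp
      rw [mem_PI (by positivity)] at hp
      have hu : IsUnit (p : ZMod m) := by
        rw [ZMod.isUnit_iff_coprime]
        exact (Nat.Prime.coprime_iff_not_dvd hp.1).mpr hp.2.1
      rw [h, MulChar.one_apply hu]
      norm_num
    rw [h2] at hB1
    have h3 : 1 ≤ Real.log (49 / 100 / δ) := by
      rw [Real.le_log_iff_exp_le (by positivity)]
      have h4 := Real.exp_one_lt_d9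
      have h5 : 3 ≤ 49 / 100 / δ := by
        rw [le_div_iff₀ hδ]
        linarith only [hδ, hδ1]
      linarith only [hδ, hδ1, h4, h5]
    linarith only [hδ, hδ1, hσ3, hB1, h1, h3, h1.1]
  have hB2 : ∑ q ∈ Bad m χ (3 / 10) (37 / 100), 1 / (q : ℝ) ≤ σ := by
    refine (sum_le_sum_of_subset_of_nonneg ?_ fun q _ _ => by positivity).trans hB1
    intro q hq
    rw [mem_Bad] at hq ⊢
    refine ⟨hq.1, hq.2.1, ?_, ?_, hq.2.2.2.2⟩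
    · refine lt_of_le_of_lt ?_ hq.2.2.1
      exact Real.rpow_le_rpow_of_exponent_le hm1R (by linarith only [hδ, hδ1])
    · refine hq.2.2.2.1.trans ?_
      exact Real.rpow_le_rpow_of_exponent_le hm1R (by norm_num)
  have hS := H6 m hm6 η hη χ hχ2 (ho.trans hσ2) (hB2.trans hσ2)
  exact ⟨χ, hχ2, hχ1, hχm, HL m hmL χ hχ2 hχ1 hS, ho.trans hσ1, hB1.trans hσ1⟩

end Pool.Agent.H78.PD
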